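import Pool.Agent.Thin.Main

/-!
# thin-HT implies the existence of moduli
-/

set_option autoImplicit false

namespace Pool.Agent.Thin

variable {R : Type} [CommRing R] [LinearOrder R] [IsStrictOrderedRing R]

/-- the digit of `x` at the place `n` is one, and the gap of `x` below the place `n` contains a
place `s` with `q s` -/
def GapP (q : NN R → Prop) (e : NN R → NN R) (x n : NN R) : Prop :=
  bit e n x ∧ ∃ s, s < n ∧ (q s ∧ (∀ u, u < n → (s < u → ¬ bit e u x)) ∧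
    ∃ u, u ≤ s ∧ bit e u x)

section

variable {𝒮 : Set (Set (NN R))} (h : RCA0 𝒮)

/-- `Σ⁰₂` induction in a convenient form -/
theorem ISigma2.ind (h2 : ISigma2 𝒮) {p : NN R → NN R → Prop}
    (hp : Sg 𝒮 (fun v => ¬ p (v 1) (v 0))) (h0 : ∃ y, p 0 y)
    (hs : ∀ a, (∃ y, p a y) → ∃ y, p (a + 1) y) : ∀ a, ∃ y, p a y := by
  obtain ⟨Q, hQ, hq⟩ := hp
  have e1 : ∀ a y, p a y ↔ ∀ z, ¬ Q (cons z (cons y (cons a (fun _ => 0)))) := by
    intro a y
    have := hq (cons y (cons a (fun _ => 0)))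
    simp only [cons_zero, cons_one] at this
    rw [← not_exists, ← this, not_not]
  have := h2 (fun v => ¬ Q v) hQ.not (fun _ => 0)
    (by obtain ⟨y, hy⟩ := h0; exact ⟨y, (e1 _ _).1 hy⟩)
    (fun a ⟨y, hy⟩ => by
      obtain ⟨y', hy'⟩ := hs a ⟨y, (e1 _ _).2 hy⟩
      exact ⟨y', (e1 _ _).1 hy'⟩)
  intro a
  obtain ⟨y, hy⟩ := this a
  exact ⟨y, (e1 _ _).2 hy⟩

include h

variable {e : NN R → NN R} (he : Fn1 𝒮 e) (hE : IsExp e)

include he

theorem RCA0.rl_gapP {q : NN R → NN R → Prop} (hq : Rl2 𝒮 q) :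
    Rl2 𝒮 (fun x n => GapP (q x) e x n) := by
  have hb := h.rl_bit he
  refine (Rl2.app hb (Fn.var 1) (Fn.var 0)).and (Rl.bex h (Fn.var 1) ?_)
  refine (Rl2.app hq (Fn.var 1) (Fn.var 0)).and (Rl.and ?_ ?_)
  · exact Rl.ball h (Fn.var 2) ((Rl.lt (Fn.var 1) (Fn.var 0)).imp
      (Rl2.app hb (Fn.var 0) (Fn.var 2)).not)
  · exact Rl.bex_le h (Fn.var 0) (Rl2.app hb (Fn.var 0) (Fn.var 2))

include hE

/-- adding a clean block after a dirty gap increases the count by one -/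
theorem RCA0.newblock {q : NN R → Prop} {K : NN R → NN R → NN R} (hK : Fn2 𝒮 K)
    (hKc : ∀ x, IsCount (GapP q e x) (K x)) {y t A A' c : NN R} (hy : y < e A) (ht : t = e A * c)
    (htpos : t ≠ 0) (htA : t < e A') (hclean : ∀ s, A ≤ s → s < A' → ¬ q s)
    (hw : ∃ s, s < A ∧ (q s ∧ (∀ u, u < A → (s < u → ¬ bit e u y)) ∧ ∃ u, u ≤ s ∧ bit e u y)) :
    K (y + t) A' = K y A + 1 := by
  have hb := h.rl_bit he
  have hK1 : ∀ x, Fn1 𝒮 (K x) := fun x => Fn2.app hK (Fn.const x) (Fn.var 0)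
  have hlow : ∀ n, n < A → (bit e n (y + t) ↔ bit e n y) := fun n hn => h.bit_low he hE ht hn
  have hhi : ∀ n, A ≤ n → (bit e n (y + t) ↔ bit e n t) := fun n hn => h.bit_high he hE hy ht hn
  obtain ⟨b, hbt, hbmin⟩ := h.least (p := fun n => bit e n t)
    (Rl2.app hb (Fn.var 0) (Fn.const _)) (h.exists_bit he hE htpos)
  have hab : A ≤ b := by
    by_contra hcon
    exact h.not_bit_of_dvd he hE ht (not_le.mp hcon) hbt
  have hba : b < A' := by
    by_contra hcon
    exact h.not_bit_of_lt he hE htA (not_lt.mp hcon) hbt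
  have hKlow : K (y + t) A = K y A := by
    apply h.count_congr (hK1 _) (hKc _) (hK1 _) (hKc _)
    intro n hn
    constructor
    · rintro ⟨h1, s, h2, h3, h4, u, h5, h6⟩
      exact ⟨(hlow n hn).1 h1, s, h2, h3, fun u hu hsu hbu =>
        h4 u hu hsu ((hlow u (hu.trans hn)).2 hbu), u, h5,
        (hlow u ((lt_of_le_of_lt h5 h2).trans hn)).1 h6⟩
    · rintro ⟨h1, s, h2, h3, h4, u, h5, h6⟩
      exact ⟨(hlow n hn).2 h1, s, h2, h3, fun u hu hsu hbu =>
        h4 u hu hsu ((hlow u (hu.trans hn)).1 hbu), u, h5,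
        (hlow u ((lt_of_le_of_lt h5 h2).trans hn)).2 h6⟩
  obtain ⟨s, h2, h3, h4, u0, h5, h6⟩ := hw
  rw [← hKlow]
  apply h.count_one (hK1 _) (hKc _) hab hba
  · refine ⟨(hhi b hab).2 hbt, s, h2.trans_le hab, h3, fun u hu hsu hbu => ?_, u0,
      h5, (hlow u0 (lt_of_le_of_lt h5 h2)).2 h6⟩
    rcases lt_or_ge u A with h8 | h8
    · exact h4 u h8 hsu ((hlow u h8).1 hbu)
    · exact hbmin u hu ((hhi u h8).1 hbu)
  · rintro n h8 h9 ⟨h10, s', h11, h12, h13, _⟩
    by_contra hne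
    have h14 : bit e n t := (hhi n h8).1 h10
    have h15 : b < n := by
      rcases lt_trichotomy n b with h16 | h16 | h16
      · exact absurd h14 (hbmin n h16)
      · exact absurd h16 hne
      · exact h16
    have h17 : b ≤ s' := by
      by_contra hcon
      exact h13 b h15 (not_le.mp hcon) ((hhi b hab).2 hbt)
    exact hclean s' (hab.trans h17) (h11.trans h9) h12

/-- the ruler function takes every value in every long interval -/
theorem RCA0.exists_ruler : ∃ g : NN R → NN R, Fn1 𝒮 g ∧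
    ∀ i N, ∃ n, N ≤ n ∧ n < N + e (i + 1) ∧ g n = i := by
  have hb := h.rl_bit he
  have hne : ∀ n : NN R, n + 1 ≠ 0 := fun n => ne_of_gt (lt_of_le_of_lt (zero_le' _) (lt_succ n))
  obtain ⟨g, hg, hgs⟩ := h.exists_min (p := fun n z => bit e z (n + 1))
    (Rl2.app hb (Fn.var 1) ((Fn.var 0).add (Fn.const 1))) (fun n => h.exists_bit he hE (hne n))
  refine ⟨g, hg, fun i N => ?_⟩
  have key : ∀ q n, n + 1 = q * e (i + 1) + e i → g n = i := by
    intro q n hn
    have h1 : n + 1 = (q + q + 1) * e i + 0 := by rw [hn, hE.succ]; ring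
    have h2 : bit e i (n + 1) := by
      rw [h.bit_iff (h.exp_pos he hE i) h1, h.ev_succ, not_not]
      exact ⟨q, rfl⟩
    have h3 : ∀ z, z < i → ¬ bit e z (n + 1) := by
      intro z hz
      exact h.not_bit_of_dvd he hE (a := i) (c := q + q + 1) (by rw [h1]; ring) hz
    rcases lt_trichotomy (g n) i with h4 | h4 | h4
    · exact absurd (hgs n).1 (h3 _ h4)
    · exact h4
    · exact absurd h2 ((hgs n).2 i h4)
  obtain ⟨hr, hN⟩ := h.dv_md (N + 1) (h.exp_pos he hE (i + 1))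
  set q := dv (N + 1) (e (i + 1))
  set r := md (N + 1) (e (i + 1))
  obtain ⟨ε, hε⟩ : ∃ ε, e i = ε + 1 := by
    rcases h.eq_zero_or (a := e i) with h0 | h0
    · exact absurd h0 (ne_of_gt (h.exp_pos he hE i))
    · exact h0
  have hN' : (N : R) + 1 = q * (e i + e i) + r := by
    have := congrArg Subtype.val hN
    rw [hE.succ] at this
    simpa using this
  have hε' : (e i : R) = ε + 1 := by
    have := congrArg Subtype.val hε
    simpa using this
  rcases le_or_gt r (e i) with h1 | h1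
  · refine ⟨q * e (i + 1) + ε, ?_, ?_, key q _ (by rw [hε]; ring)⟩
    · rw [← Subtype.coe_le_coe] at h1 ⊢
      rw [hE.succ]
      push_cast
      linarith
    · rw [← Subtype.coe_lt_coe, hE.succ]
      push_cast
      linarith [ε.2, r.2]
  · refine ⟨(q + 1) * e (i + 1) + ε, ?_, ?_, key (q + 1) _ (by rw [hε]; ring)⟩
    · rw [hE.succ] at hr
      rw [← Subtype.coe_lt_coe] at h1 hr
      rw [← Subtype.coe_le_coe, hE.succ]
      push_cast at hr ⊢
      linarith [ε.2]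
    · rw [← Subtype.coe_lt_coe] at h1
      rw [← Subtype.coe_lt_coe, hE.succ]
      push_cast
      linarith [ε.2]

end

open Classical in
/-- the process started with the block `t j` -/
def TauRec (M b : NN R → NN R) (τ : NN R → NN R → NN R) : Prop :=
  (∀ j, τ j 0 = 0) ∧ ∀ j k, τ j (k + 1) = if k ≤ j then 0 else
    if (Ev (τ j k) ∧ M k ≤ b j) ∨ (¬ Ev (τ j k) ∧ b j < M k) then τ j k + 1 else τ j k

/-- the blocks chosen by the process -/
def Chs (M b : NN R → NN R) (τ : NN R → NN R → NN R) (j k : NN R) : Prop :=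
  k = j ∨ (j < k ∧ (¬ Ev (τ j k) ∧ b j < M k))

/-- the invariant of the process -/
structure Inv2 (G e a : NN R → NN R) (τ : NN R → NN R → NN R) (j β D : NN R) (y : NN R → NN R)
    (K : NN R → NN R → NN R) (k : NN R) : Prop where
  lt : y k < e (a k)
  bot : bit e β (y k) ∧ ∀ u, u < β → ¬ bit e u (y k)
  ev : Ev (τ j k) → K (y k) (a k) + K (y k) (a k) = D + D + τ j k
  odd : ¬ Ev (τ j k) → K (y k) (a k) + K (y k) (a k) + 1 = D + D + τ j k ∧
    ∃ s, s < a k ∧ (G s ≤ β ∧ (∀ u, u < a k → (s < u → ¬ bit e u (y k))) ∧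
      ∃ u, u ≤ s ∧ bit e u (y k))

section

variable {𝒮 : Set (Set (NN R))} (h : RCA0 𝒮)

include h

theorem RCA0.exists_tau {M b : NN R → NN R} (hM : Fn1 𝒮 M) (hb : Fn1 𝒮 b) :
    ∃ τ : NN R → NN R → NN R, Fn2 𝒮 τ ∧ TauRec M b τ := by
  classical
  have hF : Fn3 𝒮 (fun j k y : NN R => if k ≤ j then 0 else
      if (Ev y ∧ M k ≤ b j) ∨ (¬ Ev y ∧ b j < M k) then y + 1 else y) := by
    refine Fn.ite (Rl.le (Fn.var 1) (Fn.var 0)) (Fn.const 0) (Fn.ite ?_ ?_ (Fn.var 2))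
    · exact ((Rl1.app h.rl_ev (Fn.var 2)).and (Rl.le (Fn1.app hM (Fn.var 1))
        (Fn1.app hb (Fn.var 0)))).or ((Rl1.app h.rl_ev (Fn.var 2)).not.and
        (Rl.lt (Fn1.app hb (Fn.var 0)) (Fn1.app hM (Fn.var 1))))
    · exact (Fn.var 2).add (Fn.const 1)
  obtain ⟨τ, h1, h2, h3⟩ := h.prec1 (A := fun _ => 0) (Fn.const 0) hF
  refine ⟨τ, h1, h2, fun j k => ?_⟩
  rw [h3]

theorem RCA0.exists_sum {p : NN R → Prop} {t : NN R → NN R} (hp : Rl1 𝒮 p) (ht : Fn1 𝒮 t) :
    ∃ y, Fn1 𝒮 y ∧ IsSum p t y := by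
  classical
  obtain ⟨ψ, hψ, hψ0, hψs⟩ := h.prec (a := 0) (F := fun k z => if p k then z + t k else z)
    (Fn.ite (Rl1.app hp (Fn.var 0)) ((Fn.var 1).add (Fn1.app ht (Fn.var 0))) (Fn.var 1))
  exact ⟨ψ, hψ, hψ0, fun n hn => by rw [hψs, if_pos hn], fun n hn => by rw [hψs, if_neg hn]⟩

variable {G e : NN R → NN R} (hG : Fn1 𝒮 G) (he : Fn1 𝒮 e) (hE : IsExp e)
  {S : Set (NN R)} {a t : NN R → NN R} (hA : Apart 𝒮 S e a t)
  {M : NN R → NN R} (hM : Fn1 𝒮 M) (hM1 : ∀ j s, a j ≤ s → s < a (j + 1) → M j ≤ G s)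
  (hM2 : ∀ j, ∃ s, a j ≤ s ∧ s < a (j + 1) ∧ G s = M j)
  {b : NN R → NN R} (hb : ∀ j, bit e (b j) (t j) ∧ ∀ u, u < b j → ¬ bit e u (t j))
  {τ : NN R → NN R → NN R} (hτ : Fn2 𝒮 τ) (hr : TauRec M b τ) {j : NN R}
  {y : NN R → NN R} (hy : Fn1 𝒮 y) (hyr : IsSum (Chs M b τ j) t y)
  {K : NN R → NN R → NN R} (hK : Fn2 𝒮 K)
  (hKc : ∀ x, IsCount (GapP (fun s => G s ≤ b j) e x) (K x))

include hM hτ in
theorem RCA0.rl_chs : Rl1 𝒮 (Chs M b τ j) := by
  refine (Rl.eq (Fn.var 0) (Fn.const j)).or ((Rl.lt (Fn.const j) (Fn.var 0)).and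
    (Rl.and (Rl1.app h.rl_ev (Fn2.app hτ (Fn.const j) (Fn.var 0))).not
    (Rl.lt (Fn.const _) (Fn1.app hM (Fn.var 0)))))

include hG he hE hA hM1 hM2 hb hτ hr hy hyr hK hKc

theorem RCA0.inv2 (k : NN R) (hjk : j < k) :
    Inv2 G e a τ j (b j) (K (t j) (a (j + 1))) y K k := by
  have hbit := h.rl_bit he
  have hK1 : ∀ x, Fn1 𝒮 (K x) := fun x => Fn2.app hK (Fn.const x) (Fn.var 0)
  have haj : ∀ j, a j < a (j + 1) := h.apart_lt he hE hA
  have hyz : ∀ k, k ≤ j → y k = 0 := by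
    refine h.ind_rl (p := fun k => k ≤ j → y k = 0) ?_ ?_ ?_
    · exact (Rl.le (Fn.var 0) (Fn.const j)).imp (Rl.eq hy (Fn.const 0))
    · intro _; exact hyr.zero
    · intro k ih hk
      rw [h.succ_le_iff] at hk
      rw [hyr.no k ?_, ih hk.le]
      rintro (h1 | h1)
      · exact absurd h1 (ne_of_lt hk)
      · exact absurd h1.1 (not_lt.mpr hk.le)
  have hy1 : y (j + 1) = t j := by
    rw [hyr.yes j (Or.inl rfl), hyz j le_rfl, zero_add]
  have hτ1 : τ j (j + 1) = 0 := by rw [hr.2, if_pos le_rfl]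
  obtain ⟨s, hs⟩ : ∃ s, k = j + 1 + s :=
    ⟨k - (j + 1), (add_tsub_cancel_of_le (h.succ_le_iff.mpr hjk)).symm⟩
  rw [hs]
  clear hs hjk k
  revert s
  refine h.ind_rl (p := fun s => Inv2 G e a τ j (b j) (K (t j) (a (j + 1))) y K (j + 1 + s)) ?_ ?_ ?_
  · -- definability
    have cs : Fn1 𝒮 (fun s => j + 1 + s) := (Fn.const (j + 1)).add (Fn.var 0)
    have cy : Fn1 𝒮 (fun s => y (j + 1 + s)) := Fn1.app hy cs
    have ca : Fn1 𝒮 (fun s => a (j + 1 + s)) := Fn1.app hA.fa cs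
    have cτ : Fn1 𝒮 (fun s => τ j (j + 1 + s)) := Fn2.app hτ (Fn.const j) cs
    have cK : Fn1 𝒮 (fun s => K (y (j + 1 + s)) (a (j + 1 + s))) := Fn2.app hK cy ca
    have c1 : Rl1 𝒮 (fun s => y (j + 1 + s) < e (a (j + 1 + s))) := Rl.lt cy (Fn1.app he ca)
    have c2 : Rl1 𝒮 (fun s => bit e (b j) (y (j + 1 + s)) ∧
        ∀ u, u < b j → ¬ bit e u (y (j + 1 + s))) :=
      (Rl2.app hbit (Fn.const _) cy).and (Rl.ball h (Fn.const _)
        (Rl2.app hbit (Fn.var 0) (Fn1.app (f := fun s => y (j + 1 + s)) cy (Fn.var 1))).not)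
    have c3 : Rl1 𝒮 (fun s => Ev (τ j (j + 1 + s))) := Rl1.app h.rl_ev cτ
    have c4 : Rl1 𝒮 (fun s => K (y (j + 1 + s)) (a (j + 1 + s)) +
        K (y (j + 1 + s)) (a (j + 1 + s)) =
        K (t j) (a (j + 1)) + K (t j) (a (j + 1)) + τ j (j + 1 + s)) :=
      Rl.eq (Fn.add cK cK) ((Fn.const _).add cτ)
    have c5 : Rl1 𝒮 (fun s => K (y (j + 1 + s)) (a (j + 1 + s)) +
        K (y (j + 1 + s)) (a (j + 1 + s)) + 1 =
        K (t j) (a (j + 1)) + K (t j) (a (j + 1)) + τ j (j + 1 + s)) :=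
      Rl.eq ((Fn.add cK cK).add (Fn.const 1)) ((Fn.const _).add cτ)
    have c6 : Rl1 𝒮 (fun k => ∃ s, s < a (j + 1 + k) ∧ (G s ≤ b j ∧
        (∀ u, u < a (j + 1 + k) → (s < u → ¬ bit e u (y (j + 1 + k)))) ∧
        ∃ u, u ≤ s ∧ bit e u (y (j + 1 + k)))) := by
      refine Rl.bex h ca ((Rl.le (Fn1.app hG (Fn.var 0)) (Fn.const _)).and (Rl.and ?_ ?_))
      · exact Rl.ball h (Fn1.app (f := fun s => a (j + 1 + s)) ca (Fn.var 1)) ((Rl.lt (Fn.var 1) (Fn.var 0)).imp
          (Rl2.app hbit (Fn.var 0) (Fn1.app (f := fun s => y (j + 1 + s)) cy (Fn.var 2))).not)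
      · exact Rl.bex_le h (Fn.var 0) (Rl2.app hbit (Fn.var 0)
          (Fn1.app (f := fun s => y (j + 1 + s)) cy (Fn.var 2)))
    refine (c1.and (Rl.and c2 ((Rl.imp c3 c4).and (Rl.imp c3.not (Rl.and c5 c6))))).congr
      (fun v => ?_)
    constructor
    · rintro ⟨h1, h2, h3, h4⟩; exact ⟨h1, h2, h3, h4⟩
    · rintro ⟨h1, h2, h3, h4⟩; exact ⟨h1, h2, h3, h4⟩
  · -- zero
    rw [add_zero]
    refine ⟨?_, ?_, fun _ => ?_, fun h1 => ?_⟩
    · rw [hy1]; exact hA.lt j
    · rw [hy1]; exact hb j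
    · rw [hy1, hτ1, add_zero]
    · rw [hτ1] at h1; exact absurd ev_zero h1
  · -- successor
    intro s I
    rw [← add_assoc]
    have hjk : j < j + 1 + s := lt_of_lt_of_le (lt_succ j) le_self_add
    generalize j + 1 + s = k at I hjk ⊢
    have hylt : y k < e (a (k + 1)) := lt_of_lt_of_le I.lt (h.exp_mono he hE (haj k).le)
    have hKsame : K (y k) (a (k + 1)) = K (y k) (a k) :=
      h.count_const (hK1 _) (hKc _) (haj k).le
        (fun n h2 _ h3 => h.not_bit_of_lt he hE I.lt h2 h3.1)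
    have hba : b j < a k := by
      by_contra hc
      exact h.not_bit_of_lt he hE I.lt (not_lt.mp hc) I.bot.1
    have hs1 := hr.2 j k
    rw [if_neg (not_le.mpr hjk)] at hs1
    by_cases hev : Ev (τ j k)
    · have hnp : ¬ Chs M b τ j k := by
        rintro (h1 | h1)
        · exact absurd h1 (ne_of_gt hjk)
        · exact h1.2.1 hev
      have hy2 := hyr.no k hnp
      by_cases hMb : M k ≤ b j
      · rw [if_pos (Or.inl ⟨hev, hMb⟩)] at hs1
        refine ⟨?_, ?_, fun h1 => ?_, fun _ => ?_⟩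
        · rw [hy2]; exact hylt
        · rw [hy2]; exact I.bot
        · rw [hs1] at h1; exact absurd hev (h.ev_succ.mp h1)
        · rw [hy2, hs1, hKsame]
          refine ⟨by rw [I.ev hev]; ring, ?_⟩
          obtain ⟨s, h1, h2, h3⟩ := hM2 k
          refine ⟨s, h2, h3.le.trans hMb, fun u _ hsu => ?_, ?_⟩
          · exact h.not_bit_of_lt he hE I.lt (h1.trans hsu.le)
          · exact ⟨b j, (hba.trans_le h1).le, I.bot.1⟩
      · have hc4 : ¬ ((Ev (τ j k) ∧ M k ≤ b j) ∨ (¬ Ev (τ j k) ∧ b j < M k)) := by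
          rintro (h1 | h1)
          · exact hMb h1.2
          · exact h1.1 hev
        rw [if_neg hc4] at hs1
        refine ⟨?_, ?_, fun _ => ?_, fun h1 => ?_⟩
        · rw [hy2]; exact hylt
        · rw [hy2]; exact I.bot
        · rw [hy2, hs1, hKsame]; exact I.ev hev
        · rw [hs1] at h1; exact absurd hev h1
    · by_cases hMb : b j < M k
      · -- new block
        rw [if_pos (Or.inr ⟨hev, hMb⟩)] at hs1
        have hy2 := hyr.yes k (Or.inr ⟨hjk, hev, hMb⟩)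
        obtain ⟨c, hc⟩ := hA.dvd k
        obtain ⟨hI1, hI2⟩ := I.odd hev
        have hnb := h.newblock he hE hK hKc (A' := a (k + 1)) I.lt hc (ne_of_gt (hA.pos k))
          (hA.lt k) (fun s h1 h2 h3 =>
            absurd hMb (not_lt.mpr ((hM1 k s h1 h2).trans h3))) hI2
        have hlow : ∀ n, n < a k → (bit e n (y k + t k) ↔ bit e n (y k)) :=
          fun n hn => h.bit_low he hE hc hn
        have hsz : y k + t k < e (a (k + 1)) := by
          obtain ⟨s, hs⟩ : ∃ s, a (k + 1) = a k + s :=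
            ⟨a (k + 1) - a k, (add_tsub_cancel_of_le (haj k).le).symm⟩
          have h1 := hA.lt k
          rw [hs, h.exp_add he hE] at h1 ⊢
          rw [hc] at h1 ⊢
          have h2 : c < e s := lt_of_mul_lt_mul_left h1 (zero_le' _)
          rw [← h.succ_le_iff] at h2
          calc y k + e (a k) * c < e (a k) + e (a k) * c := add_lt_add_left I.lt _
            _ = e (a k) * (c + 1) := by ring
            _ ≤ e (a k) * e s := mul_le_mul_of_nonneg_left h2 (zero_le' _)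
        refine ⟨?_, ?_, fun _ => ?_, fun h1 => ?_⟩
        · rw [hy2]; exact hsz
        · rw [hy2]
          exact ⟨(hlow _ hba).2 I.bot.1, fun u hu hbu =>
            I.bot.2 u hu ((hlow u (hu.trans hba)).1 hbu)⟩
        · rw [hy2, hs1, hnb]
          calc K (y k) (a k) + 1 + (K (y k) (a k) + 1)
              = K (y k) (a k) + K (y k) (a k) + 1 + 1 := by ring
            _ = _ := by rw [hI1]; ring
        · rw [hs1] at h1
          exact absurd (h.ev_succ.mpr hev) h1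
      · have hc4 : ¬ ((Ev (τ j k) ∧ M k ≤ b j) ∨ (¬ Ev (τ j k) ∧ b j < M k)) := by
          rintro (h1 | h1)
          · exact hev h1.1
          · exact hMb h1.2
        rw [if_neg hc4] at hs1
        have hnp : ¬ Chs M b τ j k := by
          rintro (h1 | h1)
          · exact absurd h1 (ne_of_gt hjk)
          · exact hMb h1.2.2
        have hy2 := hyr.no k hnp
        refine ⟨?_, ?_, fun h1 => ?_, fun _ => ?_⟩
        · rw [hy2]; exact hylt
        · rw [hy2]; exact I.bot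
        · rw [hs1] at h1; exact absurd h1 hev
        · rw [hy2, hs1, hKsame]
          obtain ⟨h1, s, h4, h5, h6, h7⟩ := I.odd hev
          refine ⟨h1, s, h4.trans (haj k), h5, fun u hu hsu => ?_, h7⟩
          rcases lt_or_ge u (a k) with h8 | h8
          · exact h6 u h8 hsu
          · exact h.not_bit_of_lt he hE I.lt h8

end

end Pool.Agent.Thin
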