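import Pool.Agent.Thin.Bits

/-!
# An apart sequence of finite sums
-/

set_option autoImplicit false

namespace Pool.Agent.Thin

variable {R : Type} [CommRing R] [LinearOrder R] [IsStrictOrderedRing R]

/-- `ψ j` is the sum of the `t k`, `k < j`, with `p k` -/
structure IsSum (p : NN R → Prop) (t ψ : NN R → NN R) : Prop where
  zero : ψ 0 = 0
  yes : ∀ n, p n → ψ (n + 1) = ψ n + t n
  no : ∀ n, ¬ p n → ψ (n + 1) = ψ n

/-- `t` is an apart sequence with bounds `a`, all of whose finite sums are in `FS(S)` -/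
structure Apart (𝒮 : Set (Set (NN R))) (S : Set (NN R)) (e a t : NN R → NN R) : Prop where
  fa : Fn1 𝒮 a
  ft : Fn1 𝒮 t
  dvd : ∀ j, ∃ c, t j = e (a j) * c
  pos : ∀ j, 0 < t j
  lt : ∀ j, t j < e (a (j + 1))
  fs : ∀ (p : NN R → Prop) (ψ : NN R → NN R), Rl1 𝒮 p → Fn1 𝒮 ψ → IsSum p t ψ →
    ∀ j, ψ j ≠ 0 → ψ j ∈ FSin 𝒮 S

section

variable {𝒮 : Set (Set (NN R))} (h : RCA0 𝒮)

include h

/-- partial sums over a set of the model -/
theorem RCA0.exists_psum {S : Set (NN R)} (hS : S ∈ 𝒮) :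
    ∃ P : NN R → NN R, Fn1 𝒮 P ∧ P 0 = 0 ∧ (∀ n, n ∈ S → P (n + 1) = P n + n) ∧
      ∀ n, n ∉ S → P (n + 1) = P n := by
  classical
  obtain ⟨P, h1, h2, h3⟩ := h.prec (a := 0) (F := fun n y => if n ∈ S then y + n else y)
    (Fn.ite (Rl.mem hS (Fn.var 0)) ((Fn.var 1).add (Fn.var 0)) (Fn.var 1))
  refine ⟨P, h1, h2, fun n hn => ?_, fun n hn => ?_⟩
  · rw [h3, if_pos hn]
  · rw [h3, if_neg hn]

/-- monotonicity from steps -/
theorem RCA0.mono_of_step {f : NN R → NN R} (hf : Fn1 𝒮 f) (hs : ∀ n, f n ≤ f (n + 1)) {m n : NN R}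
    (hmn : m ≤ n) : f m ≤ f n := by
  obtain ⟨s, rfl⟩ : ∃ s, n = m + s := ⟨n - m, (add_tsub_cancel_of_le hmn).symm⟩
  clear hmn
  revert s
  refine h.ind_rl (p := fun s => f m ≤ f (m + s)) ?_ (by rw [add_zero]) ?_
  · exact Rl.le (Fn.const _) (Fn1.app hf ((Fn.const m).add (Fn.var 0)))
  · intro s ih
    rw [← add_assoc]
    exact ih.trans (hs _)

variable {e : NN R → NN R} (he : Fn1 𝒮 e) (hE : IsExp e)

omit h in
/-- the relation used to find the next sum -/
def Nxt (e P : NN R → NN R) (x z : NN R) : Prop :=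
  ∃ l, l < z ∧ (x ≤ l ∧ P l < P z ∧ md (P z - P l) (e (P x)) = 0)

include he

theorem RCA0.rl_nxt {P : NN R → NN R} (hP : Fn1 𝒮 P) : Rl2 𝒮 (Nxt e P) := by
  refine Rl.bex h (Fn.var 1) ((Rl.le (Fn.var 1) (Fn.var 0)).and ((Rl.lt (Fn1.app hP (Fn.var 0))
    (Fn1.app hP (Fn.var 2))).and (Rl.eq (Fn2.app h.fn_md ((Fn1.app hP (Fn.var 2)).sub
    (Fn1.app hP (Fn.var 0))) (Fn1.app he (Fn1.app hP (Fn.var 1)))) (Fn.const 0))))

include hE

theorem RCA0.exists_nxt {S : Set (NN R)} (hS : S ∈ 𝒮) (hun : Unbdd S) {P : NN R → NN R}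
    (hP : Fn1 𝒮 P) (hPs : ∀ n, n ∈ S → P (n + 1) = P n + n)
    (hPn : ∀ n, n ∉ S → P (n + 1) = P n) (x : NN R) : ∃ z, Nxt e P x z := by
  have hmono : ∀ m n, m ≤ n → P m ≤ P n := fun m n => h.mono_of_step hP (fun n => by
    by_cases hn : n ∈ S
    · rw [hPs n hn]; exact le_self_add
    · rw [hPn n hn])
  -- enumeration
  obtain ⟨N, hN, hNs⟩ := h.exists_min (p := fun y z => y < z ∧ z ∈ S)
    ((Rl.lt (Fn.var 0) (Fn.var 1)).and (Rl.mem hS (Fn.var 1))) (fun y => by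
      obtain ⟨z, h1, h2⟩ := hun (y + 1)
      exact ⟨z, h.succ_le_iff.mp h2, h1⟩)
  obtain ⟨s, hs, hs0, hss⟩ := h.prec (a := N x) (F := fun _ y => N y) (Fn1.app hN (Fn.var 1))
  have hsS : ∀ k, s k ∈ S ∧ x < s k := by
    refine h.ind_rl (p := fun k => s k ∈ S ∧ x < s k) ((Rl.mem hS hs).and
      (Rl.lt (Fn.const x) hs)) ?_ ?_
    · rw [hs0]; exact ⟨(hNs x).1.2, (hNs x).1.1⟩
    · intro k hk
      rw [hss]
      exact ⟨(hNs (s k)).1.2, hk.2.trans (hNs (s k)).1.1⟩
  have hslt : ∀ k, s k < s (k + 1) := fun k => by rw [hss]; exact (hNs (s k)).1.1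
  have hm : 0 < e (P x) := h.exp_pos he hE _
  obtain ⟨k, k', h1, h2, h3⟩ := h.php (f := fun k => md (P (s k)) (e (P x)))
    (Fn2.app h.fn_md (Fn1.app hP hs) (Fn.const _)) (e (P x)) (fun k _ => (h.dv_md _ hm).1)
  have h4 : s k + 1 ≤ s k' := by
    refine (h.succ_le_iff.mpr (hslt k)).trans ?_
    exact h.mono_of_step hs (fun n => (hslt n).le) (h.succ_le_iff.mpr h1)
  have h5 : P (s k) < P (s k') := by
    refine lt_of_lt_of_le ?_ (hmono _ _ h4)
    rw [hPs _ (hsS k).1]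
    exact lt_add_of_pos_right _ (lt_of_le_of_lt (zero_le' x) (hsS k).2)
  refine ⟨s k', s k, h.succ_le_iff.mp h4, (hsS k).2.le, h5, ?_⟩
  obtain ⟨h6, h7⟩ := h.dv_md (P (s k)) hm
  obtain ⟨h8, h9⟩ := h.dv_md (P (s k')) hm
  have h10 : md (P (s k)) (e (P x)) = md (P (s k')) (e (P x)) := h3
  rw [← h10] at h8 h9
  refine h.md_eq (q := dv (P (s k')) (e (P x)) - dv (P (s k)) (e (P x))) hm ?_
  rw [add_zero, tsub_mul]
  nth_rewrite 1 [h7, h9]
  rw [add_tsub_add_eq_tsub_right]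

theorem RCA0.exists_apart {S : Set (NN R)} (hS : S ∈ 𝒮) (hun : Unbdd S) :
    ∃ a t : NN R → NN R, Apart 𝒮 S e a t := by
  obtain ⟨P, hP, hP0, hPs, hPn⟩ := h.exists_psum hS
  have hmono : ∀ m n, m ≤ n → P m ≤ P n := fun m n => h.mono_of_step hP (fun n => by
    by_cases hn : n ∈ S
    · rw [hPs n hn]; exact le_self_add
    · rw [hPn n hn])
  obtain ⟨Rr, hR, hRs⟩ := h.exists_min (p := Nxt e P) (h.rl_nxt he hP)
    (h.exists_nxt he hE hS hun hP hPs hPn)
  obtain ⟨L, hL, hLs⟩ := h.exists_min (p := fun x l => (x ≤ l ∧ l < Rr x ∧ P l < P (Rr x) ∧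
      md (P (Rr x) - P l) (e (P x)) = 0))
    ((Rl.le (Fn.var 0) (Fn.var 1)).and ((Rl.lt (Fn.var 1) (Fn1.app hR (Fn.var 0))).and
    ((Rl.lt (Fn1.app hP (Fn.var 1)) (Fn1.app hP (Fn1.app hR (Fn.var 0)))).and
    (Rl.eq (Fn2.app h.fn_md ((Fn1.app hP (Fn1.app hR (Fn.var 0))).sub
    (Fn1.app hP (Fn.var 1))) (Fn1.app he (Fn1.app hP (Fn.var 0)))) (Fn.const 0)))))
    (fun x => by
      obtain ⟨l, h1, h2, h3, h4⟩ := (hRs x).1
      exact ⟨l, h2, h1, h3, h4⟩)
  obtain ⟨r, hr, hr0, hrs⟩ := h.prec (a := 0) (F := fun _ y => Rr y) (Fn1.app hR (Fn.var 1))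
  have hl : ∀ j, r j ≤ L (r j) ∧ L (r j) < r (j + 1) ∧ P (L (r j)) < P (r (j + 1)) ∧
      md (P (r (j + 1)) - P (L (r j))) (e (P (r j))) = 0 := by
    intro j
    rw [hrs]
    exact (hLs (r j)).1
  have hrmono : ∀ m n, m ≤ n → r m ≤ r n := fun m n => h.mono_of_step hr (fun n =>
    (hl n).1.trans (hl n).2.1.le)
  refine ⟨fun j => P (r j), fun j => P (r (j + 1)) - P (L (r j)), ?_, ?_, ?_, ?_, ?_, ?_⟩
  · exact Fn1.app hP hr
  · exact (Fn1.app hP (Fn1.app hr ((Fn.var 0).add (Fn.const 1)))).sub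
      (Fn1.app hP (Fn1.app hL hr))
  · intro j
    have h1 := (hl j).2.2.2
    obtain ⟨_, h3⟩ := h.dv_md (P (r (j + 1)) - P (L (r j))) (h.exp_pos he hE (P (r j)))
    rw [h1, add_zero] at h3
    exact ⟨_, h3.trans (mul_comm _ _)⟩
  · intro j
    exact tsub_pos_of_lt (hl j).2.2.1
  · intro j
    exact lt_of_le_of_lt tsub_le_self (h.lt_exp he hE _)
  · intro p ψ hp hψ hsum j hj
    have hFr : Rl1 𝒮 (fun m => m ∈ S ∧ ∃ k, k < j ∧ (p k ∧ L (r k) ≤ m ∧ m < r (k + 1))) := by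
      refine (Rl.mem hS (Fn.var 0)).and (Rl.bex h (Fn.const j) ((Rl1.app hp (Fn.var 0)).and
        ((Rl.le (Fn1.app hL (Fn1.app hr (Fn.var 0))) (Fn.var 1)).and (Rl.lt (Fn.var 1)
        (Fn1.app hr ((Fn.var 0).add (Fn.const 1)))))))
    have hFS := h.comp_rl hFr
    set F : Set (NN R) := {m | m ∈ S ∧ ∃ k, k < j ∧ (p k ∧ L (r k) ≤ m ∧ m < r (k + 1))} with hF
    obtain ⟨g, hg, hg0, hgs, hgn⟩ := h.exists_psum hFS
    -- constancy of g off F
    have gconst : ∀ u w, u ≤ w → (∀ m, u ≤ m → m < w → m ∉ F) → g w = g u := by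
      intro u w huw hm
      have key : ∀ s, u + s ≤ w → g (u + s) = g u := by
        refine h.ind_rl (p := fun s => u + s ≤ w → g (u + s) = g u) ?_ ?_ ?_
        · exact (Rl.le ((Fn.const u).add (Fn.var 0)) (Fn.const w)).imp
            (Rl.eq (Fn1.app hg ((Fn.const u).add (Fn.var 0))) (Fn.const _))
        · intro _; rw [add_zero]
        · intro s ih hs
          rw [← add_assoc] at hs ⊢
          rw [h.succ_le_iff] at hs
          rw [hgn _ (hm _ le_self_add hs), ih hs.le]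
      have := key (w - u)
      rw [add_tsub_cancel_of_le huw] at this
      exact this le_rfl
    have gseg : ∀ u w, u ≤ w → (∀ m, u ≤ m → m < w → (m ∈ F ↔ m ∈ S)) →
        g w + P u = g u + P w := by
      intro u w huw hm
      have key : ∀ s, u + s ≤ w → g (u + s) + P u = g u + P (u + s) := by
        refine h.ind_rl (p := fun s => u + s ≤ w → g (u + s) + P u = g u + P (u + s)) ?_ ?_ ?_
        · exact (Rl.le ((Fn.const u).add (Fn.var 0)) (Fn.const w)).imp
            (Rl.eq ((Fn1.app hg ((Fn.const u).add (Fn.var 0))).add (Fn.const _))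
            ((Fn.const _).add (Fn1.app hP ((Fn.const u).add (Fn.var 0)))))
        · intro _; rw [add_zero]
        · intro s ih hs
          rw [← add_assoc] at hs ⊢
          rw [h.succ_le_iff] at hs
          have h1 := hm _ le_self_add hs
          have h2 := ih hs.le
          by_cases h3 : u + s ∈ S
          · rw [hgs _ (h1.2 h3), hPs _ h3, add_right_comm, h2]; ring
          · rw [hgn _ (fun h4 => h3 (h1.1 h4)), hPn _ h3, h2]
      have := key (w - u)
      rw [add_tsub_cancel_of_le huw] at this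
      exact this le_rfl
    have hkey : ∀ k, k ≤ j → g (r k) = ψ k := by
      refine h.ind_rl (p := fun k => k ≤ j → g (r k) = ψ k) ?_ ?_ ?_
      · exact (Rl.le (Fn.var 0) (Fn.const j)).imp (Rl.eq (Fn1.app hg hr) hψ)
      · intro _; rw [hr0, hg0, hsum.zero]
      · intro k ih hk
        rw [h.succ_le_iff] at hk
        have hgap : ∀ m, r k ≤ m → m < r (k + 1) → ∀ k', L (r k') ≤ m → m < r (k' + 1) →
            k' = k := by
          intro m h1 h2 k' h3 h4
          rcases lt_trichotomy k' k with h5 | h5 | h5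
          · exfalso
            exact absurd (lt_of_lt_of_le h4 (hrmono _ _ (h.succ_le_iff.mpr h5))) (not_lt.mpr h1)
          · exact h5
          · exfalso
            exact absurd (lt_of_lt_of_le h2 ((hrmono _ _ (h.succ_le_iff.mpr h5)).trans
              (hl k').1)) (not_lt.mpr h3)
        have h1 : g (L (r k)) = g (r k) := by
          apply gconst _ _ (hl k).1
          rintro m h2 h3 ⟨_, k', _, _, h5, h6⟩
          have h7 := hgap m h2 (h3.trans (hl k).2.1) k' h5 h6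
          rw [h7] at h5
          exact absurd h3 (not_lt.mpr h5)
        by_cases hpk : p k
        · have h2 := gseg (L (r k)) (r (k + 1)) (hl k).2.1.le (fun m h3 h4 =>
            ⟨fun h5 => h5.1, fun h5 => ⟨h5, k, hk, hpk, h3, h4⟩⟩)
          rw [hsum.yes k hpk, ← ih hk.le, ← h1]
          have h3 := (hl k).2.2.1
          rw [← add_tsub_assoc_of_le h3.le, ← h2, add_tsub_cancel_right]
        · have h2 : g (r (k + 1)) = g (L (r k)) := by
            apply gconst _ _ (hl k).2.1.le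
            rintro m h2 h3 ⟨_, k', _, h4, h5, h6⟩
            have h7 := hgap m ((hl k).1.trans h2) h3 k' h5 h6
            rw [h7] at h4
            exact hpk h4
          rw [h2, h1, hsum.no k hpk, ih hk.le]
    refine ⟨F, hFS, fun m hm => hm.1, ?_, r j, ?_, g, h.funIn_iff.mpr hg, hg0, ?_,
      (hkey j le_rfl).symm⟩
    · by_contra hne
      rw [Set.not_nonempty_iff_eq_empty] at hne
      apply hj
      rw [← hkey j le_rfl, gconst 0 (r j) (zero_le' _) (fun m _ _ hm => by rw [hne] at hm; exact hm),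
        hg0]
    · rintro y ⟨_, k, h1, _, _, h2⟩
      exact lt_of_lt_of_le h2 (hrmono _ _ (h.succ_le_iff.mpr h1))
    · intro n
      by_cases hn : n ∈ F
      · rw [hgs n hn, if_pos hn]
      · rw [hgn n hn, if_neg hn, add_zero]

end

end Pool.Agent.Thin
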