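import Pool.Agent.Thin.Defs

/-!
# The calculus of `Σ⁰₁` and `Δ⁰₁` relations and of functions in a model of `RCA₀`
-/

set_option autoImplicit false

namespace Pool.Agent.Thin

variable {R : Type} [CommRing R] [LinearOrder R] [IsStrictOrderedRing R]

@[simp] theorem cons_zero (a : NN R) (v : Env R) : cons a v 0 = a := rfl

@[simp] theorem cons_succ (a : NN R) (v : Env R) (n : ℕ) : cons a v (n + 1) = v n := rfl

@[simp] theorem tail_apply (v : Env R) (n : ℕ) : tail v n = v (n + 1) := rfl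

@[simp] theorem tail_cons (a : NN R) (v : Env R) : tail (cons a v) = v := rfl

@[simp] theorem cons_tail (v : Env R) : cons (v 0) (tail v) = v := by
  funext n; cases n <;> rfl

@[simp] theorem cons_one (a : NN R) (v : Env R) : cons a v 1 = v 0 := rfl

@[simp] theorem cons_two (a : NN R) (v : Env R) : cons a v 2 = v 1 := rfl

@[simp] theorem cons_three (a : NN R) (v : Env R) : cons a v 3 = v 2 := rfl

@[simp] theorem cons_four (a : NN R) (v : Env R) : cons a v 4 = v 3 := rfl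

/-! ### substitution -/

theorem Pol.subst {s : Env R → NN R} (hs : Pol s) {σ : Env R → Env R}
    (hσ : ∀ n, Pol (fun v => σ v n)) : Pol (fun v => s (σ v)) := by
  induction hs with
  | var n => exact hσ n
  | const c => exact Pol.const c
  | add _ _ h1 h2 => exact Pol.add h1 h2
  | mul _ _ h1 h2 => exact Pol.mul h1 h2

theorem Pol.tl {s : Env R → NN R} (hs : Pol s) : Pol (fun v => s (tail v)) :=
  hs.subst (fun n => Pol.var (n + 1))

theorem Bdd.congr {𝒮 : Set (Set (NN R))} {P Q : Env R → Prop} (hP : Bdd 𝒮 P)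
    (h : ∀ v, Q v ↔ P v) : Bdd 𝒮 Q := by
  have : Q = P := funext fun v => propext (h v)
  rw [this]; exact hP

theorem Bdd.subst {𝒮 : Set (Set (NN R))} {P : Env R → Prop} (hP : Bdd 𝒮 P) :
    ∀ {σ : Env R → Env R}, (∀ n, Pol (fun v => σ v n)) → Bdd 𝒮 (fun v => P (σ v)) := by
  induction hP with
  | eq hs ht => intro σ hσ; exact Bdd.eq (hs.subst hσ) (ht.subst hσ)
  | lt hs ht => intro σ hσ; exact Bdd.lt (hs.subst hσ) (ht.subst hσ)
  | mem ht hA => intro σ hσ; exact Bdd.mem (ht.subst hσ) hA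
  | not _ ih => intro σ hσ; exact Bdd.not (ih hσ)
  | and _ _ ih1 ih2 => intro σ hσ; exact Bdd.and (ih1 hσ) (ih2 hσ)
  | @ball t P ht _ ih =>
    intro σ hσ
    have h1 : Bdd 𝒮 (fun v => P (cons (v 0) (σ (tail v)))) := by
      apply ih (σ := fun v => cons (v 0) (σ (tail v)))
      intro n
      cases n with
      | zero => exact Pol.var 0
      | succ n => exact (hσ n).tl
    exact (Bdd.ball (ht.subst hσ) h1).congr (fun _ => by simp)

theorem Bdd.tl {𝒮 : Set (Set (NN R))} {P : Env R → Prop} (hP : Bdd 𝒮 P) :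
    Bdd 𝒮 (fun v => P (tail v)) :=
  hP.subst (fun n => Pol.var (n + 1))

section bool

variable {𝒮 : Set (Set (NN R))} {P Q : Env R → Prop}

theorem Bdd.or (hP : Bdd 𝒮 P) (hQ : Bdd 𝒮 Q) : Bdd 𝒮 (fun v => P v ∨ Q v) :=
  (hP.not.and hQ.not).not.congr (fun v => by tauto)

theorem Bdd.bex {t : Env R → NN R} (ht : Pol t) (hP : Bdd 𝒮 P) :
    Bdd 𝒮 (fun v => ∃ a : NN R, a < t v ∧ P (cons a v)) :=
  (Bdd.ball ht hP.not).not.congr (fun _ => by push Not; rfl)

theorem Bdd.le {s t : Env R → NN R} (hs : Pol s) (ht : Pol t) : Bdd 𝒮 (fun v => s v ≤ t v) :=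
  (Bdd.lt ht hs).not.congr (fun _ => not_lt.symm)

theorem Bdd.const (p : Prop) : Bdd 𝒮 (fun _ => p) := by
  by_cases h : p
  · exact (Bdd.eq (Pol.const 0) (Pol.const 0)).congr (fun v => by simp [h])
  · exact (Bdd.eq (Pol.const 0) (Pol.const 0)).not.congr (fun v => by simp [h])

end bool

/-! ### `Σ⁰₁` relations -/

/-- `Σ⁰₁` relations. -/
def Sg (𝒮 : Set (Set (NN R))) (P : Env R → Prop) : Prop :=
  ∃ Q : Env R → Prop, Bdd 𝒮 Q ∧ ∀ v, P v ↔ ∃ b, Q (cons b v)

/-- `Δ⁰₁` relations. -/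
def Rl (𝒮 : Set (Set (NN R))) (P : Env R → Prop) : Prop :=
  Sg 𝒮 P ∧ Sg 𝒮 (fun v => ¬ P v)

/-- Functions of the model. -/
def Fn (𝒮 : Set (Set (NN R))) (f : Env R → NN R) : Prop :=
  Rl 𝒮 (fun v => v 0 = f (tail v))

section sg

variable {𝒮 : Set (Set (NN R))} {P Q : Env R → Prop}

theorem Sg.congr (hP : Sg 𝒮 P) (h : ∀ v, Q v ↔ P v) : Sg 𝒮 Q := by
  have : Q = P := funext fun v => propext (h v)
  rw [this]; exact hP

theorem Rl.congr (hP : Rl 𝒮 P) (h : ∀ v, Q v ↔ P v) : Rl 𝒮 Q := by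
  have : Q = P := funext fun v => propext (h v)
  rw [this]; exact hP

theorem Bdd.sg (hP : Bdd 𝒮 P) : Sg 𝒮 P :=
  ⟨fun v => P (tail v), hP.tl, fun v => by simp⟩

theorem Bdd.rl (hP : Bdd 𝒮 P) : Rl 𝒮 P := ⟨hP.sg, hP.not.sg⟩

theorem Sg.subst (hP : Sg 𝒮 P) {σ : Env R → Env R} (hσ : ∀ n, Pol (fun v => σ v n)) :
    Sg 𝒮 (fun v => P (σ v)) := by
  obtain ⟨Q, hQ, h⟩ := hP
  refine ⟨fun v => Q (cons (v 0) (σ (tail v))), ?_, ?_⟩
  · apply hQ.subst (σ := fun v => cons (v 0) (σ (tail v)))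
    intro n
    cases n with
    | zero => exact Pol.var 0
    | succ n => exact (hσ n).tl
  · intro v
    beta_reduce
    rw [h]
    simp

theorem Sg.or (hP : Sg 𝒮 P) (hQ : Sg 𝒮 Q) : Sg 𝒮 (fun v => P v ∨ Q v) := by
  obtain ⟨P', hP', h1⟩ := hP
  obtain ⟨Q', hQ', h2⟩ := hQ
  exact ⟨fun v => P' v ∨ Q' v, hP'.or hQ', fun v => by beta_reduce; rw [h1, h2, exists_or]⟩

theorem le_add_self' (a b : NN R) : a ≤ b + a := by
  rw [← Subtype.coe_le_coe]; push_cast; linarith [b.2]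

theorem lt_succ (a : NN R) : a < a + 1 := by
  rw [← Subtype.coe_lt_coe]; push_cast; linarith

theorem lt_add_succ_left (a b : NN R) : a < a + b + 1 := by
  rw [← Subtype.coe_lt_coe]; push_cast; linarith [b.2]

theorem lt_add_succ_right (a b : NN R) : b < a + b + 1 := by
  rw [← Subtype.coe_lt_coe]; push_cast; linarith [a.2]

theorem Sg.and (hP : Sg 𝒮 P) (hQ : Sg 𝒮 Q) : Sg 𝒮 (fun v => P v ∧ Q v) := by
  obtain ⟨P', hP', h1⟩ := hP
  obtain ⟨Q', hQ', h2⟩ := hQ
  have hσ : ∀ n, Pol (fun v : Env R => cons (v 0) (tail (tail v)) n) := by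
    intro n
    cases n with
    | zero => exact Pol.var 0
    | succ n => exact Pol.var (n + 2)
  have e1 : Bdd 𝒮 (fun v => P' (cons (v 0) (tail (tail v)))) :=
    hP'.subst (σ := fun v : Env R => cons (v 0) (tail (tail v))) hσ
  have e2 : Bdd 𝒮 (fun v => Q' (cons (v 0) (tail (tail v)))) :=
    hQ'.subst (σ := fun v : Env R => cons (v 0) (tail (tail v))) hσ
  refine ⟨fun v => (∃ a : NN R, a < v 0 ∧ P' (cons a (tail v))) ∧
    (∃ a : NN R, a < v 0 ∧ Q' (cons a (tail v))), ?_, ?_⟩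
  · exact ((Bdd.bex (Pol.var 0) e1).congr (fun v => by simp)).and
      ((Bdd.bex (Pol.var 0) e2).congr (fun v => by simp))
  · intro v
    beta_reduce
    rw [h1, h2]
    constructor
    · rintro ⟨⟨a, ha⟩, ⟨b, hb⟩⟩
      exact ⟨a + b + 1, ⟨a, by simpa using lt_add_succ_left a b, by simpa using ha⟩,
        ⟨b, by simpa using lt_add_succ_right a b, by simpa using hb⟩⟩
    · rintro ⟨c, ⟨a, _, ha⟩, ⟨b, _, hb⟩⟩
      exact ⟨⟨a, by simpa using ha⟩, ⟨b, by simpa using hb⟩⟩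

theorem Sg.ex (hP : Sg 𝒮 P) : Sg 𝒮 (fun v => ∃ a, P (cons a v)) := by
  obtain ⟨Q, hQ, h⟩ := hP
  -- Q (cons b (cons a v)); new: w = cons c v, two bounded quantifiers
  have hσ : ∀ n, Pol (fun v : Env R => cons (v 0) (cons (v 1) (tail (tail (tail v)))) n) := by
    intro n
    rcases n with _ | _ | n
    · exact Pol.var 0
    · exact Pol.var 1
    · exact Pol.var (n + 3)
  have e1 : Bdd 𝒮 (fun v => Q (cons (v 0) (cons (v 1) (tail (tail (tail v)))))) :=
    hQ.subst (σ := fun v : Env R => cons (v 0) (cons (v 1) (tail (tail (tail v))))) hσ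
  refine ⟨fun v => ∃ a : NN R, a < v 0 ∧ ∃ b : NN R, b < v 0 ∧ Q (cons b (cons a (tail v))), ?_, ?_⟩
  · refine (Bdd.bex (Pol.var 0) (Bdd.bex (Pol.var 1) e1)).congr (fun v => by simp)
  · intro v
    constructor
    · rintro ⟨a, ha⟩
      rw [h] at ha
      obtain ⟨b, hb⟩ := ha
      exact ⟨a + b + 1, a, by simpa using lt_add_succ_left a b, b,
        by simpa using lt_add_succ_right a b, by simpa using hb⟩
    · rintro ⟨c, a, _, b, _, hb⟩
      refine ⟨a, ?_⟩
      rw [h]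
      exact ⟨b, by simpa using hb⟩

end sg

/-! ### order and collection -/

section model

variable {𝒮 : Set (Set (NN R))} (h : RCA0 𝒮)

include h

theorem RCA0.lt_succ_iff {a b : NN R} : a < b + 1 ↔ a ≤ b := by
  rw [← Subtype.coe_lt_coe, ← Subtype.coe_le_coe]
  push_cast
  constructor
  · intro hab
    by_contra hc
    have := h.disc ((a : R) - b) (by linarith)
    linarith
  · intro hab; linarith

theorem RCA0.succ_le_iff {a b : NN R} : a + 1 ≤ b ↔ a < b := by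
  rw [← Subtype.coe_lt_coe, ← Subtype.coe_le_coe]
  push_cast
  constructor
  · intro hab; linarith
  · intro hab
    have := h.disc ((b : R) - a) (by linarith)
    linarith

omit h in
theorem zero_le' (a : NN R) : 0 ≤ a := a.2

omit h in
theorem not_lt_zero' (a : NN R) : ¬ a < 0 := not_lt.mpr a.2

theorem RCA0.eq_zero_or {a : NN R} : a = 0 ∨ ∃ b, a = b + 1 := by
  rcases eq_or_lt_of_le (zero_le' a) with h0 | h0
  · exact Or.inl h0.symm
  · right
    have h1 : (0 : R) < a := h0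
    have := h.disc (a : R) h1
    exact ⟨⟨(a : R) - 1, by linarith⟩, Subtype.ext (by push_cast; ring)⟩

theorem Sg.ball {t : Env R → NN R} {P : Env R → Prop} (ht : Pol t) (hP : Sg 𝒮 P) :
    Sg 𝒮 (fun v => ∀ a : NN R, a < t v → P (cons a v)) := by
  obtain ⟨Q, hQ, hq⟩ := hP
  have hσ : ∀ n, Pol (fun v : Env R => cons (v 0) (cons (v 1) (tail (tail (tail v)))) n) := by
    intro n
    rcases n with _ | _ | n
    · exact Pol.var 0
    · exact Pol.var 1
    · exact Pol.var (n + 3)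
  have e1 : Bdd 𝒮 (fun v => Q (cons (v 0) (cons (v 1) (tail (tail (tail v)))))) :=
    hQ.subst (σ := fun v : Env R => cons (v 0) (cons (v 1) (tail (tail (tail v))))) hσ
  have hσ2 : ∀ n, Pol (fun v : Env R => cons (v 0) (cons (v 1) (tail (tail (tail (tail v))))) n) := by
    intro n
    rcases n with _ | _ | n
    · exact Pol.var 0
    · exact Pol.var 1
    · exact Pol.var (n + 4)
  have e2 : Bdd 𝒮 (fun v => Q (cons (v 0) (cons (v 1) (tail (tail (tail (tail v))))))) :=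
    hQ.subst (σ := fun v : Env R => cons (v 0) (cons (v 1) (tail (tail (tail (tail v)))))) hσ2
  refine ⟨fun v => ∀ a : NN R, a < t (tail v) → ∃ b : NN R, b < v 0 ∧ Q (cons b (cons a (tail v))),
    ?_, ?_⟩
  · exact (Bdd.ball ht.tl (Bdd.bex (Pol.var 1) e1)).congr (fun v => by simp)
  · intro v
    beta_reduce
    constructor
    · intro H
      have key := h.ind (fun w => ∀ a : NN R, a < w 1 → (a < t (tail (tail w)) →
        ∃ b : NN R, b < w 0 ∧ Q (cons b (cons a (tail (tail w)))))) ?_ v ?_ ?_ (t v)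
      · obtain ⟨c, hc⟩ := key
        refine ⟨c, ?_⟩
        intro a ha
        exact hc a (by simpa using ha) (by simpa using ha)
      · have e3 : Bdd 𝒮 (fun w => ¬ (w 0 < t (tail (tail (tail w)))) ∨
            ∃ b : NN R, b < w 1 ∧ Q (cons b (cons (w 0) (tail (tail (tail w)))))) := by
          refine (Bdd.lt (Pol.var 0) ht.tl.tl.tl).not.or ?_
          exact (Bdd.bex (Pol.var 1) e2).congr (fun v => by simp)
        refine (Bdd.ball (Pol.var 1) e3).congr (fun v => ?_)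
        simp only [cons_zero, tail_cons, cons_one]
        constructor
        · intro H a ha
          by_cases h1 : a < t (tail (tail v))
          · exact Or.inr (H a ha h1)
          · exact Or.inl h1
        · intro H a ha h1
          rcases H a ha with h2 | h2
          · exact absurd h1 h2
          · exact h2
      · refine ⟨0, ?_⟩
        intro a ha
        exact absurd ha (not_lt_zero' a)
      · rintro k ⟨c, hc⟩
        by_cases hk : k < t v
        · have h1 := H k hk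
          rw [hq] at h1
          obtain ⟨b, hb⟩ := h1
          refine ⟨c + b + 1, ?_⟩
          intro a ha h1
          simp only [cons_zero, cons_one, tail_cons] at ha h1 hc ⊢
          rw [h.lt_succ_iff] at ha
          rcases eq_or_lt_of_le ha with rfl | h2
          · exact ⟨b, lt_add_succ_right c b, hb⟩
          · obtain ⟨b', hb', hb''⟩ := hc a h2 h1
            exact ⟨b', hb'.trans (lt_add_succ_left c b), hb''⟩
        · refine ⟨c, ?_⟩
          intro a ha h1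
          simp only [cons_zero, cons_one, tail_cons] at ha h1 hc ⊢
          rw [h.lt_succ_iff] at ha
          exact hc a (lt_of_lt_of_le h1 (not_lt.mp hk)) h1
    · rintro ⟨c, hc⟩ a ha
      rw [hq]
      obtain ⟨b, _, hb⟩ := hc a (by simpa using ha)
      exact ⟨b, by simpa using hb⟩

end model

/-! ### the calculus of `Δ⁰₁` relations -/

section rl

variable {𝒮 : Set (Set (NN R))} {P Q : Env R → Prop}

theorem Rl.not (hP : Rl 𝒮 P) : Rl 𝒮 (fun v => ¬ P v) :=
  ⟨hP.2, hP.1.congr (fun _ => by simp)⟩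

theorem Rl.and (hP : Rl 𝒮 P) (hQ : Rl 𝒮 Q) : Rl 𝒮 (fun v => P v ∧ Q v) :=
  ⟨hP.1.and hQ.1, (hP.2.or hQ.2).congr (fun _ => by tauto)⟩

theorem Rl.or (hP : Rl 𝒮 P) (hQ : Rl 𝒮 Q) : Rl 𝒮 (fun v => P v ∨ Q v) :=
  ⟨hP.1.or hQ.1, (hP.2.and hQ.2).congr (fun _ => by tauto)⟩

theorem Rl.imp (hP : Rl 𝒮 P) (hQ : Rl 𝒮 Q) : Rl 𝒮 (fun v => P v → Q v) :=
  (hP.not.or hQ).congr (fun _ => by tauto)

theorem Rl.iff (hP : Rl 𝒮 P) (hQ : Rl 𝒮 Q) : Rl 𝒮 (fun v => P v ↔ Q v) :=
  ((hP.imp hQ).and (hQ.imp hP)).congr (fun _ => by tauto)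

theorem Rl.const (p : Prop) : Rl 𝒮 (fun _ => p) := (Bdd.const p).rl

theorem Rl.psubst (hP : Rl 𝒮 P) {σ : Env R → Env R} (hσ : ∀ n, Pol (fun v => σ v n)) :
    Rl 𝒮 (fun v => P (σ v)) :=
  ⟨hP.1.subst hσ, hP.2.subst hσ⟩

/-- substitute a function of the model for the first variable -/
theorem Rl.comp {f : Env R → NN R} (hP : Rl 𝒮 P) (hf : Fn 𝒮 f) :
    Rl 𝒮 (fun v => P (cons (f v) v)) := by
  constructor
  · refine (Sg.ex (hf.1.and hP.1)).congr (fun v => ?_)
    simp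
  · refine (Sg.ex (hf.1.and hP.2)).congr (fun v => ?_)
    simp

end rl

/-! ### functions of the model -/

section fn

variable {𝒮 : Set (Set (NN R))}

theorem Fn.psubst {f : Env R → NN R} (hf : Fn 𝒮 f) {σ : Env R → Env R}
    (hσ : ∀ n, Pol (fun v => σ v n)) : Fn 𝒮 (fun v => f (σ v)) := by
  refine (Rl.psubst hf (σ := fun v => cons (v 0) (σ (tail v))) ?_).congr (fun v => by simp)
  intro n
  cases n with
  | zero => exact Pol.var 0
  | succ n => exact (hσ n).tl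

theorem Fn.pol {t : Env R → NN R} (ht : Pol t) : Fn 𝒮 t := (Bdd.eq (Pol.var 0) ht.tl).rl

theorem Fn.var (n : ℕ) : Fn 𝒮 (fun v => v n) := Fn.pol (Pol.var n)

theorem Fn.const (c : NN R) : Fn 𝒮 (fun _ => c) := Fn.pol (Pol.const c)

theorem Fn.tl {f : Env R → NN R} (hf : Fn 𝒮 f) : Fn 𝒮 (fun v => f (tail v)) :=
  hf.psubst (fun n => Pol.var (n + 1))

theorem Rl.tl {P : Env R → Prop} (hP : Rl 𝒮 P) : Rl 𝒮 (fun v => P (tail v)) :=
  hP.psubst (fun n => Pol.var (n + 1))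

/-- substitute a function of the model for the first variable -/
theorem Fn.comp {f t : Env R → NN R} (hf : Fn 𝒮 f) (ht : Fn 𝒮 t) :
    Fn 𝒮 (fun v => f (cons (t v) v)) := by
  have h1 : Rl 𝒮 (fun w => w 1 = f (cons (w 0) (tail (tail w)))) := by
    refine (Rl.psubst hf (σ := fun w => cons (w 1) (cons (w 0) (tail (tail w)))) ?_).congr
      (fun v => by simp)
    intro n
    rcases n with _ | _ | n
    · exact Pol.var 1
    · exact Pol.var 0
    · exact Pol.var (n + 2)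
  exact (h1.comp ht.tl).congr (fun v => by simp)

theorem Fn.of_graph {f : Env R → NN R} {G : Env R → Prop} (hG : Sg 𝒮 G)
    (h : ∀ v z, G (cons z v) ↔ z = f v) : Fn 𝒮 f := by
  have h' : ∀ w : Env R, w 0 = f (tail w) ↔ G w := fun w => by
    rw [← h, cons_tail]
  constructor
  · exact hG.congr h'
  · have h1 : Sg 𝒮 (fun w : Env R => G (cons (w 0) (tail (tail w))) ∧ ¬ w 0 = w 1) := by
      refine Sg.and (hG.subst ?_) (Bdd.eq (Pol.var 0) (Pol.var 1)).not.sg
      intro n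
      cases n with
      | zero => exact Pol.var 0
      | succ n => exact Pol.var (n + 2)
    refine (Sg.ex h1).congr (fun v => ?_)
    simp only [cons_zero, tail_cons, cons_one, h]
    constructor
    · intro hv
      exact ⟨f (tail v), rfl, fun h => hv h.symm⟩
    · rintro ⟨z, rfl, hz⟩ hv
      exact hz hv.symm

theorem Fn.congr {f g : Env R → NN R} (hf : Fn 𝒮 f) (h : ∀ v, g v = f v) : Fn 𝒮 g := by
  have : g = f := funext h
  rw [this]; exact hf

/-- unary functions of the model -/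
def Fn1 (𝒮 : Set (Set (NN R))) (f : NN R → NN R) : Prop := Fn 𝒮 (fun v => f (v 0))

/-- binary functions of the model -/
def Fn2 (𝒮 : Set (Set (NN R))) (f : NN R → NN R → NN R) : Prop := Fn 𝒮 (fun v => f (v 0) (v 1))

/-- ternary functions of the model -/
def Fn3 (𝒮 : Set (Set (NN R))) (f : NN R → NN R → NN R → NN R) : Prop :=
  Fn 𝒮 (fun v => f (v 0) (v 1) (v 2))

/-- unary relations of the model -/
def Rl1 (𝒮 : Set (Set (NN R))) (p : NN R → Prop) : Prop := Rl 𝒮 (fun v => p (v 0))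

/-- binary relations of the model -/
def Rl2 (𝒮 : Set (Set (NN R))) (p : NN R → NN R → Prop) : Prop := Rl 𝒮 (fun v => p (v 0) (v 1))

/-- ternary relations of the model -/
def Rl3 (𝒮 : Set (Set (NN R))) (p : NN R → NN R → NN R → Prop) : Prop :=
  Rl 𝒮 (fun v => p (v 0) (v 1) (v 2))

theorem Fn1.app {f : NN R → NN R} {t : Env R → NN R} (hf : Fn1 𝒮 f) (ht : Fn 𝒮 t) :
    Fn 𝒮 (fun v => f (t v)) := (Fn.comp hf ht).congr (fun v => by simp)

theorem Fn2.app {f : NN R → NN R → NN R} {s t : Env R → NN R} (hf : Fn2 𝒮 f) (hs : Fn 𝒮 s)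
    (ht : Fn 𝒮 t) : Fn 𝒮 (fun v => f (s v) (t v)) :=
  ((Fn.comp hf hs.tl).comp ht).congr (fun v => by simp)

theorem Fn3.app {f : NN R → NN R → NN R → NN R} {r s t : Env R → NN R} (hf : Fn3 𝒮 f)
    (hr : Fn 𝒮 r) (hs : Fn 𝒮 s) (ht : Fn 𝒮 t) : Fn 𝒮 (fun v => f (r v) (s v) (t v)) :=
  (((Fn.comp hf hr.tl.tl).comp hs.tl).comp ht).congr (fun v => by simp)

theorem Rl1.app {p : NN R → Prop} {t : Env R → NN R} (hp : Rl1 𝒮 p) (ht : Fn 𝒮 t) :
    Rl 𝒮 (fun v => p (t v)) := (Rl.comp hp ht).congr (fun v => by simp)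

theorem Rl2.app {p : NN R → NN R → Prop} {s t : Env R → NN R} (hp : Rl2 𝒮 p) (hs : Fn 𝒮 s)
    (ht : Fn 𝒮 t) : Rl 𝒮 (fun v => p (s v) (t v)) :=
  ((Rl.comp hp hs.tl).comp ht).congr (fun v => by simp)

theorem Rl3.app {p : NN R → NN R → NN R → Prop} {r s t : Env R → NN R} (hp : Rl3 𝒮 p)
    (hr : Fn 𝒮 r) (hs : Fn 𝒮 s) (ht : Fn 𝒮 t) : Rl 𝒮 (fun v => p (r v) (s v) (t v)) :=
  (((Rl.comp hp hr.tl.tl).comp hs.tl).comp ht).congr (fun v => by simp)

variable {s t : Env R → NN R} {P Q : Env R → Prop}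

theorem Fn.add (hs : Fn 𝒮 s) (ht : Fn 𝒮 t) : Fn 𝒮 (fun v => s v + t v) :=
  Fn2.app (f := fun a b => a + b) (Fn.pol (Pol.add (Pol.var 0) (Pol.var 1))) hs ht

theorem Fn.mul (hs : Fn 𝒮 s) (ht : Fn 𝒮 t) : Fn 𝒮 (fun v => s v * t v) :=
  Fn2.app (f := fun a b => a * b) (Fn.pol (Pol.mul (Pol.var 0) (Pol.var 1))) hs ht

theorem Rl.eq (hs : Fn 𝒮 s) (ht : Fn 𝒮 t) : Rl 𝒮 (fun v => s v = t v) :=
  Rl2.app (p := fun a b => a = b) (Bdd.eq (Pol.var 0) (Pol.var 1)).rl hs ht

theorem Rl.lt (hs : Fn 𝒮 s) (ht : Fn 𝒮 t) : Rl 𝒮 (fun v => s v < t v) :=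
  Rl2.app (p := fun a b => a < b) (Bdd.lt (Pol.var 0) (Pol.var 1)).rl hs ht

theorem Rl.le (hs : Fn 𝒮 s) (ht : Fn 𝒮 t) : Rl 𝒮 (fun v => s v ≤ t v) :=
  Rl2.app (p := fun a b => a ≤ b) (Bdd.le (Pol.var 0) (Pol.var 1)).rl hs ht

theorem Rl.mem {A : Set (NN R)} (hA : A ∈ 𝒮) (ht : Fn 𝒮 t) : Rl 𝒮 (fun v => t v ∈ A) :=
  Rl1.app (p := fun a => a ∈ A) (Bdd.mem (Pol.var 0) hA).rl ht

theorem Fn.ite [∀ v, Decidable (P v)] (hP : Rl 𝒮 P) (hs : Fn 𝒮 s) (ht : Fn 𝒮 t) :
    Fn 𝒮 (fun v => if P v then s v else t v) := by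
  have h1 : Rl 𝒮 (fun w => (P (tail w) ∧ w 0 = s (tail w)) ∨ (¬ P (tail w) ∧ w 0 = t (tail w))) :=
    (hP.tl.and (Rl.eq (Fn.var 0) hs.tl)).or (hP.tl.not.and (Rl.eq (Fn.var 0) ht.tl))
  refine Fn.of_graph h1.1 (fun v z => ?_)
  by_cases h : P v <;> simp [h]

theorem Fn.sub (hs : Fn 𝒮 s) (ht : Fn 𝒮 t) : Fn 𝒮 (fun v => s v - t v) := by
  have h1 : Rl 𝒮 (fun w => (t (tail w) ≤ s (tail w) ∧ w 0 + t (tail w) = s (tail w)) ∨
      (s (tail w) < t (tail w) ∧ w 0 = 0)) :=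
    ((Rl.le ht.tl hs.tl).and (Rl.eq ((Fn.var 0).add ht.tl) hs.tl)).or
      ((Rl.lt hs.tl ht.tl).and (Rl.eq (Fn.var 0) (Fn.const 0)))
  refine Fn.of_graph h1.1 (fun v z => ?_)
  simp only [tail_cons, cons_zero]
  rcases le_or_gt (t v) (s v) with h | h
  · have h' : ¬ s v < t v := not_lt.mpr h
    simp only [h, h', true_and, false_and, or_false]
    constructor
    · intro h2; rw [← h2, add_tsub_cancel_right]
    · intro h2; rw [h2, tsub_add_cancel_of_le h]
  · have h' : ¬ t v ≤ s v := not_le.mpr h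
    simp only [h, h', true_and, false_and, false_or]
    rw [tsub_eq_zero_of_le h.le]

end fn

section ball

variable {𝒮 : Set (Set (NN R))} (h : RCA0 𝒮)

include h

theorem Rl.ball {t : Env R → NN R} {P : NN R → Env R → Prop} (ht : Fn 𝒮 t)
    (hP : Rl 𝒮 (fun v => P (v 0) (tail v))) : Rl 𝒮 (fun v => ∀ a : NN R, a < t v → P a v) := by
  have hP' : Rl 𝒮 (fun w => P (w 0) (tail (tail w))) := by
    refine (hP.psubst (σ := fun w => cons (w 0) (tail (tail w))) ?_).congr (fun v => by simp)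
    intro n
    cases n with
    | zero => exact Pol.var 0
    | succ n => exact Pol.var (n + 2)
  have h1 : Rl 𝒮 (fun w => ∀ a : NN R, a < w 0 → P a (tail w)) := by
    constructor
    · exact (Sg.ball h (Pol.var 0) hP'.1).congr (fun v => by simp)
    · have h2 : Sg 𝒮 (fun w => w 0 < w 1 ∧ ¬ P (w 0) (tail (tail w))) :=
        Sg.and (Bdd.lt (Pol.var 0) (Pol.var 1)).sg hP'.2
      refine (Sg.ex h2).congr (fun v => ?_)
      simp
  exact (h1.comp ht).congr (fun v => by simp)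

theorem Rl.bex {t : Env R → NN R} {P : NN R → Env R → Prop} (ht : Fn 𝒮 t)
    (hP : Rl 𝒮 (fun v => P (v 0) (tail v))) : Rl 𝒮 (fun v => ∃ a : NN R, a < t v ∧ P a v) :=
  (Rl.ball h ht (P := fun a v => ¬ P a v) hP.not).not.congr (fun _ => by push Not; rfl)

theorem Rl.ball_le {t : Env R → NN R} {P : NN R → Env R → Prop} (ht : Fn 𝒮 t)
    (hP : Rl 𝒮 (fun v => P (v 0) (tail v))) : Rl 𝒮 (fun v => ∀ a : NN R, a ≤ t v → P a v) :=
  (Rl.ball h (ht.add (Fn.const 1)) hP).congr (fun v => by simp only [h.lt_succ_iff])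

theorem Rl.bex_le {t : Env R → NN R} {P : NN R → Env R → Prop} (ht : Fn 𝒮 t)
    (hP : Rl 𝒮 (fun v => P (v 0) (tail v))) : Rl 𝒮 (fun v => ∃ a : NN R, a ≤ t v ∧ P a v) :=
  (Rl.bex h (ht.add (Fn.const 1)) hP).congr (fun v => by simp only [h.lt_succ_iff])

/-! ### induction, least elements and comprehension -/

theorem RCA0.ind_sg {p : NN R → Prop} (hp : Sg 𝒮 (fun v => p (v 0))) (h0 : p 0)
    (hs : ∀ n, p n → p (n + 1)) : ∀ n, p n := by
  obtain ⟨Q, hQ, hq⟩ := hp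
  have hq' : ∀ a, p a ↔ ∃ b, Q (cons b (cons a (fun _ => 0))) := fun a => by
    have := hq (cons a (fun _ => 0))
    simpa using this
  have := h.ind Q hQ (fun _ => 0) ((hq' 0).1 h0) (fun a ha => (hq' _).1 (hs a ((hq' a).2 ha)))
  exact fun n => (hq' n).2 (this n)

theorem RCA0.ind_rl {p : NN R → Prop} (hp : Rl1 𝒮 p) (h0 : p 0)
    (hs : ∀ n, p n → p (n + 1)) : ∀ n, p n := h.ind_sg hp.1 h0 hs

theorem RCA0.ind_pi {p : NN R → Prop} (hp : Sg 𝒮 (fun v => ¬ p (v 0))) (h0 : p 0)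
    (hs : ∀ n, p n → p (n + 1)) : ∀ n, p n := by
  intro a
  by_contra ha
  have key : ∀ k, k ≤ a → ¬ p (a - k) := by
    refine h.ind_sg (p := fun k => k ≤ a → ¬ p (a - k)) ?_ ?_ ?_
    · have h1 : Sg 𝒮 (fun v => ¬ p (a - v 0)) := by
        have h2 : Sg 𝒮 (fun w : Env R => w 0 = a - w 1 ∧ ¬ p (w 0)) :=
          Sg.and (Rl.eq (Fn.var 0) ((Fn.const a).sub (Fn.var 1))).1 hp
        exact (Sg.ex h2).congr (fun v => by simp)
      exact ((Rl.le (Fn.var 0) (Fn.const a)).not.1.or h1).congr (fun v => by tauto)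
    · intro _
      rwa [tsub_zero]
    · intro k hk hka hp2
      have hk' : k < a := by rwa [h.succ_le_iff] at hka
      apply hk hk'.le
      have h3 := hs _ hp2
      have h4 : a - (k + 1) + 1 = a - k := by
        rw [← tsub_tsub, tsub_add_cancel_of_le]
        rw [← zero_add (1 : NN R), h.succ_le_iff]
        exact tsub_pos_of_lt hk'
      rwa [h4] at h3
  have := key a le_rfl
  rw [tsub_self] at this
  exact this h0

theorem RCA0.least_sg {p : NN R → Prop} (hp : Sg 𝒮 (fun v => p (v 0))) (hex : ∃ n, p n) :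
    ∃ n, p n ∧ ∀ m, m < n → ¬ p m := by
  by_contra hcon
  push Not at hcon
  have key : ∀ n, ∀ m, m < n → ¬ p m := by
    refine h.ind_pi (p := fun n => ∀ m, m < n → ¬ p m) ?_ ?_ ?_
    · have h1 : Sg 𝒮 (fun w : Env R => w 0 < w 1 ∧ p (w 0)) :=
        Sg.and (Bdd.lt (Pol.var 0) (Pol.var 1)).sg hp
      refine (Sg.ex h1).congr (fun v => ?_)
      simp
    · intro m hm
      exact absurd hm (not_lt_zero' m)
    · intro n hn m hm
      rw [h.lt_succ_iff] at hm
      rcases eq_or_lt_of_le hm with rfl | hm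
      · intro hpm
        obtain ⟨k, hk, hpk⟩ := hcon m hpm
        exact hn k hk hpk
      · exact hn m hm
  obtain ⟨n, hn⟩ := hex
  exact key (n + 1) n (lt_succ n) hn

theorem RCA0.least {p : NN R → Prop} (hp : Rl1 𝒮 p) (hex : ∃ n, p n) :
    ∃ n, p n ∧ ∀ m, m < n → ¬ p m := h.least_sg hp.1 hex

theorem RCA0.comp_rl {p : NN R → Prop} (hp : Rl1 𝒮 p) : {n | p n} ∈ 𝒮 := by
  obtain ⟨⟨Q, hQ, hq⟩, ⟨Q', hQ', hq'⟩⟩ := hp
  have e1 : ∀ a, p a ↔ ∃ b, Q (cons b (cons a (fun _ => 0))) := fun a => by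
    have := hq (cons a (fun _ => 0))
    simpa using this
  have e2 : ∀ a, ¬ p a ↔ ∃ b, Q' (cons b (cons a (fun _ => 0))) := fun a => by
    have := hq' (cons a (fun _ => 0))
    simpa using this
  have := h.comp Q Q' hQ hQ' (fun _ => 0) (fun a => by rw [← e1, ← e2, not_not])
  have e3 : {n | p n} = {a | ∃ b, Q (cons b (cons a (fun _ => 0)))} := by
    ext a; exact e1 a
  rw [e3]; exact this

/-- minimisation -/
theorem RCA0.exists_min {p : NN R → NN R → Prop} (hp : Rl2 𝒮 p) (hex : ∀ x, ∃ y, p x y) :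
    ∃ f : NN R → NN R, Fn1 𝒮 f ∧ ∀ x, p x (f x) ∧ ∀ y, y < f x → ¬ p x y := by
  have h1 : ∀ x, ∃ y, p x y ∧ ∀ z, z < y → ¬ p x z := by
    intro x
    apply h.least
    · exact Rl2.app hp (Fn.const x) (Fn.var 0)
    · exact hex x
  choose f hf using h1
  refine ⟨f, ?_, hf⟩
  have h2 : Rl 𝒮 (fun w => p (w 1) (w 0) ∧ ∀ z, z < w 0 → ¬ p (w 1) z) := by
    refine (Rl2.app hp (Fn.var 1) (Fn.var 0)).and (Rl.ball h (Fn.var 0) (Rl.not ?_))
    exact Rl2.app hp (Fn.var 2) (Fn.var 0)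
  refine Fn.of_graph h2.1 (fun v z => ?_)
  simp only [cons_zero, cons_one]
  constructor
  · rintro ⟨h3, h4⟩
    rcases lt_trichotomy z (f (v 0)) with h5 | h5 | h5
    · exact absurd h3 ((hf _).2 z h5)
    · exact h5
    · exact absurd (hf _).1 (h4 _ h5)
  · rintro rfl
    exact hf _

end ball

/-! ### pairs -/

section pairs

variable {𝒮 : Set (Set (NN R))} (h : RCA0 𝒮)

include h

theorem RCA0.pr_inj {x y x' y' : NN R} (e : pr x y = pr x' y') : x = x' ∧ y = y' := by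
  have key : ∀ a b a' b' : NN R, pr a b = pr a' b' → ¬ a + b < a' + b' := by
    intro a b a' b' e hlt
    have e1 : ((a : R) + b) * (a + b) + a = (a' + b') * (a' + b') + a' := by
      have := congrArg Subtype.val e
      simpa [pr] using this
    rw [← h.succ_le_iff, ← Subtype.coe_le_coe] at hlt
    push_cast at hlt
    nlinarith [a.2, b.2, a'.2, b'.2]
  have h1 : x + y = x' + y' :=
    le_antisymm (not_lt.mp (key _ _ _ _ e.symm)) (not_lt.mp (key _ _ _ _ e))
  have h2 : x = x' := by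
    unfold pr at e
    rw [h1] at e
    exact add_left_cancel e
  refine ⟨h2, ?_⟩
  rw [h2] at h1
  exact add_left_cancel h1

omit h in
theorem pr_ge (x y : NN R) : x ≤ pr x y := by
  rw [← Subtype.coe_le_coe]
  simp only [pr]
  push_cast
  nlinarith [x.2, y.2, mul_nonneg (add_nonneg x.2 y.2) (add_nonneg x.2 y.2)]

theorem RCA0.pr_ge' (x y : NN R) : y ≤ pr x y := by
  rw [← Subtype.coe_le_coe]
  simp only [pr]
  push_cast
  rcases h.eq_zero_or (a := x + y) with h0 | ⟨b, hb⟩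
  · have h1 : (x : R) + y = 0 := by
      have := congrArg Subtype.val h0
      simpa using this
    nlinarith [x.2, y.2]
  · have h1 : (x : R) + y = b + 1 := by
      have := congrArg Subtype.val hb
      simpa using this
    rw [h1]
    nlinarith [x.2, y.2, b.2]

theorem RCA0.funIn_iff {f : NN R → NN R} : FunIn 𝒮 f ↔ Fn1 𝒮 f := by
  constructor
  · intro hf
    have h1 : Rl 𝒮 (fun w : Env R => pr (w 1) (w 0) ∈ {p | ∃ x, p = pr x (f x)}) := by
      refine Rl.mem hf ?_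
      exact (((Fn.var 1).add (Fn.var 0)).mul ((Fn.var 1).add (Fn.var 0))).add (Fn.var 1)
    refine Fn.of_graph h1.1 (fun v z => ?_)
    simp only [cons_zero, cons_one, Set.mem_ofPred_eq]
    constructor
    · rintro ⟨x, hx⟩
      obtain ⟨h2, h3⟩ := h.pr_inj hx
      rw [h3, h2]
    · rintro rfl
      exact ⟨_, rfl⟩
  · intro hf
    have h1 : Rl1 𝒮 (fun p => ∃ x, x ≤ p ∧ p = pr x (f x)) := by
      refine Rl.bex_le h (Fn.var 0) (Rl.eq (Fn.var 1) ?_)
      have h2 : Fn 𝒮 (fun v => f (v 0)) := hf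
      exact (((Fn.var 0).add h2).mul ((Fn.var 0).add h2)).add (Fn.var 0)
    have h2 := h.comp_rl h1
    have h3 : {p | ∃ x, p = pr x (f x)} = {p | ∃ x, x ≤ p ∧ p = pr x (f x)} := by
      ext p
      constructor
      · rintro ⟨x, rfl⟩; exact ⟨x, pr_ge _ _, rfl⟩
      · rintro ⟨x, _, rfl⟩; exact ⟨x, rfl⟩
    unfold FunIn
    rw [h3]; exact h2

end pairs

end Pool.Agent.Thin
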