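import Pool.Agent.Thin.Base

/-!
# Division, the beta function and primitive recursion in a model of `RCA₀`
-/

set_option autoImplicit false

namespace Pool.Agent.Thin

variable {R : Type} [CommRing R] [LinearOrder R] [IsStrictOrderedRing R]

/-! ### division with remainder -/

open Classical in
/-- the remainder -/
noncomputable def md (a m : NN R) : NN R :=
  if h : ∃ r, r < m ∧ ∃ q, a = q * m + r then h.choose else 0

open Classical in
/-- the quotient -/
noncomputable def dv (a m : NN R) : NN R :=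
  if h : ∃ q, ∃ r, r < m ∧ a = q * m + r then h.choose else 0

section div

variable {𝒮 : Set (Set (NN R))} (h : RCA0 𝒮)

include h

theorem RCA0.exists_div (a : NN R) {m : NN R} (hm : 0 < m) : ∃ r, r < m ∧ ∃ q, a = q * m + r := by
  have key : ∀ a, ∃ q, q ≤ a ∧ ∃ r, r < m ∧ a = q * m + r := by
    refine h.ind_rl (p := fun a => ∃ q, q ≤ a ∧ ∃ r, r < m ∧ a = q * m + r) ?_ ?_ ?_
    · exact Rl.bex_le h (Fn.var 0) (Rl.bex h (Fn.const m)
        (Rl.eq (Fn.var 2) (((Fn.var 1).mul (Fn.const m)).add (Fn.var 0))))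
    · exact ⟨0, le_rfl, 0, hm, by simp⟩
    · rintro n ⟨q, hq, r, hr, rfl⟩
      rw [← h.succ_le_iff] at hr
      rcases eq_or_lt_of_le hr with h1 | h1
      · refine ⟨q + 1, add_le_add_left hq 1, 0, hm, ?_⟩
        rw [add_assoc, h1]; ring
      · exact ⟨q, hq.trans (lt_succ _).le, r + 1, h1, by ring⟩
  obtain ⟨q, _, r, hr, e⟩ := key a
  exact ⟨r, hr, q, e⟩

theorem RCA0.div_unique {m q r q' r' : NN R} (hr : r < m) (hr' : r' < m)
    (e : q * m + r = q' * m + r') : q = q' ∧ r = r' := by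
  have key : ∀ q r q' r' : NN R, r < m → r' < m → q * m + r = q' * m + r' → ¬ q < q' := by
    intro q r q' r' hr hr' e hlt
    rw [← h.succ_le_iff, ← Subtype.coe_le_coe] at hlt
    rw [← Subtype.coe_lt_coe] at hr hr'
    have e1 : (q : R) * m + r = q' * m + r' := by
      have := congrArg Subtype.val e
      simpa using this
    push_cast at hlt
    nlinarith [m.2, r'.2]
  have h1 : q = q' :=
    le_antisymm (not_lt.mp (key _ _ _ _ hr' hr e.symm)) (not_lt.mp (key _ _ _ _ hr hr' e))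
  subst h1
  exact ⟨rfl, add_left_cancel e⟩

theorem RCA0.md_eq {a m q r : NN R} (hr : r < m) (e : a = q * m + r) : md a m = r := by
  have hex : ∃ r, r < m ∧ ∃ q, a = q * m + r := ⟨r, hr, q, e⟩
  unfold md
  rw [dif_pos hex]
  obtain ⟨h1, q', h2⟩ := hex.choose_spec
  exact (h.div_unique h1 hr (h2.symm.trans e)).2

theorem RCA0.dv_eq {a m q r : NN R} (hr : r < m) (e : a = q * m + r) : dv a m = q := by
  have hex : ∃ q, ∃ r, r < m ∧ a = q * m + r := ⟨q, r, hr, e⟩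
  unfold dv
  rw [dif_pos hex]
  obtain ⟨r', h1, h2⟩ := hex.choose_spec
  exact (h.div_unique h1 hr (h2.symm.trans e)).1

theorem RCA0.dv_md (a : NN R) {m : NN R} (hm : 0 < m) : md a m < m ∧ a = dv a m * m + md a m := by
  obtain ⟨r, hr, q, e⟩ := h.exists_div a hm
  rw [h.md_eq hr e, h.dv_eq hr e]
  exact ⟨hr, e⟩

omit h in
theorem md_zero (a : NN R) : md a 0 = 0 := by
  unfold md
  rw [dif_neg]
  rintro ⟨r, hr, _⟩
  exact not_lt_zero' _ hr

omit h in
theorem dv_zero (a : NN R) : dv a 0 = 0 := by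
  unfold dv
  rw [dif_neg]
  rintro ⟨q, r, hr, _⟩
  exact not_lt_zero' _ hr

omit h in
theorem pos_of_ne {a : NN R} (ha : a ≠ 0) : 0 < a := lt_of_le_of_ne (zero_le' a) (Ne.symm ha)

theorem RCA0.q_le {a m q r : NN R} (hr : r < m) (e : a = q * m + r) : q ≤ a := by
  have hm : (0 : NN R) + 1 ≤ m := by
    rw [h.succ_le_iff]; exact lt_of_le_of_lt (zero_le' r) hr
  rw [e, ← Subtype.coe_le_coe]
  rw [← Subtype.coe_le_coe] at hm
  push_cast at hm ⊢
  nlinarith [q.2, r.2]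

theorem RCA0.fn_md : Fn2 𝒮 md := by
  have h1 : Rl 𝒮 (fun w : Env R => (w 0 < w 2 ∧ ∃ q, q ≤ w 1 ∧ w 1 = q * w 2 + w 0) ∨
      (w 2 = 0 ∧ w 0 = 0)) := by
    refine ((Rl.lt (Fn.var 0) (Fn.var 2)).and (Rl.bex_le h (Fn.var 1) ?_)).or
      ((Rl.eq (Fn.var 2) (Fn.const 0)).and (Rl.eq (Fn.var 0) (Fn.const 0)))
    exact Rl.eq (Fn.var 2) (((Fn.var 0).mul (Fn.var 3)).add (Fn.var 1))
  refine Fn.of_graph h1.1 (fun v z => ?_)
  simp only [cons_zero, cons_one, cons_two]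
  constructor
  · rintro (⟨h2, q, _, h3⟩ | ⟨h2, h3⟩)
    · exact (h.md_eq h2 h3).symm
    · rw [h2, md_zero, h3]
  · rintro rfl
    by_cases hm : v 1 = 0
    · right; rw [hm]; exact ⟨rfl, md_zero _⟩
    · left
      obtain ⟨h2, h3⟩ := h.dv_md (v 0) (pos_of_ne hm)
      exact ⟨h2, _, h.q_le h2 h3, h3⟩

theorem RCA0.fn_dv : Fn2 𝒮 dv := by
  have h1 : Rl 𝒮 (fun w : Env R => (∃ r, r < w 2 ∧ w 1 = w 0 * w 2 + r) ∨
      (w 2 = 0 ∧ w 0 = 0)) := by
    refine ((Rl.bex h (Fn.var 2) ?_)).or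
      ((Rl.eq (Fn.var 2) (Fn.const 0)).and (Rl.eq (Fn.var 0) (Fn.const 0)))
    exact Rl.eq (Fn.var 2) (((Fn.var 1).mul (Fn.var 3)).add (Fn.var 0))
  refine Fn.of_graph h1.1 (fun v z => ?_)
  simp only [cons_zero, cons_one, cons_two]
  constructor
  · rintro (⟨r, h2, h3⟩ | ⟨h2, h3⟩)
    · exact (h.dv_eq h2 h3).symm
    · rw [h2, dv_zero, h3]
  · rintro rfl
    by_cases hm : v 1 = 0
    · right; rw [hm]; exact ⟨rfl, dv_zero _⟩
    · left
      obtain ⟨h2, h3⟩ := h.dv_md (v 0) (pos_of_ne hm)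
      exact ⟨_, h2, h3⟩

/-! ### the beta lemma -/

omit h in
/-- the beta function -/
noncomputable def bt (a B i : NN R) : NN R := md a (1 + (i + 1) * B)

theorem RCA0.fn_bt : Fn3 𝒮 bt :=
  Fn2.app h.fn_md (Fn.var 0) ((Fn.const 1).add (((Fn.var 2).add (Fn.const 1)).mul (Fn.var 1)))

theorem RCA0.exists_bound {f : NN R → NN R} (hf : Fn1 𝒮 f) (n : NN R) :
    ∃ c, ∀ i, i < n → f i < c := by
  revert n
  refine h.ind_sg (p := fun n => ∃ c, ∀ i, i < n → f i < c) ?_ ?_ ?_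
  · have h1 : Rl 𝒮 (fun w : Env R => ∀ i, i < w 1 → f i < w 0) :=
      Rl.ball h (Fn.var 1) (Rl.lt (Fn1.app hf (Fn.var 0)) (Fn.var 1))
    exact (Sg.ex h1.1).congr (fun v => by simp)
  · exact ⟨0, fun i hi => absurd hi (not_lt_zero' i)⟩
  · rintro n ⟨c, hc⟩
    refine ⟨c + f n + 1, fun i hi => ?_⟩
    rw [h.lt_succ_iff] at hi
    rcases eq_or_lt_of_le hi with rfl | hi
    · exact lt_add_succ_right _ _
    · exact (hc i hi).trans (lt_add_succ_left _ _)

theorem RCA0.exists_mult (n : NN R) :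
    ∃ B, 0 < B ∧ ∀ i, i < n → ∃ d, d ≤ B ∧ B = (i + 1) * d := by
  revert n
  refine h.ind_sg (p := fun n => ∃ B, 0 < B ∧ ∀ i, i < n → ∃ d, d ≤ B ∧ B = (i + 1) * d) ?_ ?_ ?_
  · have h1 : Rl 𝒮 (fun w : Env R => 0 < w 0 ∧ ∀ i, i < w 1 → ∃ d, d ≤ w 0 ∧ w 0 = (i + 1) * d) :=
      (Rl.lt (Fn.const 0) (Fn.var 0)).and (Rl.ball h (Fn.var 1) (Rl.bex_le h (Fn.var 1)
        (Rl.eq (Fn.var 2) (((Fn.var 1).add (Fn.const 1)).mul (Fn.var 0)))))
    exact (Sg.ex h1.1).congr (fun v => by simp)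
  · exact ⟨1, zero_lt_one, fun i hi => absurd hi (not_lt_zero' i)⟩
  · rintro n ⟨B, hB, hd⟩
    have hn : 0 < n + 1 := lt_of_le_of_lt (zero_le' n) (lt_succ n)
    refine ⟨(n + 1) * B, mul_pos hn hB, fun i hi => ?_⟩
    rw [h.lt_succ_iff] at hi
    have hle : ∀ d, d ≤ B → d ≤ (n + 1) * B := by
      intro d hd
      refine hd.trans ?_
      rw [← Subtype.coe_le_coe]
      push_cast
      nlinarith [n.2, B.2, mul_nonneg n.2 B.2]
    rcases eq_or_lt_of_le hi with rfl | hi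
    · exact ⟨B, hle B le_rfl, rfl⟩
    · obtain ⟨d, h1, h2⟩ := hd i hi
      refine ⟨(n + 1) * d, mul_le_mul_of_nonneg_left h1 (zero_le' _), ?_⟩
      rw [h2]; ring

theorem RCA0.bezout {K J δ d B : NN R} (hJ : J = K + δ) (hB : B = δ * d) (hB0 : 0 < B)
    (hJ0 : 0 < J) : ∃ g g', (1 + K * B) * g = 1 + (1 + J * B) * g' := by
  have hpos : 0 < J * B := mul_pos hJ0 hB0
  rcases h.eq_zero_or (a := J * B) with h0 | ⟨c, hc⟩
  · rw [h0] at hpos; exact absurd hpos (lt_irrefl _)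
  · refine ⟨J * B * d * (J * J), c + J * B * (d * (K * J)), ?_⟩
    apply Subtype.ext
    have e1 : (J : R) * B = c + 1 := by
      have := congrArg Subtype.val hc
      simpa using this
    have e2 : (J : R) = K + δ := by
      have := congrArg Subtype.val hJ
      simpa using this
    have e3 : (B : R) = δ * d := by
      have := congrArg Subtype.val hB
      simpa using this
    push_cast
    have e4 : (c : R) = J * B - 1 := by rw [e1]; ring
    rw [e4]
    have e5 : (B : R) * d * (J - K) = B * B := by rw [e2, e3]; ring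
    linear_combination (J : R) * J * e5

/-- the modulus -/
theorem RCA0.crt {f : NN R → NN R} (hf : Fn1 𝒮 f) (n B : NN R) (hB0 : 0 < B)
    (hB : ∀ i, i < n → ∃ d, d ≤ B ∧ B = (i + 1) * d) (hfB : ∀ i, i < n → f i ≤ B) :
    ∃ a, ∀ i, i < n → bt a B i = f i := by
  have hlt : ∀ i, i < n → f i < 1 + (i + 1) * B := by
    intro i hi
    refine lt_of_le_of_lt (hfB i hi) ?_
    rw [← Subtype.coe_lt_coe]
    push_cast
    nlinarith [i.2, B.2, mul_nonneg i.2 B.2]
  have key : ∀ k, k ≤ n → ∃ a L, (∀ i, i < k → ∃ q, q ≤ L ∧ L = q * (1 + (i + 1) * B)) ∧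
      (∀ i, i < k → bt a B i = f i) ∧
      (∀ j, j < n → k ≤ j → ∃ c e, L * c = 1 + (1 + (j + 1) * B) * e) := by
    refine h.ind_sg (p := fun k => k ≤ n → ∃ a L,
      (∀ i, i < k → ∃ q, q ≤ L ∧ L = q * (1 + (i + 1) * B)) ∧
      (∀ i, i < k → bt a B i = f i) ∧
      (∀ j, j < n → k ≤ j → ∃ c e, L * c = 1 + (1 + (j + 1) * B) * e)) ?_ ?_ ?_
    · -- definability
      have h1 : Rl 𝒮 (fun w : Env R =>
          (∀ i, i < w 2 → ∃ q, q ≤ w 0 ∧ w 0 = q * (1 + (i + 1) * B))) :=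
        Rl.ball h (Fn.var 2) (Rl.bex_le h (Fn.var 1) (Rl.eq (Fn.var 2)
          ((Fn.var 0).mul ((Fn.const 1).add (((Fn.var 1).add (Fn.const 1)).mul (Fn.const B))))))
      have h2 : Rl 𝒮 (fun w : Env R => (∀ i, i < w 2 → bt (w 1) B i = f i)) :=
        Rl.ball h (Fn.var 2) (Rl.eq (Fn3.app h.fn_bt (Fn.var 2) (Fn.const B) (Fn.var 0))
          (Fn1.app hf (Fn.var 0)))
      have h3 : Sg 𝒮 (fun w : Env R => (∀ j, j < n → (w 2 ≤ j →
          ∃ c e, w 0 * c = 1 + (1 + (j + 1) * B) * e))) := by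
        have h4 : Rl 𝒮 (fun x : Env R => x 3 * x 1 = 1 + (1 + (x 2 + 1) * B) * x 0) :=
          Rl.eq ((Fn.var 3).mul (Fn.var 1)) ((Fn.const 1).add (((Fn.const 1).add
            (((Fn.var 2).add (Fn.const 1)).mul (Fn.const B))).mul (Fn.var 0)))
        have h5 := (Rl.le (𝒮 := 𝒮) (Fn.var 3) (Fn.var 0)).not.1.or (Sg.ex (Sg.ex h4.1))
        refine (Sg.ball h (Pol.const n) h5).congr (fun v => ?_)
        simp only [cons_zero, cons_one, cons_two, cons_three, imp_iff_not_or]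
      have h5 := Sg.ex (Sg.ex ((h1.1.and (h2.1.and h3))))
      refine ((Rl.le (Fn.var 0) (Fn.const n)).not.1.or h5).congr (fun v => ?_)
      simp only [cons_zero, cons_one, cons_two]
      rw [imp_iff_not_or]
    · intro _
      refine ⟨0, 1, fun i hi => absurd hi (not_lt_zero' i), fun i hi => absurd hi (not_lt_zero' i),
        fun j _ _ => ⟨1, 0, by simp⟩⟩
    · intro k ih hk
      have hk' : k < n := by rwa [h.succ_le_iff] at hk
      obtain ⟨a, L, h1, h2, h3⟩ := ih hk'.le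
      obtain ⟨c, e, hce⟩ := h3 k hk' le_rfl
      refine ⟨a + L * c * (f k + (k + 1) * B * a), L * (1 + (k + 1) * B), ?_, ?_, ?_⟩
      · intro i hi
        rw [h.lt_succ_iff] at hi
        rcases eq_or_lt_of_le hi with rfl | hi
        · refine ⟨L, ?_, rfl⟩
          rw [← Subtype.coe_le_coe]
          push_cast
          nlinarith [L.2, B.2, i.2, mul_nonneg (mul_nonneg (add_nonneg i.2 zero_le_one) B.2) L.2]
        · obtain ⟨q, hq, hq'⟩ := h1 i hi
          refine ⟨q * (1 + (k + 1) * B), mul_le_mul_of_nonneg_right hq (zero_le' _), ?_⟩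
          nth_rewrite 1 [hq']
          ring
      · intro i hi
        rw [h.lt_succ_iff] at hi
        rcases eq_or_lt_of_le hi with rfl | hi
        · apply h.md_eq (q := a + e * (f i + (i + 1) * B * a)) (hlt i hk')
          rw [hce]; ring
        · obtain ⟨q, hq, hq'⟩ := h1 i hi
          have hpos : (0 : NN R) < 1 + (i + 1) * B := by
            rw [← Subtype.coe_lt_coe]
            push_cast
            nlinarith [i.2, B.2, mul_nonneg i.2 B.2]
          obtain ⟨h4, h5⟩ := h.dv_md a hpos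
          have h6 : md a (1 + (i + 1) * B) = f i := h2 i hi
          rw [h6] at h4 h5
          apply h.md_eq (q := dv a (1 + (i + 1) * B) + q * c * (f k + (k + 1) * B * a)) h4
          nth_rewrite 1 [h5, hq']
          ring
      · intro j hj hkj
        have hkj' : k < j := by rwa [h.succ_le_iff] at hkj
        obtain ⟨c1, e1, h4⟩ := h3 j hj hkj'.le
        -- j = k + 1 + s
        obtain ⟨s, hs⟩ : ∃ s, j = k + 1 + s := ⟨j - (k + 1), (add_tsub_cancel_of_le hkj).symm⟩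
        have hsn : s < n := by
          refine lt_of_le_of_lt ?_ hj
          rw [hs]; exact le_add_self' _ _
        obtain ⟨d, _, hd⟩ := hB s hsn
        obtain ⟨g, g', hg⟩ := h.bezout (K := k + 1) (J := j + 1) (δ := s + 1) (d := d) (B := B)
          (by rw [hs]; ring) hd hB0 (lt_of_le_of_lt (zero_le' j) (lt_succ j))
        refine ⟨c1 * g, e1 + g' + (1 + (j + 1) * B) * e1 * g', ?_⟩
        calc L * (1 + (k + 1) * B) * (c1 * g) = (L * c1) * ((1 + (k + 1) * B) * g) := by ring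
          _ = _ := by rw [h4, hg]; ring
  obtain ⟨a, L, _, h2, _⟩ := key n le_rfl
  exact ⟨a, h2⟩

/-- every function of the model is coded on every initial segment -/
theorem RCA0.beta {f : NN R → NN R} (hf : Fn1 𝒮 f) (n : NN R) :
    ∃ a B, ∀ i, i < n → bt a B i = f i := by
  obtain ⟨c, hc⟩ := h.exists_bound hf n
  obtain ⟨B, hB, hd⟩ := h.exists_mult n
  have hc0 : (0 : NN R) < c + 1 := lt_of_le_of_lt (zero_le' c) (lt_succ c)
  obtain ⟨a, ha⟩ := h.crt hf n ((c + 1) * B) (mul_pos hc0 hB) (fun i hi => by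
    obtain ⟨d, h1, h2⟩ := hd i hi
    refine ⟨(c + 1) * d, mul_le_mul_of_nonneg_left h1 (zero_le' _), ?_⟩
    rw [h2]; ring) (fun i hi => by
    refine (hc i hi).le.trans ?_
    have h1 : (0 : NN R) + 1 ≤ B := by rw [h.succ_le_iff]; exact hB
    rw [← Subtype.coe_le_coe] at h1 ⊢
    push_cast at h1 ⊢
    nlinarith [c.2, B.2])
  exact ⟨a, (c + 1) * B, ha⟩

/-- primitive recursion with one parameter -/
theorem RCA0.prec1 {A : NN R → NN R} {F : NN R → NN R → NN R → NN R} (hA : Fn1 𝒮 A)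
    (hF : Fn3 𝒮 F) : ∃ f : NN R → NN R → NN R, Fn2 𝒮 f ∧
      (∀ p, f p 0 = A p) ∧ ∀ p n, f p (n + 1) = F p n (f p n) := by
  have hT : Rl 𝒮 (fun w : Env R => bt (w 1) (w 0) 0 = A (w 3) ∧
      ∀ i, i < w 2 → bt (w 1) (w 0) (i + 1) = F (w 3) i (bt (w 1) (w 0) i)) := by
    refine (Rl.eq (Fn3.app h.fn_bt (Fn.var 1) (Fn.var 0) (Fn.const 0))
      (Fn1.app hA (Fn.var 3))).and (Rl.ball h (Fn.var 2) (Rl.eq ?_ ?_))
    · exact Fn3.app h.fn_bt (Fn.var 2) (Fn.var 1) ((Fn.var 0).add (Fn.const 1))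
    · exact Fn3.app hF (Fn.var 4) (Fn.var 0) (Fn3.app h.fn_bt (Fn.var 2) (Fn.var 1) (Fn.var 0))
  have hex : ∀ p n, ∃ a B, bt a B 0 = A p ∧
      ∀ i, i < n → bt a B (i + 1) = F p i (bt a B i) := by
    intro p
    refine h.ind_sg (p := fun n => ∃ a B, bt a B 0 = A p ∧
      ∀ i, i < n → bt a B (i + 1) = F p i (bt a B i)) ?_ ?_ ?_
    · have hT' : Rl 𝒮 (fun w : Env R => bt (w 1) (w 0) 0 = A p ∧
          ∀ i, i < w 2 → bt (w 1) (w 0) (i + 1) = F p i (bt (w 1) (w 0) i)) := by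
        refine (Rl.eq (Fn3.app h.fn_bt (Fn.var 1) (Fn.var 0) (Fn.const 0))
          (Fn.const _)).and (Rl.ball h (Fn.var 2) (Rl.eq ?_ ?_))
        · exact Fn3.app h.fn_bt (Fn.var 2) (Fn.var 1) ((Fn.var 0).add (Fn.const 1))
        · exact Fn3.app hF (Fn.const p) (Fn.var 0)
            (Fn3.app h.fn_bt (Fn.var 2) (Fn.var 1) (Fn.var 0))
      exact (Sg.ex (Sg.ex hT'.1)).congr (fun v => by simp)
    · obtain ⟨a, B, hab⟩ := h.beta (f := fun _ => A p) (Fn.const _) 1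
      exact ⟨a, B, hab 0 zero_lt_one, fun i hi => absurd hi (not_lt_zero' i)⟩
    · rintro n ⟨a, B, h1, h2⟩
      classical
      have hg : Fn1 𝒮 (fun i => if i ≤ n then bt a B i else F p n (bt a B n)) :=
        Fn.ite (Rl.le (Fn.var 0) (Fn.const n))
          (Fn3.app h.fn_bt (Fn.const a) (Fn.const B) (Fn.var 0)) (Fn.const _)
      obtain ⟨a', B', hab⟩ := h.beta hg (n + 1 + 1)
      refine ⟨a', B', ?_, ?_⟩
      · rw [hab 0 (lt_of_le_of_lt (zero_le' _) (lt_succ _)), if_pos (zero_le' _), h1]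
      · intro i hi
        rw [h.lt_succ_iff] at hi
        have h3 : i < n + 1 + 1 := lt_of_le_of_lt hi ((lt_succ n).trans (lt_succ _))
        have h4 : i + 1 < n + 1 + 1 := by
          rw [h.lt_succ_iff]; exact add_le_add_left hi 1
        rw [hab _ h3, hab _ h4, if_pos hi]
        rcases eq_or_lt_of_le hi with rfl | hi
        · rw [if_neg (not_le.mpr (lt_succ i))]
        · rw [if_pos (h.succ_le_iff.mpr hi), h2 i hi]
  have huniq : ∀ p n a B a' B',
      (bt a B 0 = A p ∧ ∀ i, i < n → bt a B (i + 1) = F p i (bt a B i)) →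
      (bt a' B' 0 = A p ∧ ∀ i, i < n → bt a' B' (i + 1) = F p i (bt a' B' i)) →
      ∀ i, i ≤ n → bt a B i = bt a' B' i := by
    rintro p n a B a' B' ⟨h1, h2⟩ ⟨h3, h4⟩
    refine h.ind_rl (p := fun i => i ≤ n → bt a B i = bt a' B' i) ?_ ?_ ?_
    · exact (Rl.le (Fn.var 0) (Fn.const n)).imp
        (Rl.eq (Fn3.app h.fn_bt (Fn.const a) (Fn.const B) (Fn.var 0))
        (Fn3.app h.fn_bt (Fn.const a') (Fn.const B') (Fn.var 0)))
    · intro _; rw [h1, h3]
    · intro i ih hi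
      have hi' : i < n := by rwa [h.succ_le_iff] at hi
      rw [h2 i hi', h4 i hi', ih hi'.le]
  choose a B hab using hex
  refine ⟨fun p n => bt (a p n) (B p n) n, ?_, ?_, ?_⟩
  · have h1 : Rl 𝒮 (fun w : Env R => (bt (w 1) (w 0) 0 = A (w 3) ∧
        ∀ i, i < w 4 → bt (w 1) (w 0) (i + 1) = F (w 3) i (bt (w 1) (w 0) i)) ∧
        w 2 = bt (w 1) (w 0) (w 4)) := by
      refine Rl.and ?_ (Rl.eq (Fn.var 2) (Fn3.app h.fn_bt (Fn.var 1) (Fn.var 0) (Fn.var 4)))
      refine (Rl.eq (Fn3.app h.fn_bt (Fn.var 1) (Fn.var 0) (Fn.const 0))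
        (Fn1.app hA (Fn.var 3))).and (Rl.ball h (Fn.var 4) (Rl.eq ?_ ?_))
      · exact Fn3.app h.fn_bt (Fn.var 2) (Fn.var 1) ((Fn.var 0).add (Fn.const 1))
      · exact Fn3.app hF (Fn.var 4) (Fn.var 0) (Fn3.app h.fn_bt (Fn.var 2) (Fn.var 1) (Fn.var 0))
    refine Fn.of_graph (Sg.ex (Sg.ex h1.1)) (fun v z => ?_)
    simp only [cons_zero, cons_one, cons_two, cons_three, cons_four]
    constructor
    · rintro ⟨a', B', h2, h3⟩
      rw [h3]
      exact huniq _ _ _ _ _ _ h2 (hab _ _) _ le_rfl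
    · rintro rfl
      exact ⟨_, _, hab _ _, rfl⟩
  · intro p
    exact (hab p 0).1
  · intro p n
    have h1 := (hab p (n + 1)).2 n (lt_succ n)
    have h2 := huniq p n (a p n) (B p n) (a p (n + 1)) (B p (n + 1)) (hab p n)
      ⟨(hab p (n + 1)).1, fun i hi => (hab p (n + 1)).2 i (hi.trans (lt_succ n))⟩ n le_rfl
    beta_reduce
    rw [h1, h2]

/-- primitive recursion -/
theorem RCA0.prec {a : NN R} {F : NN R → NN R → NN R} (hF : Fn2 𝒮 F) :
    ∃ f : NN R → NN R, Fn1 𝒮 f ∧ f 0 = a ∧ ∀ n, f (n + 1) = F n (f n) := by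
  obtain ⟨f, h1, h2, h3⟩ := h.prec1 (A := fun _ => a) (F := fun _ n y => F n y) (Fn.const a)
    (Fn2.app hF (Fn.var 1) (Fn.var 2))
  exact ⟨f 0, Fn2.app h1 (Fn.const 0) (Fn.var 0), h2 0, h3 0⟩

end div

end Pool.Agent.Thin
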