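import Pool.Agent.Thin.CutArg

/-!
# Powers of two, binary digits, counting and the pigeonhole principle
-/

set_option autoImplicit false

namespace Pool.Agent.Thin

variable {R : Type} [CommRing R] [LinearOrder R] [IsStrictOrderedRing R]

/-- `e` is the exponential function with base two -/
structure IsExp (e : NN R → NN R) : Prop where
  zero : e 0 = 1
  succ : ∀ n, e (n + 1) = e n + e n

/-- the binary digit of `x` at the place `n` is one -/
def bit (e : NN R → NN R) (n x : NN R) : Prop := ¬ Ev (dv x (e n))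

section

variable {𝒮 : Set (Set (NN R))} (h : RCA0 𝒮)

include h

theorem RCA0.exists_exp : ∃ e : NN R → NN R, Fn1 𝒮 e ∧ IsExp e := by
  obtain ⟨e, h1, h2, h3⟩ := h.prec (a := 1) (F := fun _ y => y + y) ((Fn.var 1).add (Fn.var 1))
  exact ⟨e, h1, h2, h3⟩

variable {e : NN R → NN R} (he : Fn1 𝒮 e) (hE : IsExp e)

theorem RCA0.rl_bit (he : Fn1 𝒮 e) : Rl2 𝒮 (bit e) :=
  (Rl1.app h.rl_ev (Fn2.app h.fn_dv (Fn.var 1) (Fn1.app he (Fn.var 0)))).not

include he hE

theorem RCA0.exp_add (m s : NN R) : e (m + s) = e m * e s := by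
  revert s
  refine h.ind_rl (p := fun s => e (m + s) = e m * e s) ?_ ?_ ?_
  · exact Rl.eq (Fn1.app he ((Fn.const m).add (Fn.var 0))) ((Fn.const _).mul he)
  · rw [add_zero, hE.zero, mul_one]
  · intro s hs
    rw [← add_assoc, hE.succ, hE.succ, hs]; ring

theorem RCA0.exp_pos (n : NN R) : 0 < e n := by
  revert n
  refine h.ind_rl (p := fun n => 0 < e n) (Rl.lt (Fn.const 0) he) ?_ ?_
  · rw [hE.zero]; exact zero_lt_one
  · intro n hn
    rw [hE.succ]; exact add_pos hn hn

theorem RCA0.lt_exp (n : NN R) : n < e n := by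
  revert n
  refine h.ind_rl (p := fun n => n < e n) (Rl.lt (Fn.var 0) he) ?_ ?_
  · rw [hE.zero]; exact zero_lt_one
  · intro n hn
    rw [hE.succ]
    rw [← h.succ_le_iff] at hn
    exact lt_of_le_of_lt hn (by
      have := h.exp_pos he hE n
      exact lt_add_of_pos_right _ this)

theorem RCA0.exp_mono {m n : NN R} (hmn : m ≤ n) : e m ≤ e n := by
  obtain ⟨s, rfl⟩ : ∃ s, n = m + s := ⟨n - m, (add_tsub_cancel_of_le hmn).symm⟩
  rw [h.exp_add he hE]
  have h1 : (0 : NN R) + 1 ≤ e s := by rw [h.succ_le_iff]; exact h.exp_pos he hE s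
  have := mul_le_mul_of_nonneg_left h1 (zero_le' (e m))
  rwa [zero_add, mul_one] at this

theorem RCA0.exp_lt_iff {m n : NN R} : e m < e n ↔ m < n := by
  constructor
  · intro h1
    by_contra hc
    exact absurd (h.exp_mono he hE (not_lt.mp hc)) (not_le.mpr h1)
  · intro h1
    have h2 := h.exp_mono he hE (h.succ_le_iff.mpr h1)
    rw [hE.succ] at h2
    exact lt_of_lt_of_le (lt_add_of_pos_right _ (h.exp_pos he hE m)) h2

omit h he hE in
theorem ev_add_double {q k : NN R} : Ev (q + (k + k)) ↔ Ev q := by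
  constructor
  · rintro ⟨p, hp⟩
    have e1 : (q : R) + (k + k) = p + p := by
      have := congrArg Subtype.val hp
      simpa using this
    refine ⟨⟨p - k, by linarith [q.2]⟩, Subtype.ext ?_⟩
    push_cast
    linarith
  · rintro ⟨p, hp⟩
    exact ⟨p + k, by rw [hp]; ring⟩

omit he hE in
theorem RCA0.bit_iff {n x q r : NN R} (hr : r < e n) (hx : x = q * e n + r) :
    bit e n x ↔ ¬ Ev q := by
  unfold bit
  rw [h.dv_eq hr hx]

theorem RCA0.bit_low {a n y t c : NN R} (ht : t = e a * c) (hn : n < a) :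
    bit e n (y + t) ↔ bit e n y := by
  obtain ⟨s, hs⟩ : ∃ s, a = n + 1 + s :=
    ⟨a - (n + 1), (add_tsub_cancel_of_le (h.succ_le_iff.mpr hn)).symm⟩
  obtain ⟨h1, h2⟩ := h.dv_md y (h.exp_pos he hE n)
  have h3 : y + t = (dv y (e n) + (e s * c + e s * c)) * e n + md y (e n) := by
    rw [ht, hs, add_assoc, add_comm 1 s, h.exp_add he hE, hE.succ]
    nth_rewrite 1 [h2]
    ring
  rw [h.bit_iff h1 h3, h.bit_iff h1 h2, ev_add_double]

theorem RCA0.bit_high {a n y t c : NN R} (hy : y < e a) (ht : t = e a * c) (hn : a ≤ n) :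
    bit e n (y + t) ↔ bit e n t := by
  obtain ⟨s, hs⟩ : ∃ s, n = a + s := ⟨n - a, (add_tsub_cancel_of_le hn).symm⟩
  obtain ⟨h1, h2⟩ := h.dv_md c (h.exp_pos he hE s)
  have hen : e n = e a * e s := by rw [hs, h.exp_add he hE]
  have h3 : t = dv c (e s) * e n + e a * md c (e s) := by
    rw [hen, ht]
    nth_rewrite 1 [h2]
    ring
  have h4 : y + t = dv c (e s) * e n + (e a * md c (e s) + y) := by
    nth_rewrite 1 [h3]; ring
  have h5 : e a * md c (e s) + y < e n := by
    rw [hen]
    rw [← h.succ_le_iff] at h1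
    calc e a * md c (e s) + y < e a * md c (e s) + e a := add_lt_add_right hy _
      _ = e a * (md c (e s) + 1) := by ring
      _ ≤ e a * e s := mul_le_mul_of_nonneg_left h1 (zero_le' _)
  have h6 : e a * md c (e s) < e n := lt_of_le_of_lt le_self_add h5
  rw [h.bit_iff h5 h4, h.bit_iff h6 h3]

theorem RCA0.not_bit_of_lt {x n m : NN R} (hx : x < e n) (hm : n ≤ m) : ¬ bit e m x := by
  rw [h.bit_iff (e := e) (q := 0) (r := x) (lt_of_lt_of_le hx (h.exp_mono he hE hm)) (by ring)]
  exact not_not.mpr ev_zero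

theorem RCA0.not_bit_zero (n : NN R) : ¬ bit e n 0 := by
  rw [h.bit_iff (e := e) (q := 0) (r := 0) (h.exp_pos he hE n) (by ring)]
  exact not_not.mpr ev_zero

theorem RCA0.not_bit_of_dvd {a n t c : NN R} (ht : t = e a * c) (hn : n < a) : ¬ bit e n t := by
  have h1 := h.bit_low he hE (y := 0) ht hn
  rw [zero_add] at h1
  rw [h1]
  exact h.not_bit_zero he hE n

omit he hE in
theorem RCA0.not_ev_one : ¬ Ev (1 : NN R) := by
  have := h.ev_succ (x := (0 : NN R))
  rw [zero_add] at this
  rw [this]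
  exact not_not.mpr ev_zero

theorem RCA0.exists_bit {x : NN R} (hx : x ≠ 0) : ∃ n, bit e n x := by
  obtain ⟨n, hn, hmin⟩ := h.least (p := fun n => x < e n) (Rl.lt (Fn.const x) he)
    ⟨x, h.lt_exp he hE x⟩
  rcases h.eq_zero_or (a := n) with h0 | ⟨m, hm⟩
  · exfalso
    rw [h0, hE.zero, ← zero_add (1 : NN R), h.lt_succ_iff] at hn
    exact hx (le_antisymm hn (zero_le' _))
  · refine ⟨m, ?_⟩
    have h1 : e m ≤ x := by
      by_contra hc
      exact hmin m (by rw [hm]; exact lt_succ m) (not_le.mp hc)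
    rw [hm, hE.succ] at hn
    have h2 : x = 1 * e m + (x - e m) := by rw [one_mul, add_tsub_cancel_of_le h1]
    have h3 : x - e m < e m := by
      rw [tsub_lt_iff_left h1]; exact hn
    rw [h.bit_iff h3 h2]
    exact h.not_ev_one

theorem RCA0.bit_le {n x : NN R} (hb : bit e n x) : e n ≤ x := by
  by_contra hc
  exact h.not_bit_of_lt he hE (not_le.mp hc) le_rfl hb

theorem RCA0.bit_lt {n x : NN R} (hb : bit e n x) : n < x :=
  lt_of_lt_of_le (h.lt_exp he hE n) (h.bit_le he hE hb)

end

/-! ### counting -/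

open Classical in
/-- `f n` is the number of `k < n` with `p k` -/
structure IsCount (p : NN R → Prop) (f : NN R → NN R) : Prop where
  zero : f 0 = 0
  succ : ∀ n, f (n + 1) = if p n then f n + 1 else f n

section

variable {𝒮 : Set (Set (NN R))} (h : RCA0 𝒮)

include h

theorem RCA0.exists_count {p : NN R → NN R → Prop} (hp : Rl2 𝒮 p) :
    ∃ f : NN R → NN R → NN R, Fn2 𝒮 f ∧ ∀ x, IsCount (p x) (f x) := by
  classical
  obtain ⟨f, h1, h2, h3⟩ := h.prec1 (A := fun _ => 0) (F := fun x n y => if p x n then y + 1 else y)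
    (Fn.const 0) (Fn.ite (Rl2.app hp (Fn.var 0) (Fn.var 1)) ((Fn.var 2).add (Fn.const 1)) (Fn.var 2))
  exact ⟨f, h1, fun x => ⟨h2 x, fun n => by rw [h3]⟩⟩

theorem RCA0.count_const {p : NN R → Prop} {f : NN R → NN R} (hf : Fn1 𝒮 f) (hc : IsCount p f)
    {u w : NN R} (huw : u ≤ w) (hn : ∀ n, u ≤ n → n < w → ¬ p n) : f w = f u := by
  have key : ∀ s, u + s ≤ w → f (u + s) = f u := by
    refine h.ind_rl (p := fun s => u + s ≤ w → f (u + s) = f u) ?_ ?_ ?_
    · exact (Rl.le ((Fn.const u).add (Fn.var 0)) (Fn.const w)).imp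
        (Rl.eq (Fn1.app hf ((Fn.const u).add (Fn.var 0))) (Fn.const _))
    · intro _; rw [add_zero]
    · intro s ih hs
      rw [← add_assoc] at hs ⊢
      rw [h.succ_le_iff] at hs
      rw [hc.succ, if_neg (hn _ le_self_add hs), ih hs.le]
  have := key (w - u)
  rw [add_tsub_cancel_of_le huw] at this
  exact this le_rfl

theorem RCA0.count_one {p : NN R → Prop} {f : NN R → NN R} (hf : Fn1 𝒮 f) (hc : IsCount p f)
    {u b w : NN R} (hub : u ≤ b) (hbw : b < w) (hb : p b)
    (hn : ∀ n, u ≤ n → n < w → p n → n = b) : f w = f u + 1 := by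
  have h1 : f b = f u := h.count_const hf hc hub (fun n h1 h2 h3 =>
    absurd (hn n h1 (h2.trans hbw) h3) (ne_of_lt h2))
  have h2 : f w = f (b + 1) := h.count_const hf hc (h.succ_le_iff.mpr hbw) (fun n h1 h2 h3 =>
    absurd (hn n (hub.trans ((lt_succ b).le.trans h1)) h2 h3)
      (ne_of_gt (h.succ_le_iff.mp h1)))
  rw [h2, hc.succ, if_pos hb, h1]

theorem RCA0.count_congr {p p' : NN R → Prop} {f f' : NN R → NN R} (hf : Fn1 𝒮 f)
    (hc : IsCount p f) (hf' : Fn1 𝒮 f') (hc' : IsCount p' f') {u : NN R}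
    (hn : ∀ n, n < u → (p n ↔ p' n)) : f u = f' u := by
  have key : ∀ s, s ≤ u → f s = f' s := by
    refine h.ind_rl (p := fun s => s ≤ u → f s = f' s) ?_ ?_ ?_
    · exact (Rl.le (Fn.var 0) (Fn.const u)).imp (Rl.eq hf hf')
    · intro _; rw [hc.zero, hc'.zero]
    · intro s ih hs
      rw [h.succ_le_iff] at hs
      rw [hc.succ, hc'.succ, ih hs.le]
      by_cases hp : p s
      · rw [if_pos hp, if_pos ((hn s hs).1 hp)]
      · rw [if_neg hp, if_neg (fun hp' => hp ((hn s hs).2 hp'))]
  exact key u le_rfl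

/-- the pigeonhole principle -/
theorem RCA0.php {f : NN R → NN R} (hf : Fn1 𝒮 f) (m : NN R) (hfm : ∀ k, k ≤ m → f k < m) :
    ∃ k k', k < k' ∧ k' ≤ m ∧ f k = f k' := by
  by_contra hcon
  push Not at hcon
  have hinj : ∀ k k', k < k' → k' ≤ m → f k ≠ f k' := fun k k' h1 h2 => hcon k k' h1 h2
  obtain ⟨K, hK, hKc⟩ := h.exists_count (p := fun c k => f k < c)
    (Rl.lt (Fn1.app hf (Fn.var 1)) (Fn.var 0))
  have hK1 : ∀ c, Fn1 𝒮 (K c) := fun c => Fn2.app hK (Fn.const c) (Fn.var 0)
  have hA : ∀ c, K (c + 1) (m + 1) ≤ K c (m + 1) + 1 := by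
    intro c
    have key : ∀ n, n ≤ m + 1 → (K (c + 1) n = K c n ∧ ∀ k, k < n → f k ≠ c) ∨
        (K (c + 1) n = K c n + 1) := by
      refine h.ind_rl (p := fun n => n ≤ m + 1 → (K (c + 1) n = K c n ∧ ∀ k, k < n → f k ≠ c) ∨
        (K (c + 1) n = K c n + 1)) ?_ ?_ ?_
      · refine (Rl.le (Fn.var 0) (Fn.const _)).imp (Rl.or (Rl.and (Rl.eq (hK1 _) (hK1 _))
          (Rl.ball h (Fn.var 0) (Rl.not (Rl.eq (Fn1.app hf (Fn.var 0)) (Fn.const c)))))
          (Rl.eq (hK1 _) ((hK1 _).add (Fn.const 1))))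
      · intro _
        left
        rw [(hKc _).zero, (hKc _).zero]
        exact ⟨rfl, fun k hk => absurd hk (not_lt_zero' k)⟩
      · intro n ih hn
        rw [h.succ_le_iff] at hn
        have hnm : n ≤ m := by rwa [h.lt_succ_iff] at hn
        rw [(hKc (c + 1)).succ, (hKc c).succ]
        by_cases hfc : f n = c
        · -- new value
          rcases ih hn.le with ⟨h1, h2⟩ | h1
          · right
            rw [if_pos (by rw [hfc]; exact lt_succ c), if_neg (by rw [hfc]; exact lt_irrefl c), h1]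
          · exfalso
            -- some earlier k has value c
            have hcon2 : ∀ j, j ≤ n → K (c + 1) j = K c j := by
              refine h.ind_rl (p := fun j => j ≤ n → K (c + 1) j = K c j) ?_ ?_ ?_
              · exact (Rl.le (Fn.var 0) (Fn.const n)).imp (Rl.eq (hK1 _) (hK1 _))
              · intro _; rw [(hKc _).zero, (hKc _).zero]
              · intro j ihj hj
                rw [h.succ_le_iff] at hj
                rw [(hKc (c + 1)).succ, (hKc c).succ, ihj hj.le]
                have hne : f j ≠ c := fun e1 => hinj j n hj hnm (e1.trans hfc.symm)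
                have hiff : f j < c + 1 ↔ f j < c := by
                  rw [h.lt_succ_iff]
                  exact ⟨fun h3 => lt_of_le_of_ne h3 hne, le_of_lt⟩
                by_cases h5 : f j < c
                · rw [if_pos h5, if_pos (hiff.2 h5)]
                · rw [if_neg h5, if_neg (fun h6 => h5 (hiff.1 h6))]
            rw [hcon2 n le_rfl] at h1
            exact absurd h1 (ne_of_lt (lt_succ _))
        · have hiff : f n < c + 1 ↔ f n < c := by
            rw [h.lt_succ_iff]
            exact ⟨fun h3 => lt_of_le_of_ne h3 hfc, le_of_lt⟩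
          rcases ih hn.le with ⟨h1, h2⟩ | h1
          · left
            constructor
            · by_cases h5 : f n < c
              · rw [if_pos h5, if_pos (hiff.2 h5), h1]
              · rw [if_neg h5, if_neg (fun h6 => h5 (hiff.1 h6)), h1]
            · intro k hk
              rw [h.lt_succ_iff] at hk
              rcases eq_or_lt_of_le hk with rfl | hk
              · exact hfc
              · exact h2 k hk
          · right
            by_cases h5 : f n < c
            · rw [if_pos h5, if_pos (hiff.2 h5), h1]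
            · rw [if_neg h5, if_neg (fun h6 => h5 (hiff.1 h6)), h1]
    rcases key (m + 1) le_rfl with ⟨h1, _⟩ | h1
    · rw [h1]; exact (lt_succ _).le
    · rw [h1]
  have hB : ∀ c, K c (m + 1) ≤ c := by
    refine h.ind_rl (p := fun c => K c (m + 1) ≤ c) ?_ ?_ ?_
    · exact Rl.le (Fn2.app hK (Fn.var 0) (Fn.const _)) (Fn.var 0)
    · rw [h.count_const (hK1 0) (hKc 0) (zero_le' (m + 1))
        (fun n _ _ => not_lt_zero' _), (hKc 0).zero]
    · intro c hc
      exact (hA c).trans (add_le_add_left hc 1)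
  have hC : ∀ n, n ≤ m + 1 → K m n = n := by
    refine h.ind_rl (p := fun n => n ≤ m + 1 → K m n = n) ?_ ?_ ?_
    · exact (Rl.le (Fn.var 0) (Fn.const _)).imp (Rl.eq (hK1 m) (Fn.var 0))
    · intro _; exact (hKc m).zero
    · intro n ih hn
      rw [h.succ_le_iff] at hn
      have hnm : n ≤ m := by rwa [h.lt_succ_iff] at hn
      rw [(hKc m).succ, if_pos (hfm n hnm), ih hn.le]
  have h1 := hB m
  rw [hC (m + 1) le_rfl] at h1
  exact absurd h1 (not_le.mpr (lt_succ m))

end

end Pool.Agent.Thin
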