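import Pool.Agent.Thin.Apart

/-!
# The colouring and the level processes
-/

set_option autoImplicit false

namespace Pool.Agent.Thin

variable {R : Type} [CommRing R] [LinearOrder R] [IsStrictOrderedRing R]

/-- the digit of `x` at the place `n` is one, and the gap of `x` below the place `n` contains a
place `s` with label `G s = l` -/
def Gap (G e : NN R → NN R) (l x n : NN R) : Prop :=
  bit e n x ∧ ∃ s, s < n ∧ (G s = l ∧ (∀ u, u < n → (s < u → ¬ bit e u x)) ∧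
    ∃ u, u ≤ s ∧ bit e u x)

/-- `s` lies between two digits one of `x` -/
def Str (e : NN R → NN R) (x s : NN R) : Prop :=
  (∃ u, u ≤ s ∧ bit e u x) ∧ ∃ u, u < x ∧ (s < u ∧ bit e u x)

section

variable {𝒮 : Set (Set (NN R))} (h : RCA0 𝒮) {G e : NN R → NN R} (hG : Fn1 𝒮 G) (he : Fn1 𝒮 e)
  (hE : IsExp e)

include h hG he

theorem RCA0.rl_gap : Rl3 𝒮 (Gap G e) := by
  have hb := h.rl_bit he
  refine (Rl2.app hb (Fn.var 2) (Fn.var 1)).and (Rl.bex h (Fn.var 2) ?_)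
  refine (Rl.eq (Fn1.app hG (Fn.var 0)) (Fn.var 1)).and (Rl.and ?_ ?_)
  · exact Rl.ball h (Fn.var 3) ((Rl.lt (Fn.var 1) (Fn.var 0)).imp
      (Rl2.app hb (Fn.var 0) (Fn.var 3)).not)
  · exact Rl.bex_le h (Fn.var 0) (Rl2.app hb (Fn.var 0) (Fn.var 3))

omit hG in
theorem RCA0.rl_str : Rl2 𝒮 (Str e) := by
  have hb := h.rl_bit he
  refine (Rl.bex_le h (Fn.var 1) (Rl2.app hb (Fn.var 0) (Fn.var 1))).and
    (Rl.bex h (Fn.var 0) ((Rl.lt (Fn.var 2) (Fn.var 0)).and (Rl2.app hb (Fn.var 0) (Fn.var 1))))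

/-- the least label between two digits of `x`, and the colouring -/
theorem RCA0.exists_colour : ∃ (m : NN R → NN R) (C : NN R → NN R → NN R), Fn1 𝒮 m ∧ Fn2 𝒮 C ∧
    (∀ x, IsCount (Gap G e (m x) x) (C x)) ∧
    ∀ x l, (∃ s, s < x ∧ (Str e x s ∧ G s = l)) → (∀ s, s < x → Str e x s → l ≤ G s) → m x = l := by
  obtain ⟨m, hm, hms⟩ := h.exists_min (p := fun x l => (∃ s, s < x ∧ (Str e x s ∧ G s = l)) ∨
      ¬ ∃ s, s < x ∧ Str e x s)
    ((Rl.bex h (Fn.var 0) ((Rl2.app (h.rl_str he) (Fn.var 1) (Fn.var 0)).and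
      (Rl.eq (Fn1.app hG (Fn.var 0)) (Fn.var 2)))).or
      (Rl.bex h (Fn.var 0) (Rl2.app (h.rl_str he) (Fn.var 1) (Fn.var 0))).not) (fun x => by
      by_cases hx : ∃ s, s < x ∧ Str e x s
      · obtain ⟨s, h1, h2⟩ := hx
        exact ⟨G s, Or.inl ⟨s, h1, h2, rfl⟩⟩
      · exact ⟨0, Or.inr hx⟩)
  obtain ⟨C, hC, hCc⟩ := h.exists_count (p := fun x n => Gap G e (m x) x n)
    (Rl3.app (h.rl_gap hG he) (Fn1.app hm (Fn.var 0)) (Fn.var 0) (Fn.var 1))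
  refine ⟨m, C, hm, hC, hCc, ?_⟩
  rintro x l ⟨s, h1, h2, h3⟩ h4
  apply le_antisymm
  · by_contra hc
    exact (hms x).2 l (not_le.mp hc) (Or.inl ⟨s, h1, h2, h3⟩)
  · rcases (hms x).1 with ⟨s', h5, h6, h7⟩ | h5
    · rw [← h7]; exact h4 s' h5 h6
    · exact absurd ⟨s, h1, h2⟩ h5

include hE

variable {S : Set (NN R)} {a t : NN R → NN R} (hA : Apart 𝒮 S e a t)

include hA

omit hG he hE in
theorem RCA0.apart_le (j : NN R) : e (a j) ≤ t j := by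
  obtain ⟨c, hc⟩ := hA.dvd j
  have h1 := hA.pos j
  have h2 : c ≠ 0 := by
    rintro rfl
    rw [hc, mul_zero] at h1
    exact absurd h1 (lt_irrefl _)
  have h3 : (0 : NN R) + 1 ≤ c := by rw [h.succ_le_iff]; exact pos_of_ne h2
  rw [hc]
  have := mul_le_mul_of_nonneg_left h3 (zero_le' (e (a j)))
  rwa [zero_add, mul_one] at this

omit hG in
theorem RCA0.apart_lt (j : NN R) : a j < a (j + 1) := by
  rw [← h.exp_lt_iff he hE]
  exact lt_of_le_of_lt (h.apart_le hA j) (hA.lt j)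

omit hG in
theorem RCA0.apart_mono {i j : NN R} (hij : i ≤ j) : a i ≤ a j :=
  h.mono_of_step hA.fa (fun n => (h.apart_lt he hE hA n).le) hij

omit hG in
theorem RCA0.apart_ge (j : NN R) : j ≤ a j := by
  revert j
  refine h.ind_rl (p := fun j => j ≤ a j) (Rl.le (Fn.var 0) hA.fa) (zero_le' _) ?_
  intro j hj
  rw [h.succ_le_iff]
  exact lt_of_le_of_lt hj (h.apart_lt he hE hA j)

/-- the least label in a region -/
theorem RCA0.exists_M : ∃ M : NN R → NN R, Fn1 𝒮 M ∧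
    (∀ j s, a j ≤ s → s < a (j + 1) → M j ≤ G s) ∧
    ∀ j, ∃ s, a j ≤ s ∧ s < a (j + 1) ∧ G s = M j := by
  obtain ⟨M, hM, hMs⟩ := h.exists_min (p := fun j l => ∃ s, s < a (j + 1) ∧ (a j ≤ s ∧ G s = l))
    (Rl.bex h (Fn1.app hA.fa ((Fn.var 0).add (Fn.const 1)))
      ((Rl.le (Fn1.app hA.fa (Fn.var 1)) (Fn.var 0)).and
      (Rl.eq (Fn1.app hG (Fn.var 0)) (Fn.var 2)))) (fun j =>
      ⟨G (a j), a j, h.apart_lt he hE hA j, le_rfl, rfl⟩)
  refine ⟨M, hM, fun j s h1 h2 => ?_, fun j => ?_⟩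
  · by_contra hc
    exact (hMs j).2 _ (not_le.mp hc) ⟨s, h2, h1, rfl⟩
  · obtain ⟨s, h1, h2, h3⟩ := (hMs j).1
    exact ⟨s, h2, h1, h3⟩

end

end Pool.Agent.Thin
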