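import Pool.Agent.Thin.Aca

/-!
# thin-HT implies arithmetical comprehension
-/

set_option autoImplicit false

namespace Pool.Agent.Thin

variable {R : Type} [CommRing R] [LinearOrder R] [IsStrictOrderedRing R]

section

variable {𝒮 : Set (Set (NN R))} (h : RCA0 𝒮)

include h

theorem RCA0.region {e : NN R → NN R} (he : Fn1 𝒮 e) (hE : IsExp e) {S : Set (NN R)}
    {a t : NN R → NN R} (hA : Apart 𝒮 S e a t) {j0 s : NN R} (hs : a j0 ≤ s) :
    ∃ j, j0 ≤ j ∧ a j ≤ s ∧ s < a (j + 1) := by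
  obtain ⟨j, hj, hmin⟩ := h.least (p := fun j => s < a (j + 1))
    (Rl.lt (Fn.const s) (Fn1.app hA.fa ((Fn.var 0).add (Fn.const 1))))
    ⟨s, lt_of_lt_of_le (lt_succ s) (h.apart_ge he hE hA _)⟩
  have h1 : a j ≤ s := by
    rcases h.eq_zero_or (a := j) with h0 | ⟨j', hj'⟩
    · rw [h0]; exact (h.apart_mono he hE hA (zero_le' j0)).trans hs
    · rw [hj']
      exact not_lt.mp (hmin j' (by rw [hj']; exact lt_succ j'))
  have h2 : j0 ≤ j := by
    by_contra hc
    rw [not_le] at hc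
    have h3 := h.apart_mono he hE hA (h.succ_le_iff.mpr hc)
    exact absurd hj (not_lt.mpr (h3.trans hs))
  exact ⟨j, h2, h1, hj⟩

theorem RCA0.tau_le {M b : NN R → NN R} {τ : NN R → NN R → NN R}
    (hr : TauRec M b τ) {j k : NN R} (hk : k ≤ j + 1) : τ j k = 0 := by
  rcases h.eq_zero_or (a := k) with h0 | ⟨k', hk'⟩
  · rw [h0]; exact hr.1 j
  · rw [hk', hr.2, if_pos]
    rw [hk'] at hk
    exact le_of_add_le_add_right hk

theorem RCA0.tau_step {M b : NN R → NN R} {τ : NN R → NN R → NN R}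
    (hr : TauRec M b τ) (j k : NN R) : τ j k ≤ τ j (k + 1) ∧ τ j (k + 1) ≤ τ j k + 1 := by
  rw [hr.2]
  split
  · next h1 =>
    rw [h.tau_le hr (h1.trans (lt_succ j).le)]
    exact ⟨le_rfl, zero_le' _⟩
  · split
    · exact ⟨(lt_succ _).le, le_rfl⟩
    · exact ⟨le_rfl, (lt_succ _).le⟩

/-- moduli exist -/
theorem modulus_of_thinHT (hT : ThinHT 𝒮) {G : NN R → NN R} (hG : Fn1 𝒮 G)
    (hcut : ∀ n, Cut G n) : ∃ μ : NN R → NN R, Fn1 𝒮 μ ∧ ∀ n s, μ n ≤ s → n < G s := by
  have h2 := isigma2_of_thinHT h hT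
  obtain ⟨e, he, hE⟩ := h.exists_exp
  have hbit := h.rl_bit he
  obtain ⟨g, hg, hgs⟩ := h.exists_ruler he hE
  -- lowest digit
  obtain ⟨bo, hbo, hbos⟩ := h.exists_min (p := fun x z => bit e z x ∨ x = 0)
    ((Rl2.app hbit (Fn.var 1) (Fn.var 0)).or (Rl.eq (Fn.var 0) (Fn.const 0))) (fun x => by
      by_cases hx : x = 0
      · exact ⟨0, Or.inr hx⟩
      · obtain ⟨n, hn⟩ := h.exists_bit he hE hx
        exact ⟨n, Or.inl hn⟩)
  have hbo1 : ∀ x, x ≠ 0 → bit e (bo x) x ∧ ∀ u, u < bo x → ¬ bit e u x := by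
    intro x hx
    refine ⟨(hbos x).1.resolve_right hx, fun u hu hb => (hbos x).2 u hu (Or.inl hb)⟩
  have hbo2 : ∀ x β, (bit e β x ∧ ∀ u, u < β → ¬ bit e u x) → bo x = β := by
    rintro x β ⟨h3, h4⟩
    have hx : x ≠ 0 := by
      rintro rfl
      exact h.not_bit_zero he hE β h3
    obtain ⟨h5, h6⟩ := hbo1 x hx
    rcases lt_trichotomy (bo x) β with h7 | h7 | h7
    · exact absurd h5 (h4 _ h7)
    · exact h7
    · exact absurd h3 (h6 _ h7)
  obtain ⟨C, hC, hCc⟩ := h.exists_count (p := fun x n => GapP (fun s => G s ≤ bo x) e x n)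
    (h.rl_gapP he (q := fun x s => G s ≤ bo x)
      (Rl.le (Fn1.app hG (Fn.var 1)) (Fn1.app hbo (Fn.var 0))))
  obtain ⟨S, hS, hun, i, hi⟩ := hT (fun x => g (C x x))
    (h.funIn_iff.mpr (Fn1.app hg (Fn2.app hC (Fn.var 0) (Fn.var 0))))
  obtain ⟨a, t, hA⟩ := h.exists_apart he hE hS hun
  obtain ⟨M, hM, hM1, hM2⟩ := h.exists_M hG he hE hA
  have hb : ∀ j, bit e (bo (t j)) (t j) ∧ ∀ u, u < bo (t j) → ¬ bit e u (t j) :=
    fun j => hbo1 _ (ne_of_gt (hA.pos j))
  obtain ⟨τ, hτ, hr⟩ := h.exists_tau (b := fun j => bo (t j)) hM (Fn1.app hbo hA.ft)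
  -- the bound
  have hB : ∀ j k, τ j k < e (i + 1) + e (i + 1) := by
    intro j k
    by_contra hcon
    rw [not_lt] at hcon
    obtain ⟨y, hy, hyr⟩ := h.exists_sum (h.rl_chs (b := fun j => bo (t j)) (j := j) hM hτ) hA.ft
    obtain ⟨K, hK, hKc⟩ := h.exists_count (p := fun x n => GapP (fun s => G s ≤ bo (t j)) e x n)
      (h.rl_gapP he (q := fun _ s => G s ≤ bo (t j))
        (Rl.le (Fn1.app hG (Fn.var 1)) (Fn.const _)))
    have hinv := h.inv2 hG he hE hA hM1 hM2 (b := fun j => bo (t j)) hb hτ hr (j := j) hy hyr hK hKc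
    obtain ⟨n, hn1, hn2, hn3⟩ := hgs i (K (t j) (a (j + 1)))
    obtain ⟨d, hd⟩ : ∃ d, n = K (t j) (a (j + 1)) + d :=
      ⟨n - K (t j) (a (j + 1)), (add_tsub_cancel_of_le hn1).symm⟩
    have hd1 : d < e (i + 1) := by
      rw [hd] at hn2
      exact lt_of_add_lt_add_left hn2
    have hd2 : d + d ≤ τ j k := (add_le_add hd1.le hd1.le).trans hcon
    have hjk : j < k := by
      by_contra hc
      rw [h.tau_le hr ((not_lt.mp hc).trans (lt_succ j).le)] at hcon
      have h3 := h.exp_pos he hE (i + 1)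
      exact absurd (add_pos h3 h3) (not_lt.mpr hcon)
    obtain ⟨k', ⟨hk1, hk2⟩, hkmin⟩ := h.least (p := fun k => j < k ∧ d + d ≤ τ j k)
      ((Rl.lt (Fn.const j) (Fn.var 0)).and (Rl.le (Fn.const _) (Fn2.app hτ (Fn.const j) (Fn.var 0))))
      ⟨k, hjk, hd2⟩
    have hk3 : τ j k' = d + d := by
      rcases h.eq_zero_or (a := k') with h0 | ⟨k'', hk''⟩
      · rw [h0] at hk1; exact absurd hk1 (not_lt_zero' j)
      · rcases le_or_gt k'' j with h4 | h4
        · have h5 : τ j k' = 0 := h.tau_le hr (by rw [hk'']; exact add_le_add_left h4 1)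
          rw [h5] at hk2 ⊢
          exact (le_antisymm hk2 (zero_le' _)).symm
        · have h5 : τ j k'' < d + d := by
            by_contra hc
            exact hkmin k'' (by rw [hk'']; exact lt_succ _) ⟨h4, not_lt.mp hc⟩
          refine le_antisymm ?_ hk2
          rw [hk'']
          exact (h.tau_step hr j k'').2.trans (h.succ_le_iff.mpr h5)
    have I := hinv k' hk1
    have hKn : K (y k') (a k') = n := by
      have h4 := I.ev (by rw [hk3]; exact ⟨d, rfl⟩)
      rw [hk3] at h4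
      rw [hd]
      apply Subtype.ext
      have h5 := congrArg Subtype.val h4
      push_cast at h5 ⊢
      linarith
    have hynz : y k' ≠ 0 := by
      intro h0
      have h5 := I.bot.1
      rw [h0] at h5
      exact h.not_bit_zero he hE _ h5
    have hboy : bo (y k') = bo (t j) := hbo2 _ _ I.bot
    have hKF : Fn1 𝒮 (K (y k')) := Fn2.app hK (Fn.const _) (Fn.var 0)
    have hCF : Fn1 𝒮 (C (y k')) := Fn2.app hC (Fn.const _) (Fn.var 0)
    have hCK : C (y k') (y k') = K (y k') (y k') := by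
      apply h.count_congr hCF (hCc _) hKF (hKc _)
      intro n _
      rw [hboy]
    have hKK : K (y k') (y k') = K (y k') (a k') := by
      rcases le_total (y k') (a k') with h1 | h1
      · exact (h.count_const hKF (hKc _) h1 (fun n h2 _ h3 =>
          absurd (h.bit_lt he hE h3.1) (not_lt.mpr h2))).symm
      · exact h.count_const hKF (hKc _) h1 (fun n h2 _ h3 =>
          absurd h3.1 (h.not_bit_of_lt he hE I.lt h2))
    apply hi (y k') (hA.fs _ _ (h.rl_chs (b := fun j => bo (t j)) (j := j) hM hτ) hy hyr k' hynz)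
    rw [hCK, hKK, hKn, hn3]
  set B := e (i + 1) + e (i + 1) with hBdef
  -- the limit value
  have hlim : ∃ u, (∃ n0, ∀ j k, n0 ≤ j → τ j k < B - u) ∧
      ¬ ∃ n0, ∀ j k, n0 ≤ j → τ j k < B - (u + 1) := by
    by_contra hcon
    push Not at hcon
    have h3 := h2.ind (p := fun u n0 => ∀ j k, n0 ≤ j → τ j k < B - u) (by
      have h4 : Rl 𝒮 (fun w : Env R => w 2 ≤ w 1 ∧ B - w 3 ≤ τ (w 1) (w 0)) :=
        (Rl.le (Fn.var 2) (Fn.var 1)).and (Rl.le ((Fn.const B).sub (Fn.var 3))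
          (Fn2.app hτ (Fn.var 1) (Fn.var 0)))
      refine (Sg.ex (Sg.ex h4.1)).congr (fun v => ?_)
      push Not
      simp) ⟨0, fun j k _ => by rw [tsub_zero]; exact hB j k⟩ (fun u ⟨n0, hn0⟩ => by
      obtain ⟨n1, hn1⟩ := hcon u ⟨n0, hn0⟩
      exact ⟨n1, hn1⟩) B
    obtain ⟨n0, hn0⟩ := h3
    have h5 := hn0 n0 0 le_rfl
    rw [tsub_self] at h5
    exact not_lt_zero' _ h5
  obtain ⟨u, ⟨n0, hn0⟩, hcof⟩ := hlim
  push Not at hcof
  have huB : u < B := by
    by_contra hc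
    have h5 := hn0 n0 0 le_rfl
    rw [tsub_eq_zero_of_le (not_lt.mp hc)] at h5
    exact not_lt_zero' _ h5
  obtain ⟨L, hL⟩ : ∃ L, B = u + 1 + L :=
    ⟨B - (u + 1), (add_tsub_cancel_of_le (h.succ_le_iff.mpr huB)).symm⟩
  have hL1 : B - (u + 1) = L := by rw [hL, add_tsub_cancel_left]
  have hL2 : B - u = L + 1 := by rw [hL, add_assoc, add_tsub_cancel_left, add_comm]
  rw [hL2] at hn0
  rw [hL1] at hcof
  have hτm : ∀ j k k', k ≤ k' → τ j k ≤ τ j k' := fun j k k' hk =>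
    h.mono_of_step (f := τ j) (Fn2.app hτ (Fn.const j) (Fn.var 0))
      (fun n => (h.tau_step hr j n).1) hk
  obtain ⟨κ, hκ, hκs⟩ := h.exists_min (p := fun n k => ∃ j, j < k ∧ (n0 ≤ j ∧ n ≤ j ∧ L ≤ τ j k))
    (Rl.bex h (Fn.var 1) ((Rl.le (Fn.const n0) (Fn.var 0)).and ((Rl.le (Fn.var 1) (Fn.var 0)).and
      (Rl.le (Fn.const L) (Fn2.app hτ (Fn.var 0) (Fn.var 2)))))) (fun n => by
      obtain ⟨j, k, h3, h4⟩ := hcof (n0 + n)
      refine ⟨k + j + 1, j, lt_of_le_of_lt (le_add_self' j k) (lt_succ _), ?_, ?_, ?_⟩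
      · exact le_self_add.trans h3
      · exact (le_add_self' n n0).trans h3
      · exact h4.trans (hτm j _ _ (by rw [add_assoc]; exact le_self_add)))
  refine ⟨fun n => a (κ n), Fn1.app hA.fa hκ, fun n s hs => ?_⟩
  obtain ⟨j, h3, h4, h5, h6⟩ := (hκs n).1
  obtain ⟨k, h7, h8, h9⟩ := h.region he hE hA hs
  have hall : ∀ k, κ n ≤ k → τ j k = L := fun k hk =>
    le_antisymm (h.lt_succ_iff.mp (hn0 j k h4)) (h6.trans (hτm j _ _ hk))
  have hnb : n ≤ bo (t j) := by
    refine h5.trans ((h.apart_ge he hE hA j).trans ?_)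
    obtain ⟨c, hc⟩ := hA.dvd j
    by_contra hcon
    exact h.not_bit_of_dvd he hE hc (not_le.mp hcon) (hb j).1
  have hstep : ∀ k, κ n ≤ k → ¬ ((Ev (τ j k) ∧ M k ≤ bo (t j)) ∨
      (¬ Ev (τ j k) ∧ bo (t j) < M k)) := by
    intro k hk hc
    have h10 := hr.2 j k
    rw [if_neg (not_le.mpr (h3.trans_le hk)), if_pos hc, hall k hk,
      hall (k + 1) (hk.trans (lt_succ k).le)] at h10
    exact absurd h10 (ne_of_lt (lt_succ _))
  have hbM : bo (t j) < M k := by
    by_contra hc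
    rw [not_lt] at hc
    have hev : ¬ Ev L := fun hev => hstep k h7 (Or.inl ⟨by rw [hall k h7]; exact hev, hc⟩)
    obtain ⟨k0, hk0⟩ := (h.cut_iff he hE hA hM1 hM2 (bo (t j))).2 (hcut _)
    have h10 : κ n ≤ κ n + k0 := le_self_add
    exact hstep (κ n + k0) h10 (Or.inr ⟨by rw [hall _ h10]; exact hev,
      hk0 _ (le_add_self' _ _)⟩)
  exact lt_of_le_of_lt hnb (hbM.trans_le (hM1 k s h8 h9))

/-- comprehension for `Σ⁰₁` relations -/
theorem sigma1_comp (hT : ThinHT 𝒮) {θ : NN R → NN R → Prop} (hθ : Rl2 𝒮 θ) :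
    {k | ∃ b, θ k b} ∈ 𝒮 := by
  have hEn : Rl2 𝒮 (fun s k => ∃ b, b ≤ s ∧ (s = pr k b ∧ (θ k b ∧ ∀ b', b' < b → ¬ θ k b'))) := by
    refine Rl.bex_le h (Fn.var 0) ((Rl.eq (Fn.var 1) ?_).and (Rl.and (Rl2.app hθ (Fn.var 2)
      (Fn.var 0)) (Rl.ball h (Fn.var 0) (Rl2.app hθ (Fn.var 3) (Fn.var 0)).not)))
    exact (((Fn.var 2).add (Fn.var 0)).mul ((Fn.var 2).add (Fn.var 0))).add (Fn.var 2)
  set En : NN R → NN R → Prop :=
    fun s k => ∃ b, b ≤ s ∧ (s = pr k b ∧ (θ k b ∧ ∀ b', b' < b → ¬ θ k b')) with hEndef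
  have huniq : ∀ k s s', En s k → En s' k → s = s' := by
    rintro k s s' ⟨b, _, h1, h2, h3⟩ ⟨b', _, h4, h5, h6⟩
    have : b = b' := by
      rcases lt_trichotomy b b' with h7 | h7 | h7
      · exact absurd h2 (h6 b h7)
      · exact h7
      · exact absurd h5 (h3 b' h7)
    rw [h1, h4, this]
  obtain ⟨G, hG, hGs⟩ := h.exists_min (p := fun s k => En s k ∨ k = s)
    ((Rl2.app hEn (Fn.var 0) (Fn.var 1)).or (Rl.eq (Fn.var 1) (Fn.var 0)))
    (fun s => ⟨s, Or.inr rfl⟩)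
  have hlab : ∀ k, ∃ t, ∀ s, t ≤ s → G s ≠ k := by
    intro k
    by_cases hex : ∃ s, En s k
    · obtain ⟨s0, hs0⟩ := hex
      refine ⟨k + s0 + 1, fun s hs he => ?_⟩
      rw [h.succ_le_iff] at hs
      rcases (hGs s).1 with h1 | h1
      · rw [he] at h1
        rw [huniq k s s0 h1 hs0] at hs
        exact absurd (le_add_self' s0 k) (not_le.mpr hs)
      · rw [he] at h1
        rw [← h1] at hs
        exact absurd (le_self_add : k ≤ k + s0) (not_le.mpr hs)
    · refine ⟨k + 1, fun s hs he => ?_⟩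
      rw [h.succ_le_iff] at hs
      rcases (hGs s).1 with h1 | h1
      · rw [he] at h1; exact hex ⟨s, h1⟩
      · rw [he] at h1; exact absurd h1 (ne_of_lt hs)
  have hcut : ∀ n, Cut G n := by
    apply cutLemma_of_thinHT h hT G hG
    · obtain ⟨t, ht⟩ := hlab 0
      exact ⟨t, fun s hs => pos_of_ne (ht s hs)⟩
    · rintro k ⟨t1, ht1⟩
      obtain ⟨t2, ht2⟩ := hlab (k + 1)
      refine ⟨t1 + t2, fun s hs => ?_⟩
      exact lt_of_le_of_ne (h.succ_le_iff.mpr (ht1 s (le_self_add.trans hs)))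
        (Ne.symm (ht2 s ((le_add_self' t2 t1).trans hs)))
  obtain ⟨μ, hμ, hμs⟩ := modulus_of_thinHT h hT hG hcut
  have h1 : Rl1 𝒮 (fun k => ∃ s, s < μ k ∧ En s k) :=
    Rl.bex h (Fn1.app hμ (Fn.var 0)) (Rl2.app hEn (Fn.var 0) (Fn.var 1))
  have h2 : {k | ∃ b, θ k b} = {k | ∃ s, s < μ k ∧ En s k} := by
    ext k
    constructor
    · intro hk
      obtain ⟨b, hb, hmin⟩ := h.least (p := fun b => θ k b) (Rl2.app hθ (Fn.const k) (Fn.var 0)) hk
      have hEk : En (pr k b) k := ⟨b, h.pr_ge' k b, rfl, hb, hmin⟩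
      refine ⟨pr k b, ?_, hEk⟩
      by_contra hc
      have h3 := hμs k (pr k b) (not_lt.mp hc)
      exact (hGs (pr k b)).2 k h3 (Or.inl hEk)
    · rintro ⟨s, _, b, _, _, hb, _⟩
      exact ⟨b, hb⟩
  rw [h2]
  exact h.comp_rl h1

end

/-! ### arithmetical comprehension -/

/-- `P` depends only on the first `n` variables -/
def Supp (n : ℕ) (P : Env R → Prop) : Prop :=
  ∀ v w : Env R, (∀ i, i < n → v i = w i) → (P v ↔ P w)

theorem Supp.mono {m n : ℕ} {P : Env R → Prop} (hP : Supp m P) (hmn : m ≤ n) : Supp n P :=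
  fun v w hvw => hP v w (fun i hi => hvw i (hi.trans_le hmn))

theorem Pol.supp {s : Env R → NN R} (hs : Pol s) :
    ∃ n : ℕ, ∀ v w : Env R, (∀ i, i < n → v i = w i) → s v = s w := by
  induction hs with
  | var n => exact ⟨n + 1, fun v w hvw => hvw n (Nat.lt_succ_self n)⟩
  | const c => exact ⟨0, fun v w _ => rfl⟩
  | add _ _ h1 h2 =>
    obtain ⟨n1, h1⟩ := h1
    obtain ⟨n2, h2⟩ := h2
    exact ⟨n1 + n2, fun v w hvw => by
      beta_reduce
      rw [h1 v w (fun i hi => hvw i (by omega)), h2 v w (fun i hi => hvw i (by omega))]⟩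
  | mul _ _ h1 h2 =>
    obtain ⟨n1, h1⟩ := h1
    obtain ⟨n2, h2⟩ := h2
    exact ⟨n1 + n2, fun v w hvw => by
      beta_reduce
      rw [h1 v w (fun i hi => hvw i (by omega)), h2 v w (fun i hi => hvw i (by omega))]⟩

theorem cons_agree {n : ℕ} {v w : Env R} (a : NN R) (h : ∀ i, i < n → v i = w i) :
    ∀ i, i < n + 1 → cons a v i = cons a w i := by
  intro i hi
  cases i with
  | zero => rfl
  | succ i => exact h i (by omega)

theorem Bdd.supp {𝒮 : Set (Set (NN R))} {P : Env R → Prop} (hP : Bdd 𝒮 P) : ∃ n, Supp n P := by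
  induction hP with
  | eq hs ht =>
    obtain ⟨n1, h1⟩ := hs.supp
    obtain ⟨n2, h2⟩ := ht.supp
    exact ⟨n1 + n2, fun v w hvw => by
      beta_reduce
      rw [h1 v w (fun i hi => hvw i (by omega)), h2 v w (fun i hi => hvw i (by omega))]⟩
  | lt hs ht =>
    obtain ⟨n1, h1⟩ := hs.supp
    obtain ⟨n2, h2⟩ := ht.supp
    exact ⟨n1 + n2, fun v w hvw => by
      beta_reduce
      rw [h1 v w (fun i hi => hvw i (by omega)), h2 v w (fun i hi => hvw i (by omega))]⟩
  | mem ht _ =>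
    obtain ⟨n2, h2⟩ := ht.supp
    exact ⟨n2, fun v w hvw => by beta_reduce; rw [h2 v w hvw]⟩
  | not _ ih =>
    obtain ⟨n, hn⟩ := ih
    exact ⟨n, fun v w hvw => by beta_reduce; rw [hn v w hvw]⟩
  | and _ _ h1 h2 =>
    obtain ⟨n1, h1⟩ := h1
    obtain ⟨n2, h2⟩ := h2
    exact ⟨n1 + n2, fun v w hvw => by
      beta_reduce
      rw [h1 v w (fun i hi => hvw i (by omega)), h2 v w (fun i hi => hvw i (by omega))]⟩
  | ball ht _ ih =>
    obtain ⟨n1, h1⟩ := ht.supp
    obtain ⟨n2, h2⟩ := ih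
    refine ⟨n1 + n2, fun v w hvw => ?_⟩
    beta_reduce
    rw [h1 v w (fun i hi => hvw i (by omega))]
    refine forall_congr' fun a => imp_congr Iff.rfl ?_
    exact h2 _ _ (fun i hi => cons_agree a hvw i (by omega))

theorem Sg.supp {𝒮 : Set (Set (NN R))} {P : Env R → Prop} (hP : Sg 𝒮 P) : ∃ n, Supp n P := by
  obtain ⟨Q, hQ, hq⟩ := hP
  obtain ⟨n, hn⟩ := hQ.supp
  refine ⟨n, fun v w hvw => ?_⟩
  rw [hq, hq]
  exact exists_congr fun b => hn _ _ (fun i hi => cons_agree b hvw i (by omega))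

section

variable {𝒮 : Set (Set (NN R))} (h : RCA0 𝒮)

include h

theorem sg_not_of_thinHT (hT : ThinHT 𝒮) (n : ℕ) :
    ∀ P : Env R → Prop, Sg 𝒮 P → Supp (n + 1) P → Sg 𝒮 (fun v => ¬ P v) := by
  induction n with
  | zero =>
    intro P hP hs
    obtain ⟨Q, hQ, hq⟩ := hP
    have hθ : Rl2 𝒮 (fun k b => Q (cons b (cons k (fun _ => 0)))) := by
      refine (hQ.subst (σ := fun w => cons (w 1) (cons (w 0) (fun _ => 0))) ?_).rl
      intro n
      rcases n with _ | _ | n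
      · exact Pol.var 1
      · exact Pol.var 0
      · exact Pol.const 0
    have h1 := sigma1_comp h hT hθ
    refine ((Bdd.mem (Pol.var 0) h1).not.sg).congr (fun v => ?_)
    have h2 : P v ↔ P (cons (v 0) (fun _ => 0)) := hs _ _ (fun i hi => by
      have : i = 0 := by omega
      rw [this]; rfl)
    rw [h2, hq]
    rfl
  | succ n ih =>
    intro P hP hs
    have h1 : Sg 𝒮 (fun w => ∃ x y, w 0 = pr x y ∧ P (cons x (cons y (tail w)))) := by
      have h2 : Sg 𝒮 (fun u : Env R => u 2 = pr (u 1) (u 0) ∧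
          P (cons (u 1) (cons (u 0) (tail (tail (tail u)))))) := by
        refine Sg.and (Rl.eq (Fn.var 2) ?_).1 (hP.subst ?_)
        · exact (((Fn.var 1).add (Fn.var 0)).mul ((Fn.var 1).add (Fn.var 0))).add (Fn.var 1)
        · intro n
          rcases n with _ | _ | n
          · exact Pol.var 1
          · exact Pol.var 0
          · exact Pol.var (n + 3)
      exact (Sg.ex (Sg.ex h2)).congr (fun v => by simp)
    have h3 := ih _ h1 (fun v w hvw => by
      have h0 := hvw 0 (by omega)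
      rw [h0]
      refine exists_congr fun x => exists_congr fun y => and_congr Iff.rfl ?_
      refine hs _ _ (cons_agree x (cons_agree y (fun i hi => ?_)))
      exact hvw (i + 1) (by omega))
    have h4 : ∀ n, Pol (fun v : Env R => cons (pr (v 0) (v 1)) (tail (tail v)) n) := by
      intro n
      rcases n with _ | n
      · exact Pol.add (Pol.mul (Pol.add (Pol.var 0) (Pol.var 1)) (Pol.add (Pol.var 0) (Pol.var 1)))
          (Pol.var 0)
      · exact Pol.var (n + 2)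
    refine (h3.subst (σ := fun v : Env R => cons (pr (v 0) (v 1)) (tail (tail v))) h4).congr
      (fun v => not_congr ?_)
    simp only [cons_zero, tail_cons]
    constructor
    · intro hv
      refine ⟨v 0, v 1, rfl, ?_⟩
      have : cons (v 0) (cons (v 1) (tail (tail v))) = v := by
        funext n
        rcases n with _ | _ | n <;> rfl
      rw [this]; exact hv
    · rintro ⟨x, y, hxy, hv⟩
      obtain ⟨h5, h6⟩ := h.pr_inj hxy
      have : cons x (cons y (tail (tail v))) = v := by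
        rw [← h5, ← h6]
        funext n
        rcases n with _ | _ | n <;> rfl
      rw [this] at hv; exact hv

/-- thin-HT implies arithmetical comprehension over `RCA₀` -/
theorem arithComp_of_thinHT (hT : ThinHT 𝒮) : ArithComp 𝒮 := by
  have key : ∀ P : Env R → Prop, Sg 𝒮 P → Sg 𝒮 (fun v => ¬ P v) := by
    intro P hP
    obtain ⟨n, hn⟩ := hP.supp
    exact sg_not_of_thinHT h hT n P hP (hn.mono (Nat.le_succ n))
  have hrl : ∀ P : Env R → Prop, Arith 𝒮 P → Rl 𝒮 P := by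
    intro P hP
    induction hP with
    | eq hs ht => exact (Bdd.eq hs ht).rl
    | lt hs ht => exact (Bdd.lt hs ht).rl
    | mem ht hA => exact (Bdd.mem ht hA).rl
    | not _ ih => exact ih.not
    | and _ _ ih1 ih2 => exact ih1.and ih2
    | all _ ih =>
      have h1 := Sg.ex ih.2
      have h2 := key _ h1
      refine Rl.congr (P := fun v => ¬ ∃ a, ¬ _) ⟨h2, h1.congr (fun v => not_not)⟩ (fun v => ?_)
      push Not
      rfl
  intro P hP v
  refine h.comp_rl (p := fun a => P (cons a v)) ((hrl P hP).psubst (σ := fun w => cons (w 0) v) ?_)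
  intro n
  cases n with
  | zero => exact Pol.var 0
  | succ n => exact Pol.const (v n)

end

end Pool.Agent.Thin
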