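import Pool.Agent.Thin.Isig

/-!
# The cut argument
-/

set_option autoImplicit false

namespace Pool.Agent.Thin

variable {R : Type} [CommRing R] [LinearOrder R] [IsStrictOrderedRing R]

/-- even numbers of the model -/
def Ev (x : NN R) : Prop := ∃ q, x = q + q

section

variable {𝒮 : Set (Set (NN R))} (h : RCA0 𝒮)

include h

theorem RCA0.rl_ev : Rl1 𝒮 (Ev (R := R)) := by
  refine (Rl.bex_le h (t := fun v => v 0) (P := fun q v => v 0 = q + q) (Fn.var 0)
    (Rl.eq (Fn.var 1) ((Fn.var 0).add (Fn.var 0)))).congr (fun v => ?_)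
  constructor
  · rintro ⟨q, hq⟩
    exact ⟨q, by rw [hq]; exact le_add_self' _ _, hq⟩
  · rintro ⟨q, _, hq⟩
    exact ⟨q, hq⟩

omit h in
theorem ev_zero : Ev (0 : NN R) := ⟨0, by simp⟩

theorem RCA0.ev_succ {x : NN R} : Ev (x + 1) ↔ ¬ Ev x := by
  have h2 : (0 : NN R) < 1 + 1 := lt_of_le_of_lt (zero_le' _) (lt_succ _)
  have h1 : (1 : NN R) < 1 + 1 := lt_succ _
  obtain ⟨r, hr, q, hq⟩ := h.exists_div x h2
  have key : ∀ y q r : NN R, r < 1 + 1 → y = q * (1 + 1) + r → (Ev y ↔ r = 0) := by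
    intro y q r hr e
    constructor
    · rintro ⟨p, hp⟩
      exact (h.div_unique hr h2 (q := q) (q' := p) (by rw [← e, hp]; ring)).2
    · rintro rfl
      exact ⟨q, by rw [e]; ring⟩
  rw [h.lt_succ_iff] at hr
  rcases eq_or_lt_of_le hr with rfl | hr
  · rw [key x q 1 h1 hq, key (x + 1) (q + 1) 0 h2 (by rw [hq]; ring)]
    simp
  · rw [← zero_add (1 : NN R), h.lt_succ_iff] at hr
    have hr0 : r = 0 := le_antisymm hr (zero_le' _)
    subst hr0
    rw [key x q 0 h2 hq, key (x + 1) q 1 h1 (by rw [hq]; ring)]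
    simp

open Classical in
/-- the recursion of the level processes -/
def SigRec (M : NN R → NN R) (σ : NN R → NN R → NN R) : Prop :=
  (∀ l, σ l 0 = 0) ∧ ∀ l j, σ l (j + 1) = if M j < l then 0 else
    if (M j = l ∧ ¬ Ev (σ l j)) ∨ (l < M j ∧ Ev (σ l j)) then σ l j + 1 else σ l j

theorem RCA0.exists_sig {M : NN R → NN R} (hM : Fn1 𝒮 M) :
    ∃ σ : NN R → NN R → NN R, Fn2 𝒮 σ ∧ SigRec M σ := by
  classical
  have hF : Fn3 𝒮 (fun l j y : NN R => if M j < l then 0 else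
      if (M j = l ∧ ¬ Ev y) ∨ (l < M j ∧ Ev y) then y + 1 else y) := by
    refine Fn.ite (Rl.lt (Fn1.app hM (Fn.var 1)) (Fn.var 0)) (Fn.const 0) (Fn.ite ?_ ?_ (Fn.var 2))
    · exact ((Rl.eq (Fn1.app hM (Fn.var 1)) (Fn.var 0)).and (Rl1.app h.rl_ev (Fn.var 2)).not).or
        ((Rl.lt (Fn.var 0) (Fn1.app hM (Fn.var 1))).and (Rl1.app h.rl_ev (Fn.var 2)))
    · exact (Fn.var 2).add (Fn.const 1)
  obtain ⟨σ, h1, h2, h3⟩ := h.prec1 (A := fun _ => 0) (Fn.const 0) hF
  refine ⟨σ, h1, h2, fun l j => ?_⟩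
  rw [h3]

omit h in
theorem sig_step {M : NN R → NN R} {σ : NN R → NN R → NN R} (hr : SigRec M σ) {l j : NN R}
    (hl : l ≤ M j) : σ l j ≤ σ l (j + 1) := by
  rw [hr.2, if_neg (not_lt.mpr hl)]
  split
  · exact (lt_succ _).le
  · exact le_rfl

theorem RCA0.sig_mono {M : NN R → NN R} {σ : NN R → NN R → NN R} (hσ : Fn2 𝒮 σ)
    (hr : SigRec M σ) {l j : NN R} (hl : ∀ k, j ≤ k → l ≤ M k) {k k' : NN R} (hk : j ≤ k)
    (hkk : k ≤ k') : σ l k ≤ σ l k' := by
  obtain ⟨s, rfl⟩ : ∃ s, k' = k + s := ⟨k' - k, (add_tsub_cancel_of_le hkk).symm⟩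
  clear hkk
  revert s
  refine h.ind_rl (p := fun s => σ l k ≤ σ l (k + s)) ?_ (by rw [add_zero]) ?_
  · exact Rl.le (Fn.const _) (Fn2.app hσ (Fn.const l) ((Fn.const k).add (Fn.var 0)))
  · intro s hs
    rw [← add_assoc]
    exact hs.trans (sig_step hr (hl _ (hk.trans le_self_add)))

theorem RCA0.cut_of_sig {M : NN R → NN R} (hM : Fn1 𝒮 M) {σ : NN R → NN R → NN R}
    (hσ : Fn2 𝒮 σ) (hr : SigRec M σ) {B : NN R} (hB : ∀ l j, σ l j < B) (hc0 : Cut M 0)
    (hcs : ∀ k, Cut M k → Cut M (k + 1)) (b : NN R) : Cut M b := by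
  by_contra hb
  obtain ⟨V, hV, hV0, hVs⟩ := h.prec1 (A := fun _ => 0) (F := fun j l y => y * B + σ l j)
    (Fn.const 0) (((Fn.var 2).mul (Fn.const B)).add (Fn2.app hσ (Fn.var 1) (Fn.var 0)))
  obtain ⟨W, hW, hW0, hWs⟩ := h.prec (a := 1) (F := fun _ y => y * B)
    ((Fn.var 1).mul (Fn.const B))
  have hVW : ∀ j l, V j l < W l := by
    intro j
    refine h.ind_rl (p := fun l => V j l < W l) ?_ ?_ ?_
    · exact Rl.lt (Fn2.app hV (Fn.const j) (Fn.var 0)) (Fn1.app hW (Fn.var 0))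
    · rw [hV0, hW0]; exact zero_lt_one
    · intro l hl
      rw [hVs, hWs]
      have h1 := hB l j
      rw [← h.succ_le_iff] at hl
      calc V j l * B + σ l j < V j l * B + B := add_lt_add_right h1 _
        _ = (V j l + 1) * B := by ring
        _ ≤ W l * B := mul_le_mul_of_nonneg_right hl (zero_le' _)
  have hcmp : ∀ j j' l, (∀ m, m < l → σ m j ≤ σ m j') → σ l j < σ l j' → l < b →
      V j b < V j' b := by
    intro j j' l hle hlt hlb
    have hA : ∀ m, m ≤ l → V j m ≤ V j' m := by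
      refine h.ind_rl (p := fun m => m ≤ l → V j m ≤ V j' m) ?_ ?_ ?_
      · exact (Rl.le (Fn.var 0) (Fn.const l)).imp (Rl.le (Fn2.app hV (Fn.const j) (Fn.var 0))
          (Fn2.app hV (Fn.const j') (Fn.var 0)))
      · intro _; rw [hV0, hV0]
      · intro m ih hm
        rw [h.succ_le_iff] at hm
        rw [hVs, hVs]
        exact add_le_add (mul_le_mul_of_nonneg_right (ih hm.le) (zero_le' _)) (hle m hm)
    have hC : ∀ s, V j (l + 1 + s) < V j' (l + 1 + s) := by
      refine h.ind_rl (p := fun s => V j (l + 1 + s) < V j' (l + 1 + s)) ?_ ?_ ?_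
      · exact Rl.lt (Fn2.app hV (Fn.const j) ((Fn.const (l + 1)).add (Fn.var 0)))
          (Fn2.app hV (Fn.const j') ((Fn.const (l + 1)).add (Fn.var 0)))
      · rw [add_zero, hVs, hVs]
        exact add_lt_add_of_le_of_lt (mul_le_mul_of_nonneg_right (hA l le_rfl) (zero_le' _)) hlt
      · intro s hs
        rw [← add_assoc, hVs, hVs]
        rw [← h.succ_le_iff] at hs
        calc V j (l + 1 + s) * B + σ (l + 1 + s) j < V j (l + 1 + s) * B + B :=
              add_lt_add_right (hB _ _) _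
          _ = (V j (l + 1 + s) + 1) * B := by ring
          _ ≤ V j' (l + 1 + s) * B := mul_le_mul_of_nonneg_right hs (zero_le' _)
          _ ≤ V j' (l + 1 + s) * B + σ (l + 1 + s) j' := le_self_add
    have h1 := hC (b - (l + 1))
    rwa [add_tsub_cancel_of_le (h.succ_le_iff.mpr hlb)] at h1
  obtain ⟨t, ht⟩ := h.unbounded (g := fun j => V j b) (Fn2.app hV (Fn.var 0) (Fn.const b)) (by
    intro j
    obtain ⟨l, ⟨k0, hk0, hl⟩, hmin⟩ := h.least_sg (p := fun l => ∃ k, j ≤ k ∧ M k = l) (by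
      have h1 : Rl 𝒮 (fun w : Env R => j ≤ w 0 ∧ M (w 0) = w 1) :=
        (Rl.le (Fn.const j) (Fn.var 0)).and (Rl.eq (Fn1.app hM (Fn.var 0)) (Fn.var 1))
      exact (Sg.ex h1.1).congr (fun v => by simp)) ⟨M j, j, le_rfl, rfl⟩
    have hge : ∀ k, j ≤ k → l ≤ M k := by
      intro k hk
      by_contra hc
      exact hmin (M k) (not_le.mp hc) ⟨k, hk, rfl⟩
    have hcl : Cut M l := by
      rcases h.eq_zero_or (a := l) with h0 | ⟨m, hm⟩
      · rw [h0]; exact hc0
      · rw [hm]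
        apply hcs
        refine ⟨j, fun k hk => ?_⟩
        have := hge k hk
        rwa [hm, h.succ_le_iff] at this
    have hlb : l < b := by
      by_contra hc
      rw [not_lt] at hc
      obtain ⟨t, ht⟩ := hcl
      exact hb ⟨t, fun k hk => lt_of_le_of_lt hc (ht k hk)⟩
    obtain ⟨t, ht⟩ := hcl
    refine ⟨k0 + 1 + t + 1, hcmp _ _ l ?_ ?_ hlb⟩
    · intro m hm
      refine h.sig_mono hσ hr (fun k hk => hm.le.trans (hge k hk)) le_rfl ?_
      refine hk0.trans ?_
      rw [add_assoc, add_assoc]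
      exact le_self_add
    · by_contra hc
      rw [not_lt] at hc
      have e0 : k0 ≤ k0 + 1 := (lt_succ k0).le
      have e1 : k0 + 1 ≤ k0 + 1 + t := le_self_add
      have e2 : k0 + 1 + t ≤ k0 + 1 + t + 1 := (lt_succ _).le
      have m0 := h.sig_mono hσ hr hge le_rfl hk0
      have m1 := h.sig_mono hσ hr hge hk0 e0
      have m2 := h.sig_mono hσ hr hge (hk0.trans e0) e1
      have m3 := h.sig_mono hσ hr hge ((hk0.trans e0).trans e1) e2
      have s0 : σ l k0 = σ l j := le_antisymm ((m1.trans (m2.trans m3)).trans hc) m0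
      have s1 : σ l (k0 + 1) = σ l j :=
        le_antisymm ((m2.trans m3).trans hc) (m0.trans m1)
      have s2 : σ l (k0 + 1 + t) = σ l j :=
        le_antisymm (m3.trans hc) ((m0.trans m1).trans m2)
      have s3 : σ l (k0 + 1 + t + 1) = σ l j :=
        le_antisymm hc (((m0.trans m1).trans m2).trans m3)
      have hev : Ev (σ l j) := by
        by_contra hne
        have h5 := hr.2 l k0
        rw [if_neg (not_lt.mpr hl.ge), s0, s1, if_pos (Or.inl ⟨hl, hne⟩)] at h5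
        exact absurd h5 (ne_of_lt (lt_succ _))
      have h6 := hr.2 l (k0 + 1 + t)
      have h7 : l < M (k0 + 1 + t) := ht _ (le_add_self' _ _)
      rw [if_neg (not_lt.mpr h7.le), s2, s3, if_pos (Or.inr ⟨h7, hev⟩)] at h6
      exact absurd h6 (ne_of_lt (lt_succ _))) (W b)
  exact absurd (hVW t b) (not_lt.mpr ht)

end

end Pool.Agent.Thin
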