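import Mathlib

/-!
# MP_b345c4_lc: models of RCA₀, thin-HT and Σ⁰₂ induction: definitions

The numbers of a model are the non-negative elements of a discretely ordered commutative ring `R`
(the models of PA⁻ are exactly the non-negative parts of discretely ordered commutative rings);
the sets of a model are the members of `𝒮`.
-/

set_option autoImplicit false

namespace Pool.Agent.Thin

/-- The numbers of the model. -/
abbrev NN (R : Type) [CommRing R] [LinearOrder R] [IsStrictOrderedRing R] : Type := {x : R // 0 ≤ x}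

/-- Assignments of numbers to the variables `0, 1, 2, …`. -/
abbrev Env (R : Type) [CommRing R] [LinearOrder R] [IsStrictOrderedRing R] : Type := ℕ → NN R

variable {R : Type} [CommRing R] [LinearOrder R] [IsStrictOrderedRing R]

/-- Put a value in front of an assignment. -/
def cons (a : NN R) (v : Env R) : Env R
  | 0 => a
  | n + 1 => v n

/-- Forget the first value of an assignment. -/
def tail (v : Env R) : Env R := fun n => v (n + 1)

/-- Terms (polynomials with parameters from the model). -/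
inductive Pol : (Env R → NN R) → Prop
  | var (n : ℕ) : Pol (fun v => v n)
  | const (c : NN R) : Pol (fun _ => c)
  | add {s t : Env R → NN R} : Pol s → Pol t → Pol (fun v => s v + t v)
  | mul {s t : Env R → NN R} : Pol s → Pol t → Pol (fun v => s v * t v)

/-- The relations defined by bounded quantifier formulas (`Σ⁰₀` formulas) with number parameters
from the model and set parameters from `𝒮`. -/
inductive Bdd (𝒮 : Set (Set (NN R))) : (Env R → Prop) → Prop
  | eq {s t : Env R → NN R} : Pol s → Pol t → Bdd 𝒮 (fun v => s v = t v)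
  | lt {s t : Env R → NN R} : Pol s → Pol t → Bdd 𝒮 (fun v => s v < t v)
  | mem {t : Env R → NN R} {A : Set (NN R)} : Pol t → A ∈ 𝒮 → Bdd 𝒮 (fun v => t v ∈ A)
  | not {P : Env R → Prop} : Bdd 𝒮 P → Bdd 𝒮 (fun v => ¬ P v)
  | and {P Q : Env R → Prop} : Bdd 𝒮 P → Bdd 𝒮 Q → Bdd 𝒮 (fun v => P v ∧ Q v)
  | ball {t : Env R → NN R} {P : Env R → Prop} : Pol t → Bdd 𝒮 P →
      Bdd 𝒮 (fun v => ∀ a : NN R, a < t v → P (cons a v))

/-- `(R, 𝒮)` is a model of `RCA₀`: the ring is discretely ordered, and induction for `Σ⁰₁` formulas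
and comprehension for `Δ⁰₁` formulas hold (with parameters: the assignment `v` gives the number
parameters). -/
structure RCA0 (𝒮 : Set (Set (NN R))) : Prop where
  disc : ∀ x : R, 0 < x → 1 ≤ x
  ind : ∀ P : Env R → Prop, Bdd 𝒮 P → ∀ v : Env R, (∃ b, P (cons b (cons 0 v))) →
    (∀ a, (∃ b, P (cons b (cons a v))) → ∃ b, P (cons b (cons (a + 1) v))) →
    ∀ a, ∃ b, P (cons b (cons a v))
  comp : ∀ P Q : Env R → Prop, Bdd 𝒮 P → Bdd 𝒮 Q → ∀ v : Env R,
    (∀ a, (∃ b, P (cons b (cons a v))) ↔ ¬ ∃ b, Q (cons b (cons a v))) →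
    {a | ∃ b, P (cons b (cons a v))} ∈ 𝒮

/-- Induction for `Σ⁰₂` formulas. -/
def ISigma2 (𝒮 : Set (Set (NN R))) : Prop :=
  ∀ P : Env R → Prop, Bdd 𝒮 P → ∀ v : Env R, (∃ y, ∀ z, P (cons z (cons y (cons 0 v)))) →
    (∀ a, (∃ y, ∀ z, P (cons z (cons y (cons a v)))) →
      ∃ y, ∀ z, P (cons z (cons y (cons (a + 1) v)))) →
    ∀ a, ∃ y, ∀ z, P (cons z (cons y (cons a v)))

/-- The relations defined by arithmetical formulas with number parameters from the model and set
parameters from `𝒮`. -/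
inductive Arith (𝒮 : Set (Set (NN R))) : (Env R → Prop) → Prop
  | eq {s t : Env R → NN R} : Pol s → Pol t → Arith 𝒮 (fun v => s v = t v)
  | lt {s t : Env R → NN R} : Pol s → Pol t → Arith 𝒮 (fun v => s v < t v)
  | mem {t : Env R → NN R} {A : Set (NN R)} : Pol t → A ∈ 𝒮 → Arith 𝒮 (fun v => t v ∈ A)
  | not {P : Env R → Prop} : Arith 𝒮 P → Arith 𝒮 (fun v => ¬ P v)
  | and {P Q : Env R → Prop} : Arith 𝒮 P → Arith 𝒮 Q → Arith 𝒮 (fun v => P v ∧ Q v)
  | all {P : Env R → Prop} : Arith 𝒮 P → Arith 𝒮 (fun v => ∀ a : NN R, P (cons a v))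

/-- Comprehension for arithmetical formulas. -/
def ArithComp (𝒮 : Set (Set (NN R))) : Prop :=
  ∀ P : Env R → Prop, Arith 𝒮 P → ∀ v : Env R, {a | P (cons a v)} ∈ 𝒮

/-- The code of a pair. -/
def pr (x y : NN R) : NN R := (x + y) * (x + y) + x

/-- The function `f` belongs to the model. -/
def FunIn (𝒮 : Set (Set (NN R))) (f : NN R → NN R) : Prop := {p | ∃ x, p = pr x (f x)} ∈ 𝒮

/-- `S` is infinite in the sense of the model. -/
def Unbdd (S : Set (NN R)) : Prop := ∀ b, ∃ x ∈ S, b ≤ x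

open Classical in
/-- `FS(S)` in the model: the sums of the nonempty bounded sets `F ⊆ S` of the model; `g` is the
function of partial sums. -/
def FSin (𝒮 : Set (Set (NN R))) (S : Set (NN R)) : Set (NN R) :=
  {x | ∃ F ∈ 𝒮, F ⊆ S ∧ F.Nonempty ∧ ∃ b, (∀ y ∈ F, y < b) ∧ ∃ g : NN R → NN R,
    FunIn 𝒮 g ∧ g 0 = 0 ∧ (∀ n, g (n + 1) = g n + if n ∈ F then n else 0) ∧ x = g b}

/-- The principle thin-HT. -/
def ThinHT (𝒮 : Set (Set (NN R))) : Prop :=
  ∀ c : NN R → NN R, FunIn 𝒮 c →
    ∃ S ∈ 𝒮, Unbdd S ∧ ∃ i, ∀ x ∈ FSin 𝒮 S, c x ≠ i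

end Pool.Agent.Thin
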