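import Pool.Agent.Thin.Beta

/-!
# From the cut lemma to `Σ⁰₂` induction
-/

set_option autoImplicit false

namespace Pool.Agent.Thin

variable {R : Type} [CommRing R] [LinearOrder R] [IsStrictOrderedRing R]

/-- `k` belongs to the cut of `G`: eventually `G` is larger than `k` -/
def Cut (G : NN R → NN R) (k : NN R) : Prop := ∃ t, ∀ t', t ≤ t' → k < G t'

/-- every cut of this form which contains `0` and is closed under successor is everything -/
def CutLemma (𝒮 : Set (Set (NN R))) : Prop :=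
  ∀ G : NN R → NN R, Fn1 𝒮 G → Cut G 0 → (∀ k, Cut G k → Cut G (k + 1)) → ∀ k, Cut G k

section

variable {𝒮 : Set (Set (NN R))} (h : RCA0 𝒮)

include h

theorem RCA0.exists_minE {Q : NN R → Env R → Prop} (hQ : Rl 𝒮 (fun w => Q (w 0) (tail w)))
    (hex : ∀ v, ∃ y, Q y v) :
    ∃ f : Env R → NN R, Fn 𝒮 f ∧ ∀ v, Q (f v) v ∧ ∀ y, y < f v → ¬ Q y v := by
  have h1 : ∀ v, ∃ y, Q y v ∧ ∀ z, z < y → ¬ Q z v := by
    intro v
    refine h.least (p := fun y => Q y v) ?_ (hex v)
    refine (hQ.psubst (σ := fun w => cons (w 0) v) ?_).congr (fun w => by simp)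
    intro n
    cases n with
    | zero => exact Pol.var 0
    | succ n => exact Pol.const (v n)
  choose f hf using h1
  refine ⟨f, ?_, hf⟩
  have h2 : Rl 𝒮 (fun w => Q (w 0) (tail w) ∧ ∀ z, z < w 0 → ¬ Q z (tail w)) := by
    refine hQ.and (Rl.ball h (Fn.var 0) (P := fun z w => ¬ Q z (tail w)) (Rl.not ?_))
    refine (hQ.psubst (σ := fun w => cons (w 0) (tail (tail w))) ?_).congr (fun w => by simp)
    intro n
    cases n with
    | zero => exact Pol.var 0
    | succ n => exact Pol.var (n + 2)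
  refine Fn.of_graph h2.1 (fun v z => ?_)
  simp only [cons_zero, tail_cons]
  constructor
  · rintro ⟨h3, h4⟩
    rcases lt_trichotomy z (f v) with h5 | h5 | h5
    · exact absurd h3 ((hf _).2 z h5)
    · exact h5
    · exact absurd (hf _).1 (h4 _ h5)
  · rintro rfl
    exact hf _

theorem RCA0.exists_min2 {p : NN R → NN R → NN R → Prop} (hp : Rl3 𝒮 p)
    (hex : ∀ x x', ∃ y, p x x' y) :
    ∃ f : NN R → NN R → NN R, Fn2 𝒮 f ∧ ∀ x x', p x x' (f x x') ∧ ∀ y, y < f x x' → ¬ p x x' y := by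
  obtain ⟨f, hf, h1⟩ := h.exists_minE (Q := fun y v => p (v 0) (v 1) y)
    (Rl3.app hp (Fn.var 1) (Fn.var 2) (Fn.var 0)) (fun v => hex _ _)
  refine ⟨fun x x' => f (cons x (cons x' (fun _ => 0))), ?_,
    fun x x' => h1 (cons x (cons x' (fun _ => 0)))⟩
  refine hf.psubst (σ := fun w => cons (w 0) (cons (w 1) (fun _ => 0))) ?_
  intro n
  rcases n with _ | _ | n
  · exact Pol.var 0
  · exact Pol.var 1
  · exact Pol.const 0

/-- a function without a largest value is unbounded -/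
theorem RCA0.unbounded {g : NN R → NN R} (hg : Fn1 𝒮 g) (hstep : ∀ t, ∃ t', g t < g t')
    (n : NN R) : ∃ t, n ≤ g t := by
  revert n
  refine h.ind_sg (p := fun n => ∃ t, n ≤ g t) ?_ ⟨0, zero_le' _⟩ ?_
  · have h1 : Rl 𝒮 (fun w : Env R => w 1 ≤ g (w 0)) := Rl.le (Fn.var 1) (Fn1.app hg (Fn.var 0))
    exact (Sg.ex h1.1).congr (fun v => by simp)
  · rintro n ⟨t, ht⟩
    obtain ⟨t', ht'⟩ := hstep t
    exact ⟨t', h.succ_le_iff.mpr (lt_of_le_of_lt ht ht')⟩

theorem isigma2_of_cutLemma (hcut : CutLemma 𝒮) : ISigma2 𝒮 := by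
  intro P hP v hbase hstep
  -- the relation
  have hθ : Rl3 𝒮 (fun k u z => P (cons z (cons u (cons k v)))) := by
    refine (hP.subst (σ := fun w => cons (w 2) (cons (w 1) (cons (w 0) v))) ?_).rl
    intro n
    rcases n with _ | _ | _ | n
    · exact Pol.var 2
    · exact Pol.var 1
    · exact Pol.var 0
    · exact Pol.const (v n)
  set θ : NN R → NN R → NN R → Prop := fun k u z => P (cons z (cons u (cons k v))) with hθdef
  obtain ⟨U, hU, hUs⟩ := h.exists_min2 (p := fun t k u => t ≤ u ∨ ∀ z, z ≤ t → θ k u z) (by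
    refine (Rl.le (Fn.var 0) (Fn.var 2)).or (Rl.ball_le h (Fn.var 0) ?_)
    exact Rl3.app hθ (Fn.var 2) (Fn.var 3) (Fn.var 0)) (fun t _ => ⟨t, Or.inl le_rfl⟩)
  obtain ⟨G, hG, hGs⟩ := h.exists_min (p := fun t k => t ≤ k ∨ U (t + 1) k ≠ U t k) (by
    refine (Rl.le (Fn.var 0) (Fn.var 1)).or (Rl.not (Rl.eq ?_ ?_))
    · exact Fn2.app hU ((Fn.var 0).add (Fn.const 1)) (Fn.var 1)
    · exact Fn2.app hU (Fn.var 0) (Fn.var 1)) (fun t => ⟨t, Or.inl le_rfl⟩)
  have hmono : ∀ k t t', t ≤ t' → U t k ≤ U t' k := by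
    intro k t t' htt
    by_contra hc
    rw [not_le] at hc
    apply (hUs t k).2 _ hc
    rcases (hUs t' k).1 with h1 | h1
    · exact Or.inl (htt.trans h1)
    · exact Or.inr (fun z hz => h1 z (hz.trans htt))
  -- (1)
  have h1 : ∀ k, (∃ u, ∀ z, θ k u z) → ∃ t, ∀ t', t ≤ t' → U t' k = U t k := by
    rintro k ⟨u, hu⟩
    by_contra hcon
    push Not at hcon
    obtain ⟨t, ht⟩ := h.unbounded (g := fun t => U t k) (Fn2.app hU (Fn.var 0) (Fn.const k))
      (fun t => by
        obtain ⟨t', h2, h3⟩ := hcon t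
        exact ⟨t', lt_of_le_of_ne (hmono k t t' h2) (Ne.symm h3)⟩) (u + 1)
    rw [h.succ_le_iff] at ht
    exact (hUs t k).2 u ht (Or.inr (fun z _ => hu z))
  -- (2)
  have h2 : ∀ k, Cut G k → ∃ u, ∀ z, θ k u z := by
    rintro k ⟨t, ht⟩
    have hst : ∀ t', t ≤ t' → U (t' + 1) k = U t' k := by
      intro t' htt
      by_contra hc
      exact (hGs t').2 k (ht t' htt) (Or.inr hc)
    have hconst : ∀ s, U (t + s) k = U t k := by
      refine h.ind_rl (p := fun s => U (t + s) k = U t k) ?_ (by rw [add_zero]) ?_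
      · exact Rl.eq (Fn2.app hU ((Fn.const t).add (Fn.var 0)) (Fn.const k)) (Fn.const _)
      · intro s hs
        rw [← add_assoc, hst _ (le_self_add), hs]
    refine ⟨U t k, fun z => ?_⟩
    have h3 := (hUs (t + (z + U t k + 1)) k).1
    rw [hconst] at h3
    rcases h3 with h3 | h3
    · exfalso
      rw [← Subtype.coe_le_coe] at h3
      push_cast at h3
      linarith [t.2, z.2]
    · apply h3
      rw [← Subtype.coe_le_coe]
      push_cast
      linarith [t.2, (U t k).2]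
  -- (3)
  have h3 : Cut G 0 := by
    obtain ⟨t, ht⟩ := h1 0 hbase
    refine ⟨t + 1, fun t' htt => ?_⟩
    rw [h.succ_le_iff] at htt
    apply pos_of_ne
    intro h0
    have h4 := (hGs t').1
    rw [h0] at h4
    rcases h4 with h4 | h4
    · exact absurd (lt_of_lt_of_le htt h4) (not_lt_zero' t)
    · exact h4 (by rw [ht t' htt.le, ht (t' + 1) (htt.le.trans (lt_succ t').le)])
  -- (4)
  have h4 : ∀ k, Cut G k → Cut G (k + 1) := by
    intro k hk
    obtain ⟨t2, ht2⟩ := h1 (k + 1) (hstep k (h2 k hk))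
    obtain ⟨t1, ht1⟩ := hk
    refine ⟨t1 + t2 + (k + 1) + 1, fun t' htt => ?_⟩
    have hle : t1 ≤ t' ∧ t2 ≤ t' ∧ k + 1 < t' := by
      rw [← Subtype.coe_le_coe] at htt
      rw [← Subtype.coe_le_coe, ← Subtype.coe_le_coe, ← Subtype.coe_lt_coe]
      push_cast at htt ⊢
      refine ⟨?_, ?_, ?_⟩ <;> linarith [t1.2, t2.2, k.2]
    have h5 := ht1 t' hle.1
    rw [← h.succ_le_iff] at h5
    rcases eq_or_lt_of_le h5 with h6 | h6
    · exfalso
      have h7 := (hGs t').1
      rw [← h6] at h7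
      rcases h7 with h7 | h7
      · exact absurd hle.2.2 (not_lt.mpr h7)
      · exact h7 (by rw [ht2 t' hle.2.1, ht2 (t' + 1) (hle.2.1.trans (lt_succ t').le)])
    · exact h6
  intro a
  exact h2 a (hcut G hG h3 h4 a)

end

end Pool.Agent.Thin
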