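import Pool.Agent.Thin.Colour

/-!
# The invariant of the level processes
-/

set_option autoImplicit false

namespace Pool.Agent.Thin

variable {R : Type} [CommRing R] [LinearOrder R] [IsStrictOrderedRing R]

open Classical in
/-- the sum chosen by the level process -/
def YRec (M t : NN R → NN R) (σ : NN R → NN R → NN R) (l : NN R) (y : NN R → NN R) : Prop :=
  y 0 = 0 ∧ ∀ j, y (j + 1) = if M j < l then 0 else if l < M j ∧ Ev (σ l j) then y j + t j else y j

/-- the invariant -/
structure Inv (G e a : NN R → NN R) (σ : NN R → NN R → NN R) (l : NN R) (y : NN R → NN R)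
    (K : NN R → NN R → NN R) (j : NN R) : Prop where
  lt : y j < e (a j)
  z : σ l j = 0 → y j = 0
  nz : ¬ σ l j = 0 → ¬ y j = 0
  ev : Ev (σ l j) → ¬ σ l j = 0 → K (y j) (a j) + K (y j) (a j) + 1 + 1 = σ l j ∧
    ∃ s, s < a j ∧ (G s = l ∧ (∀ u, u < a j → (s < u → ¬ bit e u (y j))) ∧
      ∃ u, u ≤ s ∧ bit e u (y j))
  odd : ¬ Ev (σ l j) → K (y j) (a j) + K (y j) (a j) + 1 = σ l j
  ge : ∀ s, s < a j → ((∃ u, u ≤ s ∧ bit e u (y j)) → l ≤ G s)

section

variable {𝒮 : Set (Set (NN R))} (h : RCA0 𝒮)

include h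

theorem RCA0.exists_y {M t : NN R → NN R} (hM : Fn1 𝒮 M) (ht : Fn1 𝒮 t)
    {σ : NN R → NN R → NN R} (hσ : Fn2 𝒮 σ) (l : NN R) :
    ∃ y, Fn1 𝒮 y ∧ YRec M t σ l y := by
  classical
  obtain ⟨y, h1, h2, h3⟩ := h.prec (a := 0) (F := fun j y => if M j < l then 0 else
      if l < M j ∧ Ev (σ l j) then y + t j else y)
    (Fn.ite (Rl.lt (Fn1.app hM (Fn.var 0)) (Fn.const l)) (Fn.const 0)
      (Fn.ite ((Rl.lt (Fn.const l) (Fn1.app hM (Fn.var 0))).and
        (Rl1.app h.rl_ev (Fn2.app hσ (Fn.const l) (Fn.var 0))))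
        ((Fn.var 1).add (Fn1.app ht (Fn.var 0))) (Fn.var 1)))
  refine ⟨y, h1, h2, fun j => ?_⟩
  rw [h3]

variable {G e : NN R → NN R} (hG : Fn1 𝒮 G) (he : Fn1 𝒮 e) (hE : IsExp e)
  {S : Set (NN R)} {a t : NN R → NN R} (hA : Apart 𝒮 S e a t)
  {M : NN R → NN R} (hM1 : ∀ j s, a j ≤ s → s < a (j + 1) → M j ≤ G s)
  (hM2 : ∀ j, ∃ s, a j ≤ s ∧ s < a (j + 1) ∧ G s = M j)
  {σ : NN R → NN R → NN R} (hσ : Fn2 𝒮 σ) (hr : SigRec M σ) {l : NN R}
  {y : NN R → NN R} (hy : Fn1 𝒮 y) (hyr : YRec M t σ l y)
  {K : NN R → NN R → NN R} (hK : Fn2 𝒮 K) (hKc : ∀ x, IsCount (Gap G e l x) (K x))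

include hG he hE hA hM1 hM2 hσ hr hy hyr hK hKc

theorem RCA0.inv (j : NN R) : Inv G e a σ l y K j := by
  have hb := h.rl_bit he
  have hK1 : ∀ x, Fn1 𝒮 (K x) := fun x => Fn2.app hK (Fn.const x) (Fn.var 0)
  -- counts do not change without digits
  have hKst : ∀ x u w, u ≤ w → (∀ n, u ≤ n → n < w → ¬ bit e n x) → K x w = K x u :=
    fun x u w huw hn => h.count_const (hK1 x) (hKc x) huw (fun n h1 h2 h3 => hn n h1 h2 h3.1)
  have hhigh : ∀ x u w, x < e u → K x w = K x u ∨ w < u := by
    intro x u w hx
    rcases le_or_gt u w with h1 | h1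
    · left
      exact hKst x u w h1 (fun n h2 _ => h.not_bit_of_lt he hE hx h2)
    · right; exact h1
  have haj : ∀ j, a j < a (j + 1) := h.apart_lt he hE hA
  revert j
  refine h.ind_rl (p := fun j => Inv G e a σ l y K j) ?_ ?_ ?_
  · -- definability
    have c1 : Rl1 𝒮 (fun j => y j < e (a j)) := Rl.lt hy (Fn1.app he hA.fa)
    have hσ1 : Fn1 𝒮 (fun j => σ l j) := Fn2.app hσ (Fn.const l) (Fn.var 0)
    have hKy : Fn1 𝒮 (fun j => K (y j) (a j)) := Fn2.app hK hy hA.fa
    have c0 : Rl1 𝒮 (fun j => σ l j = 0) := Rl.eq hσ1 (Fn.const 0)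
    have c2 : Rl1 𝒮 (fun j => y j = 0) := Rl.eq hy (Fn.const 0)
    have c3 : Rl1 𝒮 (fun j => Ev (σ l j)) := Rl1.app h.rl_ev hσ1
    have c4 : Rl1 𝒮 (fun j => K (y j) (a j) + K (y j) (a j) + 1 + 1 = σ l j) :=
      Rl.eq (((Fn.add hKy hKy).add (Fn.const 1)).add (Fn.const 1)) hσ1
    have c5 : Rl1 𝒮 (fun j => K (y j) (a j) + K (y j) (a j) + 1 = σ l j) :=
      Rl.eq ((Fn.add hKy hKy).add (Fn.const 1)) hσ1
    have c6 : Rl1 𝒮 (fun j => ∃ s, s < a j ∧ (G s = l ∧
        (∀ u, u < a j → (s < u → ¬ bit e u (y j))) ∧ ∃ u, u ≤ s ∧ bit e u (y j))) := by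
      refine Rl.bex h hA.fa ((Rl.eq (Fn1.app hG (Fn.var 0)) (Fn.const l)).and (Rl.and ?_ ?_))
      · exact Rl.ball h (Fn1.app hA.fa (Fn.var 1)) ((Rl.lt (Fn.var 1) (Fn.var 0)).imp
          (Rl2.app hb (Fn.var 0) (Fn1.app hy (Fn.var 2))).not)
      · exact Rl.bex_le h (Fn.var 0) (Rl2.app hb (Fn.var 0) (Fn1.app hy (Fn.var 2)))
    have c7 : Rl1 𝒮 (fun j => ∀ s, s < a j → ((∃ u, u ≤ s ∧ bit e u (y j)) → l ≤ G s)) := by
      refine Rl.ball h hA.fa (Rl.imp (Rl.bex_le h (Fn.var 0)
        (Rl2.app hb (Fn.var 0) (Fn1.app hy (Fn.var 2)))) (Rl.le (Fn.const l) (Fn1.app hG (Fn.var 0))))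
    refine (c1.and ((Rl.imp c0 c2).and ((Rl.imp c0.not c2.not).and
      ((Rl.imp c3 (Rl.imp c0.not (Rl.and c4 c6))).and ((Rl.imp c3.not c5).and c7))))).congr
      (fun v => ?_)
    constructor
    · rintro ⟨h1, h2, h3, h4, h5, h6⟩; exact ⟨h1, h2, h3, h4, h5, h6⟩
    · rintro ⟨h1, h2, h3, h4, h5, h6⟩; exact ⟨h1, h2, h3, h4, h5, h6⟩
  · -- zero
    have hy0 := hyr.1
    have hs0 := hr.1 l
    refine ⟨?_, fun _ => hy0, fun h1 => absurd hs0 h1, fun _ h1 => absurd hs0 h1, fun h1 => ?_, ?_⟩
    · rw [hy0]; exact h.exp_pos he hE _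
    · rw [hs0] at h1; exact absurd ev_zero h1
    · rintro s _ ⟨u, _, hu⟩
      rw [hy0] at hu
      exact absurd hu (h.not_bit_zero he hE u)
  · -- successor
    intro j I
    have hylt : y j < e (a (j + 1)) := lt_of_lt_of_le I.lt (h.exp_mono he hE (haj j).le)
    have hKsame : K (y j) (a (j + 1)) = K (y j) (a j) :=
      hKst _ _ _ (haj j).le (fun n h2 _ => h.not_bit_of_lt he hE I.lt h2)
    have hge : ¬ M j < l → ∀ s, s < a (j + 1) → ((∃ u, u ≤ s ∧ bit e u (y j)) → l ≤ G s) := by
      intro h1 s hs hu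
      rcases lt_or_ge s (a j) with h2 | h2
      · exact I.ge s h2 hu
      · exact (not_lt.mp h1).trans (hM1 j s h2 hs)
    have hs1 := hr.2 l j
    have hy1 := hyr.2 j
    by_cases hc1 : M j < l
    · -- reset
      rw [if_pos hc1] at hs1 hy1
      refine ⟨?_, fun _ => hy1, fun h1 => absurd hs1 h1, fun _ h1 => absurd hs1 h1,
        fun h1 => ?_, ?_⟩
      · rw [hy1]; exact h.exp_pos he hE _
      · rw [hs1] at h1; exact absurd ev_zero h1
      · rintro s _ ⟨u, _, hu⟩
        rw [hy1] at hu
        exact absurd hu (h.not_bit_zero he hE u)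
    · rw [if_neg hc1] at hs1 hy1
      by_cases hc2 : M j = l
      · -- label l in the region
        have hc3 : ¬ (l < M j ∧ Ev (σ l j)) := fun h1 => absurd h1.1 (by rw [hc2]; exact lt_irrefl l)
        rw [if_neg hc3] at hy1
        by_cases hev : Ev (σ l j)
        · have hc4 : ¬ ((M j = l ∧ ¬ Ev (σ l j)) ∨ (l < M j ∧ Ev (σ l j))) := by
            rintro (h1 | h1)
            · exact h1.2 hev
            · exact hc3 h1
          rw [if_neg hc4] at hs1
          refine ⟨?_, ?_, ?_, ?_, ?_, ?_⟩
          · rw [hy1]; exact hylt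
          · rw [hs1, hy1]; exact I.z
          · rw [hs1, hy1]; exact I.nz
          · rw [hs1, hy1, hKsame]
            intro _ h2
            obtain ⟨h3, s, h4, h5, h6, h7⟩ := I.ev hev h2
            refine ⟨h3, s, h4.trans (haj j), h5, fun u hu hsu => ?_, h7⟩
            rcases lt_or_ge u (a j) with h8 | h8
            · exact h6 u h8 hsu
            · exact h.not_bit_of_lt he hE I.lt h8
          · rw [hs1]; intro h1; exact absurd hev h1
          · rw [hy1]; exact hge hc1
        · rw [if_pos (Or.inl ⟨hc2, hev⟩)] at hs1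
          have hnz : ¬ σ l j = 0 := fun h1 => hev (by rw [h1]; exact ev_zero)
          refine ⟨?_, ?_, ?_, ?_, ?_, ?_⟩
          · rw [hy1]; exact hylt
          · rw [hs1]; intro h1
            exact absurd h1 (ne_of_gt (lt_of_le_of_lt (zero_le' _) (lt_succ _)))
          · rw [hs1, hy1]; intro _; exact I.nz hnz
          · rw [hs1, hy1, hKsame]
            intro _ _
            refine ⟨by rw [I.odd hev], ?_⟩
            obtain ⟨s, h1, h2, h3⟩ := hM2 j
            refine ⟨s, h2, h3.trans hc2, fun u _ hsu => ?_, ?_⟩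
            · exact h.not_bit_of_lt he hE I.lt (h1.trans hsu.le)
            · obtain ⟨u, hu⟩ := h.exists_bit he hE (I.nz hnz)
              have h4 : u < a j := by
                by_contra hc
                exact h.not_bit_of_lt he hE I.lt (not_lt.mp hc) hu
              exact ⟨u, (h4.trans_le h1).le, hu⟩
          · rw [hs1]; intro h1
            exact absurd (h.ev_succ.mpr hev) h1
          · rw [hy1]; exact hge hc1
      · have hlM : l < M j := lt_of_le_of_ne (not_lt.mp hc1) (Ne.symm hc2)
        by_cases hev : Ev (σ l j)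
        · -- new block
          rw [if_pos (Or.inr ⟨hlM, hev⟩)] at hs1
          rw [if_pos ⟨hlM, hev⟩] at hy1
          obtain ⟨c, hc⟩ := hA.dvd j
          have htpos := hA.pos j
          have htne : ¬ t j = 0 := ne_of_gt htpos
          have hlow : ∀ n, n < a j → (bit e n (y j + t j) ↔ bit e n (y j)) :=
            fun n hn => h.bit_low he hE hc hn
          have hhi : ∀ n, a j ≤ n → (bit e n (y j + t j) ↔ bit e n (t j)) :=
            fun n hn => h.bit_high he hE I.lt hc hn
          obtain ⟨b, hbt, hbmin⟩ := h.least (p := fun n => bit e n (t j))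
            (Rl2.app hb (Fn.var 0) (Fn.const _)) (h.exists_bit he hE htne)
          have hab : a j ≤ b := by
            by_contra hcon
            exact h.not_bit_of_dvd he hE hc (not_le.mp hcon) hbt
          have hba : b < a (j + 1) := by
            by_contra hcon
            exact h.not_bit_of_lt he hE (hA.lt j) (not_lt.mp hcon) hbt
          have hKlow : K (y j + t j) (a j) = K (y j) (a j) := by
            apply h.count_congr (hK1 _) (hKc _) (hK1 _) (hKc _)
            intro n hn
            constructor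
            · rintro ⟨h1, s, h2, h3, h4, u, h5, h6⟩
              exact ⟨(hlow n hn).1 h1, s, h2, h3, fun u hu hsu hbu =>
                h4 u hu hsu ((hlow u (hu.trans hn)).2 hbu), u, h5,
                (hlow u ((lt_of_le_of_lt h5 h2).trans hn)).1 h6⟩
            · rintro ⟨h1, s, h2, h3, h4, u, h5, h6⟩
              exact ⟨(hlow n hn).2 h1, s, h2, h3, fun u hu hsu hbu =>
                h4 u hu hsu ((hlow u (hu.trans hn)).1 hbu), u, h5,
                (hlow u ((lt_of_le_of_lt h5 h2).trans hn)).2 h6⟩
          have hsne : ¬ σ l j + 1 = 0 := ne_of_gt (lt_of_le_of_lt (zero_le' _) (lt_succ _))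
          -- the size of the new sum
          have hsz : y j + t j < e (a (j + 1)) := by
            obtain ⟨s, hs⟩ : ∃ s, a (j + 1) = a j + s :=
              ⟨a (j + 1) - a j, (add_tsub_cancel_of_le (haj j).le).symm⟩
            have h1 := hA.lt j
            rw [hs, h.exp_add he hE] at h1 ⊢
            rw [hc] at h1 ⊢
            have h2 : c < e s := lt_of_mul_lt_mul_left h1 (zero_le' _)
            rw [← h.succ_le_iff] at h2
            calc y j + e (a j) * c < e (a j) + e (a j) * c := add_lt_add_left I.lt _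
              _ = e (a j) * (c + 1) := by ring
              _ ≤ e (a j) * e s := mul_le_mul_of_nonneg_left h2 (zero_le' _)
          refine ⟨?_, ?_, ?_, ?_, ?_, ?_⟩
          · rw [hy1]; exact hsz
          · rw [hs1]; intro h1; exact absurd h1 hsne
          · rw [hy1]; intro _
            exact ne_of_gt (lt_of_lt_of_le htpos (le_add_self' _ _))
          · rw [hs1]; intro h1
            exact absurd hev (h.ev_succ.mp h1)
          · rw [hs1, hy1]
            intro _
            congr 1
            by_cases h0 : σ l j = 0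
            · have hyz : y j = 0 := I.z h0
              have h1 : K (y j + t j) (a (j + 1)) = K (y j + t j) (a j) := by
                apply h.count_const (hK1 _) (hKc _) (haj j).le
                rintro n h2 h3 ⟨_, s, h4, h5, _, u, h6, h7⟩
                have h8 : a j ≤ u := by
                  by_contra hcon
                  rw [hlow u (not_le.mp hcon), hyz] at h7
                  exact h.not_bit_zero he hE u h7
                have h9 := hM1 j s (h8.trans h6) (h4.trans h3)
                rw [h5] at h9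
                exact absurd hlM (not_lt.mpr h9)
              have h2 : K (y j) (a j) = 0 := by
                rw [hKst (y j) 0 (a j) (zero_le' _) (fun n _ _ => by
                  rw [hyz]; exact h.not_bit_zero he hE n), (hKc _).zero]
              rw [h1, hKlow, h2, h0, add_zero]
            · obtain ⟨h1, s, h2, h3, h4, u0, h5, h6⟩ := I.ev hev h0
              have h7 : K (y j + t j) (a (j + 1)) = K (y j + t j) (a j) + 1 := by
                apply h.count_one (hK1 _) (hKc _) hab hba
                · refine ⟨(hhi b hab).2 hbt, s, h2.trans_le hab, h3, fun u hu hsu hbu => ?_, u0,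
                    h5, (hlow u0 (lt_of_le_of_lt h5 h2)).2 h6⟩
                  rcases lt_or_ge u (a j) with h8 | h8
                  · exact h4 u h8 hsu ((hlow u h8).1 hbu)
                  · exact hbmin u hu ((hhi u h8).1 hbu)
                · rintro n h8 h9 ⟨h10, s', h11, h12, h13, _⟩
                  by_contra hne
                  have h14 : bit e n (t j) := (hhi n h8).1 h10
                  have h15 : b < n := by
                    rcases lt_trichotomy n b with h16 | h16 | h16
                    · exact absurd h14 (hbmin n h16)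
                    · exact absurd h16 hne
                    · exact h16
                  have h17 : b ≤ s' := by
                    by_contra hcon
                    exact h13 b h15 (not_le.mp hcon) ((hhi b hab).2 hbt)
                  have h18 := hM1 j s' (hab.trans h17) (h11.trans h9)
                  rw [h12] at h18
                  exact absurd hlM (not_lt.mpr h18)
              rw [h7, hKlow, ← h1]; ring
          · rw [hy1]
            rintro s hs ⟨u, hus, hu⟩
            rcases lt_or_ge s (a j) with h2 | h2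
            · exact I.ge s h2 ⟨u, hus, (hlow u (lt_of_le_of_lt hus h2)).1 hu⟩
            · exact hlM.le.trans (hM1 j s h2 hs)
        · have hc4 : ¬ ((M j = l ∧ ¬ Ev (σ l j)) ∨ (l < M j ∧ Ev (σ l j))) := by
            rintro (h1 | h1)
            · exact hc2 h1.1
            · exact hev h1.2
          have hc3 : ¬ (l < M j ∧ Ev (σ l j)) := fun h1 => hev h1.2
          rw [if_neg hc4] at hs1
          rw [if_neg hc3] at hy1
          refine ⟨?_, ?_, ?_, ?_, ?_, ?_⟩
          · rw [hy1]; exact hylt
          · rw [hs1, hy1]; exact I.z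
          · rw [hs1, hy1]; exact I.nz
          · rw [hs1]; intro h1; exact absurd h1 hev
          · rw [hs1, hy1, hKsame]; exact I.odd
          · rw [hy1]; exact hge hc1

end

end Pool.Agent.Thin
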