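import Pool.Agent.Thin.Level

/-!
# thin-HT implies `Σ⁰₂` induction
-/

set_option autoImplicit false

namespace Pool.Agent.Thin

variable {R : Type} [CommRing R] [LinearOrder R] [IsStrictOrderedRing R]

section

variable {𝒮 : Set (Set (NN R))} (h : RCA0 𝒮)

include h

/-- the sum chosen by the level process is a finite sum of the apart sequence -/
theorem RCA0.y_mem {e : NN R → NN R} {S : Set (NN R)} {a t : NN R → NN R} (hA : Apart 𝒮 S e a t)
    {M : NN R → NN R} (hM : Fn1 𝒮 M) {σ : NN R → NN R → NN R} (hσ : Fn2 𝒮 σ) {l : NN R}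
    {y : NN R → NN R} (hy : Fn1 𝒮 y) (hyr : YRec M t σ l y) (j : NN R) (hj : y j ≠ 0) :
    y j ∈ FSin 𝒮 S := by
  classical
  have hp : Rl1 𝒮 (fun k => (l < M k ∧ Ev (σ l k)) ∧ ∀ k', k' < j → (k < k' → l ≤ M k')) := by
    refine (Rl.and (Rl.lt (Fn.const l) hM) (Rl1.app h.rl_ev (Fn2.app hσ (Fn.const l) (Fn.var 0)))).and
      (Rl.ball h (Fn.const j) (Rl.imp (Rl.lt (Fn.var 1) (Fn.var 0)) (Rl.le (Fn.const l)
      (Fn1.app hM (Fn.var 0)))))
  set p : NN R → Prop := fun k => (l < M k ∧ Ev (σ l k)) ∧ ∀ k', k' < j → (k < k' → l ≤ M k')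
    with hpdef
  obtain ⟨ψ, hψ, hψ0, hψs⟩ := h.prec (a := 0) (F := fun k z => if p k then z + t k else z)
    (Fn.ite (Rl1.app hp (Fn.var 0)) ((Fn.var 1).add (Fn1.app hA.ft (Fn.var 0))) (Fn.var 1))
  have hsum : IsSum p t ψ := ⟨hψ0, fun n hn => by rw [hψs, if_pos hn],
    fun n hn => by rw [hψs, if_neg hn]⟩
  have hA' : Rl1 𝒮 (fun k => ∀ k', k' < j → (k ≤ k' → l ≤ M k')) :=
    Rl.ball h (Fn.const j) (Rl.imp (Rl.le (Fn.var 1) (Fn.var 0)) (Rl.le (Fn.const l)
      (Fn1.app hM (Fn.var 0))))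
  have key : ∀ k, k ≤ j → ψ k = if (∀ k', k' < j → (k ≤ k' → l ≤ M k')) then y k else 0 := by
    refine h.ind_rl (p := fun k => k ≤ j → ψ k =
      if (∀ k', k' < j → (k ≤ k' → l ≤ M k')) then y k else 0) ?_ ?_ ?_
    · exact (Rl.le (Fn.var 0) (Fn.const j)).imp (Rl.eq hψ (Fn.ite hA' hy (Fn.const 0)))
    · intro _
      rw [hψ0, hyr.1]
      simp
    · intro k ih hk
      rw [h.succ_le_iff] at hk
      have ih' := ih hk.le
      by_cases h1 : ∀ k', k' < j → (k + 1 ≤ k' → l ≤ M k')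
      · rw [if_pos h1, hyr.2]
        by_cases h2 : M k < l
        · have h3 : ¬ ∀ k', k' < j → (k ≤ k' → l ≤ M k') := fun h4 =>
            absurd (h4 k hk le_rfl) (not_le.mpr h2)
          have h4 : ¬ p k := fun h5 => absurd h5.1.1 (not_lt.mpr h2.le)
          rw [if_neg h3] at ih'
          rw [if_pos h2, hψs, if_neg h4, ih']
        · have h3 : ∀ k', k' < j → (k ≤ k' → l ≤ M k') := by
            intro k' h5 h6
            rcases eq_or_lt_of_le h6 with rfl | h6
            · exact not_lt.mp h2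
            · exact h1 k' h5 (h.succ_le_iff.mpr h6)
          rw [if_pos h3] at ih'
          rw [if_neg h2, hψs, ih']
          by_cases h4 : l < M k ∧ Ev (σ l k)
          · rw [if_pos h4, if_pos ⟨h4, fun k' h5 h6 => h1 k' h5 (h.succ_le_iff.mpr h6)⟩]
          · rw [if_neg h4, if_neg (fun h5 => h4 h5.1)]
      · have h2 : ¬ ∀ k', k' < j → (k ≤ k' → l ≤ M k') := fun h3 =>
          h1 (fun k' h4 h5 => h3 k' h4 ((lt_succ k).le.trans h5))
        have h3 : ¬ p k := fun h4 => h1 (fun k' h5 h6 => h4.2 k' h5 (h.succ_le_iff.mp h6))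
        rw [if_neg h2] at ih'
        rw [if_neg h1, hψs, if_neg h3, ih']
  have h1 := key j le_rfl
  rw [if_pos (fun k' h2 h3 => absurd h2 (not_lt.mpr h3))] at h1
  rw [← h1]
  exact hA.fs p ψ hp hψ hsum j (by rw [h1]; exact hj)

theorem RCA0.cut_iff {G e : NN R → NN R} (he : Fn1 𝒮 e) (hE : IsExp e) {S : Set (NN R)}
    {a t : NN R → NN R} (hA : Apart 𝒮 S e a t) {M : NN R → NN R}
    (hM1 : ∀ j s, a j ≤ s → s < a (j + 1) → M j ≤ G s)
    (hM2 : ∀ j, ∃ s, a j ≤ s ∧ s < a (j + 1) ∧ G s = M j) (k : NN R) : Cut M k ↔ Cut G k := by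
  constructor
  · rintro ⟨j0, hj0⟩
    refine ⟨a j0, fun s hs => ?_⟩
    obtain ⟨j, hj, hmin⟩ := h.least (p := fun j => s < a (j + 1))
      (Rl.lt (Fn.const s) (Fn1.app hA.fa ((Fn.var 0).add (Fn.const 1))))
      ⟨s, lt_of_lt_of_le (lt_succ s) (h.apart_ge he hE hA _)⟩
    have h1 : a j ≤ s := by
      rcases h.eq_zero_or (a := j) with h0 | ⟨j', hj'⟩
      · rw [h0]; exact (h.apart_mono he hE hA (zero_le' j0)).trans hs
      · rw [hj']
        exact not_lt.mp (hmin j' (by rw [hj']; exact lt_succ j'))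
    have h2 : j0 ≤ j := by
      by_contra hc
      rw [not_le] at hc
      have h3 := h.apart_mono he hE hA (h.succ_le_iff.mpr hc)
      exact absurd hj (not_lt.mpr (h3.trans hs))
    exact lt_of_lt_of_le (hj0 j h2) (hM1 j s h1 hj)
  · rintro ⟨s0, hs0⟩
    refine ⟨s0, fun j hj => ?_⟩
    obtain ⟨s, h1, _, h3⟩ := hM2 j
    rw [← h3]
    exact hs0 s ((hj.trans (h.apart_ge he hE hA j)).trans h1)

theorem cutLemma_of_thinHT (hT : ThinHT 𝒮) : CutLemma 𝒮 := by
  intro G hG hc0 hcs b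
  obtain ⟨e, he, hE⟩ := h.exists_exp
  obtain ⟨m, C, hm, hC, hCc, hmin⟩ := h.exists_colour hG he
  obtain ⟨S, hS, hun, i, hi⟩ := hT (fun x => C x x - 1)
    (h.funIn_iff.mpr ((Fn2.app hC (Fn.var 0) (Fn.var 0)).sub (Fn.const 1)))
  obtain ⟨a, t, hA⟩ := h.exists_apart he hE hS hun
  obtain ⟨M, hM, hM1, hM2⟩ := h.exists_M hG he hE hA
  obtain ⟨σ, hσ, hr⟩ := h.exists_sig hM
  have hB : ∀ l j, σ l j < i + i + 1 + 1 + 1 := by
    intro l
    by_contra hcon
    push Not at hcon
    obtain ⟨j, hj, hjmin⟩ := h.least (p := fun j => i + i + 1 + 1 + 1 ≤ σ l j)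
      (Rl.le (Fn.const _) (Fn2.app hσ (Fn.const l) (Fn.var 0))) hcon
    have hj1 : σ l j = i + i + 1 + 1 + 1 := by
      rcases h.eq_zero_or (a := j) with h0 | ⟨j', hj'⟩
      · exfalso
        rw [h0, hr.1, h.succ_le_iff] at hj
        exact not_lt_zero' _ hj
      · have h1 : σ l j' < i + i + 1 + 1 + 1 :=
          not_le.mp (hjmin j' (by rw [hj']; exact lt_succ j'))
        have h2 : σ l j ≤ σ l j' + 1 := by
          rw [hj', hr.2]
          split
          · exact zero_le' _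
          · split
            · exact le_rfl
            · exact (lt_succ _).le
        exact le_antisymm (h2.trans (h.succ_le_iff.mpr h1)) hj
    obtain ⟨y, hy, hyr⟩ := h.exists_y hM hA.ft hσ l
    obtain ⟨K, hK, hKc⟩ := h.exists_count (p := fun x n => Gap G e l x n)
      (Rl3.app (h.rl_gap hG he) (Fn.const l) (Fn.var 0) (Fn.var 1))
    have I := h.inv hG he hE hA hM1 hM2 hσ hr hy hyr hK hKc j
    have hodd : ¬ Ev (σ l j) := by
      rw [hj1, h.ev_succ, h.ev_succ, h.ev_succ]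
      simp only [not_not]
      exact ⟨i, rfl⟩
    have hK1 : K (y j) (a j) = i + 1 := by
      have h1 := I.odd hodd
      rw [hj1] at h1
      apply Subtype.ext
      have h2 := congrArg Subtype.val h1
      push_cast at h2 ⊢
      linarith
    have hKF : Fn1 𝒮 (K (y j)) := Fn2.app hK (Fn.const _) (Fn.var 0)
    have hCF : Fn1 𝒮 (C (y j)) := Fn2.app hC (Fn.const _) (Fn.var 0)
    have hynz : y j ≠ 0 := I.nz (fun h0 => hodd (by rw [h0]; exact ev_zero))
    have hbits : ∀ n, bit e n (y j) → n < a j := by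
      intro n hn
      by_contra hc
      exact h.not_bit_of_lt he hE I.lt (not_lt.mp hc) hn
    have hml : m (y j) = l := by
      apply hmin
      · have hex : ∃ n, n < a j ∧ Gap G e l (y j) n := by
          by_contra hc
          push Not at hc
          have h1 := h.count_const hKF (hKc (y j)) (zero_le' (a j)) (fun n _ h2 => hc n h2)
          rw [hK1, (hKc (y j)).zero] at h1
          exact absurd h1 (ne_of_gt (lt_of_le_of_lt (zero_le' _) (lt_succ _)))
        obtain ⟨n, _, h2, s, h3, h4, _, u, h6, h7⟩ := hex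
        exact ⟨s, h3.trans (h.bit_lt he hE h2), ⟨⟨u, h6, h7⟩, n, h.bit_lt he hE h2, h3, h2⟩, h4⟩
      · rintro s _ ⟨h1, u, _, h3, h4⟩
        exact I.ge s (h3.trans (hbits u h4)) h1
    have hCK : C (y j) (y j) = K (y j) (y j) := by
      apply h.count_congr hCF (hCc _) hKF (hKc _)
      intro n _
      rw [hml]
    have hKK : K (y j) (y j) = K (y j) (a j) := by
      rcases le_total (y j) (a j) with h1 | h1
      · exact (h.count_const hKF (hKc _) h1 (fun n h2 _ h3 =>
          absurd (h.bit_lt he hE h3.1) (not_lt.mpr h2))).symm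
      · exact h.count_const hKF (hKc _) h1 (fun n h2 _ h3 =>
          absurd (hbits n h3.1) (not_lt.mpr h2))
    apply hi (y j) (h.y_mem hA hM hσ hy hyr j hynz)
    rw [hCK, hKK, hK1, add_tsub_cancel_right]
  have hcut := h.cut_iff he hE hA hM1 hM2
  exact (hcut b).1 (h.cut_of_sig hM hσ hr hB ((hcut 0).2 hc0)
    (fun k hk => (hcut _).2 (hcs k ((hcut k).1 hk))) b)

/-- thin-HT implies `Σ⁰₂` induction over `RCA₀` -/
theorem isigma2_of_thinHT (hT : ThinHT 𝒮) : ISigma2 𝒮 :=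
  isigma2_of_cutLemma h (cutLemma_of_thinHT h hT)

end

end Pool.Agent.Thin
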